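import Pool.Agent.Y648.HO.StmA

set_option autoImplicit false

/-!
# Good blocks for linear feasibility
-/

namespace Pool.Agent.Y648.HO

open Pool.Agent.NPC Pool.Agent.NPC.ER Pool.Agent.H558R2 Pool.Agent.H622R3.SM

theorem dcd_mono (m n : ℕ) (h h' : List (List Bool × Bool)) (hh : ∀ p ∈ h, p ∈ h')
    (hd : Dcd m n h) : Dcd m n h' := by
  rintro ⟨⟨a, ha, hf⟩, ⟨b, hb, hg⟩⟩
  exact hd ⟨⟨a, fun p hp => ha p (hh p hp), hf⟩, ⟨b, fun p hp => hb p (hh p hp), hg⟩⟩

theorem vs_ex (h1 : S_PAR) (h2 : S_WAR) (h4 : S_COD) (m n : ℕ) (hm : 1 ≤ m) (a : Inp m n)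
    (H : LS) (hH : ∀ p ∈ H, p.1.length = ell m n + 1 ∧ bin m n a p.1 = p.2) :
    ∃ c : List Bool, c.length = pN m n ∧
      VS (RLP m n) (ell m n + 1) (pk m n) (pr m n) (pT m n) (2 * ps m n) H c := by
  obtain ⟨-, e2, -⟩ := h1 m n hm
  obtain ⟨c, hc, hd⟩ := h4 (Inp m n) (bin m n) (ell m n + 1) (pk m n) (pr m n) (pg m n) (pT m n)
    (by unfold pr; omega) e2 (by unfold pk; exact le_rfl) (by unfold pT; omega)
    (h2 m n hm) a
  have hd' : ∀ q : List Bool, q.length = ell m n + 1 →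
      (dec (RLP m n) (ell m n + 1) (pk m n) (pr m n) (pT m n) c q ↔ bin m n a q = true) := hd
  refine ⟨c, hc, ?_, ?_⟩
  · intro V hV hq
    refine ⟨V.map (bin m n a), by rw [List.length_map, hV], ?_, ?_⟩
    · intro i hi
      have hi' : i < V.length := by rw [hV]; exact hi
      have e3 : (V.map (bin m n a)).getD i false = bin m n a (V.getD i []) := by
        rw [List.getD_eq_getElem _ _ (by rw [List.length_map]; exact hi'),
          List.getD_eq_getElem _ _ hi', List.getElem_map]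
      rw [e3]
      refine (hd' _ (hq _ ?_)).symm
      rw [List.getD_eq_getElem _ _ hi']
      exact List.getElem_mem hi'
    · refine ⟨a, ?_⟩
      intro p hp
      rw [List.zip_map_right] at hp
      obtain ⟨q, hq1, rfl⟩ := List.mem_map.1 hp
      have e4 : q.1 = q.2 := by
        obtain ⟨i, hi, rfl⟩ := List.mem_iff_getElem.1 hq1
        rw [List.getElem_zip]
      simp only [Prod.map_fst, Prod.map_snd, id]
      rw [e4]
  · intro p hp
    obtain ⟨h5, h6⟩ := hH p hp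
    rw [hd' _ h5, h6]

/-- There is a good block after every history of a genuine input. -/
theorem t_ALLG (h1 : S_PAR) (h2 : S_WAR) (h3 : S_HL) (h4 : S_COD) (h5 : S_GOOD) : S_ALLG := by
  intro m n hm a H hH
  have hc := vs_ex h1 h2 h4 m n hm a H hH
  refine ⟨hc, ?_⟩
  obtain ⟨-, -, e3⟩ := h1 m n hm
  exact h5 (RLP m n) (Dcd m n) (ell m n) (pk m n) (pr m n) (pT m n) (ps m n) (py m n)
    (by unfold ps; omega) (by unfold py; omega) e3 (dcd_mono m n) (h3 m n hm) H hc

/-- Meaning of good blocks. -/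
theorem t_GLP (h1 : S_LEV) : S_GLP := by
  obtain ⟨l1, l2, -⟩ := h1
  intro m n _ H U
  refine ⟨l2 _ _ _, ?_⟩
  intro hg τ hτ
  rcases hg τ hτ with hd | ⟨κ, -, he, hn⟩
  · exact Or.inl hd
  · right
    have a1 := (l1 _ _ _ _).1 he
    have a2 := mt (l1 _ _ _ _).2 hn
    exact lt_of_le_of_lt a1 (not_le.1 a2)

end Pool.Agent.Y648.HO
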