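import Pool.Agent.Y648.HO.Lrn

set_option autoImplicit false

/-!
# Averaging: from few wrong predictions in every sequence to a good sample for given weights
-/

namespace Pool.Agent.Y648.HO

namespace AVG

open Finset

variable {α : Type} (S : Finset α) (w : α → ℝ)

/-- weighted sums over the lists of length `n` with entries in `S` -/
noncomputable def A : ℕ → (List α → ℝ) → ℝ
  | 0, f => f []
  | n + 1, f => ∑ q ∈ S, w q * A n (fun X => f (q :: X))

theorem A_zero (f : List α → ℝ) : A S w 0 f = f [] := rfl

theorem A_succ (n : ℕ) (f : List α → ℝ) :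
    A S w (n + 1) f = ∑ q ∈ S, w q * A S w n (fun X => f (q :: X)) := rfl

variable {S w}

theorem A_mono (hw : ∀ x ∈ S, 0 < w x) (n : ℕ) (f g : List α → ℝ)
    (h : ∀ X : List α, X.length = n → (∀ x ∈ X, x ∈ S) → f X ≤ g X) : A S w n f ≤ A S w n g := by
  induction n generalizing f g with
  | zero => exact h [] rfl (by simp)
  | succ n ih =>
    rw [A_succ, A_succ]
    refine sum_le_sum fun q hq => mul_le_mul_of_nonneg_left ?_ (hw q hq).le
    refine ih _ _ fun X hX hXS => h _ (by simp [hX]) ?_
    intro x hx
    rcases List.mem_cons.1 hx with rfl | hx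
    · exact hq
    · exact hXS x hx

theorem A_lt (hw : ∀ x ∈ S, 0 < w x) (hS : S.Nonempty) (n : ℕ) (f g : List α → ℝ)
    (h : ∀ X : List α, X.length = n → (∀ x ∈ X, x ∈ S) → f X < g X) : A S w n f < A S w n g := by
  induction n generalizing f g with
  | zero => exact h [] rfl (by simp)
  | succ n ih =>
    rw [A_succ, A_succ]
    refine sum_lt_sum_of_nonempty hS fun q hq => mul_lt_mul_of_pos_left ?_ (hw q hq)
    refine ih _ _ fun X hX hXS => h _ (by simp [hX]) ?_
    intro x hx
    rcases List.mem_cons.1 hx with rfl | hx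
    · exact hq
    · exact hXS x hx

theorem A_mul (c : ℝ) (n : ℕ) (f : List α → ℝ) :
    A S w n (fun X => c * f X) = c * A S w n f := by
  induction n generalizing f with
  | zero => rfl
  | succ n ih =>
    rw [A_succ, A_succ, mul_sum]
    refine sum_congr rfl fun q _ => ?_
    rw [ih (fun X => f (q :: X))]
    ring

theorem A_sum {ι : Type} (s : Finset ι) (n : ℕ) (f : ι → List α → ℝ) :
    A S w n (fun X => ∑ i ∈ s, f i X) = ∑ i ∈ s, A S w n (f i) := by
  induction n generalizing f with
  | zero => rfl
  | succ n ih =>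
    simp only [A_succ]
    rw [sum_comm]
    refine sum_congr rfl fun q _ => ?_
    rw [ih (fun i X => f i (q :: X)), mul_sum]

theorem A_const (c : ℝ) (n : ℕ) : A S w n (fun _ => c) = c * (∑ q ∈ S, w q) ^ n := by
  induction n with
  | zero => rw [A_zero, pow_zero, mul_one]
  | succ n ih =>
    rw [A_succ, ih, ← sum_mul, pow_succ]
    ring

theorem A_add (j m : ℕ) (f : List α → ℝ) :
    A S w (j + m) f = A S w j (fun D => A S w m (fun U => f (D ++ U))) := by
  induction j generalizing f with
  | zero =>
    rw [Nat.zero_add]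
    rfl
  | succ j ih =>
    rw [show j + 1 + m = (j + m) + 1 by omega, A_succ, A_succ]
    refine sum_congr rfl fun q _ => ?_
    rw [ih]
    rfl

end AVG

open Finset AVG in
theorem t_AVG : S_AVG := by
  classical
  intro α S d w wr k φ hw hS hk hφ hX
  by_contra hcon
  push Not at hcon
  set W := ∑ q ∈ S, w q with hW
  have hWpos : 0 < W := sum_pos hw hS
  have h1 : A S w k (fun X => (((Finset.range k).filter fun j =>
      wr (X.take j) (X.drop (j + 1)) (X.getD j d)).card : ℝ)) ≤ φ * W ^ k := by
    rw [← A_const]
    refine A_mono hw _ _ _ fun X hXk hXS => ?_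
    have := hX X hXk hXS
    exact_mod_cast (le_trans (le_of_eq (by congr)) this)
  have h2 : A S w k (fun X => (((Finset.range k).filter fun j =>
      wr (X.take j) (X.drop (j + 1)) (X.getD j d)).card : ℝ)) =
      ∑ j ∈ range k, A S w k (fun X =>
        if wr (X.take j) (X.drop (j + 1)) (X.getD j d) then (1 : ℝ) else 0) := by
    rw [← A_sum]
    congr 1
    funext X
    rw [card_filter]
    push_cast
    rfl
  have h3 : ∀ j ∈ range k, W ^ k / 8 < A S w k (fun X =>
        if wr (X.take j) (X.drop (j + 1)) (X.getD j d) then (1 : ℝ) else 0) := by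
    intro j hj
    have hjk := mem_range.1 hj
    obtain ⟨m, rfl⟩ : ∃ m, k = j + (m + 1) := ⟨k - (j + 1), by omega⟩
    rw [A_add]
    have h4 : A S w j (fun _ => A S w m (fun _ => W / 8)) = W ^ (j + (m + 1)) / 8 := by
      rw [A_const (S := S) (w := w) (W / 8) m, A_const]
      rw [← hW]
      ring
    rw [← h4]
    refine A_lt hw hS _ _ _ fun D hD hDS => ?_
    rw [A_succ]
    have h5 : ∀ q ∈ S, w q * A S w m (fun U => if wr ((D ++ q :: U).take j)
        ((D ++ q :: U).drop (j + 1)) ((D ++ q :: U).getD j d) then (1 : ℝ) else 0) =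
        A S w m (fun U => if wr D U q then w q else 0) := by
      intro q _
      rw [← A_mul]
      congr 1
      funext U
      have e1 : (D ++ q :: U).take j = D := by
        rw [← hD, List.take_left]
      have e2 : (D ++ q :: U).drop (j + 1) = U := by
        rw [← hD, List.drop_append]
        simp
      have e3 : (D ++ q :: U).getD j d = q := by
        rw [← hD]
        simp
      rw [e1, e2, e3]
      split_ifs <;> simp
    rw [sum_congr rfl h5, ← A_sum]
    refine A_lt hw hS _ _ _ fun U hU hUS => ?_
    have h6 := hcon D U (by omega) hDS hUS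
    rw [sum_filter] at h6
    linarith
  have h7 : (k : ℝ) * (W ^ k / 8) < ∑ j ∈ range k, A S w k (fun X =>
        if wr (X.take j) (X.drop (j + 1)) (X.getD j d) then (1 : ℝ) else 0) := by
    have := sum_lt_sum_of_nonempty (nonempty_range_iff.2 (by omega)) h3
    rwa [sum_const, card_range, nsmul_eq_mul] at this
  have h8 : (8 : ℝ) * φ ≤ k := by exact_mod_cast hφ
  have h9 : 0 < W ^ k := by positivity
  rw [h2] at h1
  nlinarith

end Pool.Agent.Y648.HO
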