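import Pool.Agent.Y648.HO.StmC

set_option autoImplicit false

/-!
# Codes and the version space in the polynomial hierarchy
-/

namespace Pool.Agent.Y648.HO

open Pool.Agent.NPC
open Pool.Agent.H620R2.Gauge (Oracle)

namespace CDEC

section poly

variable {α β : Type} [TEnc α] [TEnc β]

omit [TEnc β] in
theorem drop_aux : ∀ (l : List β) (k j : ℕ),
    ((l.zipIdx j).filter (fun q => decide (j + k ≤ q.2))).map Prod.fst = l.drop k := by
  intro l
  induction l with
  | nil => simp
  | cons a l ih =>
    intro k j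
    rw [List.zipIdx_cons]
    cases k with
    | zero =>
      have h : ((a, j) :: l.zipIdx (j + 1)).filter (fun q => decide (j + 0 ≤ q.2)) =
          (a, j) :: l.zipIdx (j + 1) := by
        rw [List.filter_eq_self]
        intro q hq
        rcases List.mem_cons.1 hq with h | h
        · rw [h]; simp
        · have := List.le_snd_of_mem_zipIdx h
          simp only [decide_eq_true_eq]
          omega
      rw [h, List.drop_zero, List.map_cons, List.zipIdx_map_fst]
    | succ k =>
      rw [List.filter_cons_of_neg (by simp), List.drop_succ_cons]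
      have e : j + (k + 1) = j + 1 + k := by omega
      rw [e, ih k (j + 1)]

omit [TEnc β] in
theorem take_aux : ∀ (l : List β) (k j : ℕ),
    ((l.zipIdx j).filter (fun q => decide (q.2 < j + k))).map Prod.fst = l.take k := by
  intro l
  induction l with
  | nil => simp
  | cons a l ih =>
    intro k j
    rw [List.zipIdx_cons]
    cases k with
    | zero =>
      have h : ((a, j) :: l.zipIdx (j + 1)).filter (fun q => decide (q.2 < j + 0)) = [] := by
        rw [List.filter_eq_nil_iff]
        intro q hq
        rcases List.mem_cons.1 hq with h | h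
        · rw [h]; simp
        · have := List.le_snd_of_mem_zipIdx h
          simp only [decide_eq_true_eq]
          omega
      rw [h]; simp
    | succ k =>
      rw [List.filter_cons_of_pos (by simp), List.map_cons, List.take_succ_cons]
      have e : j + (k + 1) = j + 1 + k := by omega
      rw [e, ih k (j + 1)]

theorem poly_drop {l : α → List β} {k : α → ℕ} (hl : Poly l) (hk : Poly k) :
    Poly (fun a => (l a).drop (k a)) := by
  have h : Poly (fun a => ((l a).zipIdx.filter (fun q => decide (k a ≤ q.2))).map Prod.fst) := by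
    fun_prop
  refine h.congr fun a => ?_
  have := drop_aux (l a) (k a) 0
  simpa using this

theorem poly_take {l : α → List β} {k : α → ℕ} (hl : Poly l) (hk : Poly k) :
    Poly (fun a => (l a).take (k a)) := by
  have h : Poly (fun a => ((l a).zipIdx.filter (fun q => decide (q.2 < k a))).map Prod.fst) := by
    fun_prop
  refine h.congr fun a => ?_
  have := take_aux (l a) (k a) 0
  simpa using this

theorem poly_part {L i : α → ℕ} {x : α → List Bool} (hL : Poly L) (hi : Poly i) (hx : Poly x) :
    Poly (fun a => part (L a) (i a) (x a)) := by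
  unfold part
  exact poly_take (poly_drop hx (Poly.mul hi hL)) hL

theorem poly_entries {w n : α → ℕ} {x : α → List Bool} (hw : Poly w) (hn : UPoly n)
    (hx : Poly x) : Poly (fun a => entries (w a) (n a) (x a)) := by
  unfold entries
  exact NPC.Poly.map (F := fun a i => part (w a) i (x a)) hn.range
    (poly_part (hw.comp (Poly.fst Poly.id)) (Poly.snd Poly.id) (hx.comp (Poly.fst Poly.id)))

theorem upoly_pred {k : α → ℕ} (hk : UPoly k) : UPoly (fun a => k a - 1) :=
  UPoly.of_le (Poly.sub hk.toPoly (NPC.Poly.const 1)) hk fun _ => Nat.sub_le _ _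

theorem poly_Dof {l k : α → ℕ} {x : α → List Bool} (hl : UPoly l) (hk : UPoly k)
    (hx : Poly x) : Poly (fun a => Dof (l a) (k a) (x a)) := by
  have h1 : Poly (fun a => entries (l a + 2) (k a - 1) (x a)) :=
    poly_entries (Poly.add hl.toPoly (NPC.Poly.const 2)) (upoly_pred hk) hx
  have h2 := NPC.Poly.flatMap (l := fun a => entries (l a + 2) (k a - 1) (x a))
    (F := fun _ e => if e.getD 0 false = true then [(e.drop 2, e.getD 1 false)] else [])
    h1 (by
      refine Poly.ite (Poly.decide_bool (Poly.getD (Poly.snd Poly.id) (NPC.Poly.const 0)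
        (NPC.Poly.const false))) (Poly.cons (Poly.pair (poly_drop (Poly.snd Poly.id)
        (NPC.Poly.const 2)) (Poly.getD (Poly.snd Poly.id) (NPC.Poly.const 1)
        (NPC.Poly.const false))) (NPC.Poly.const [])) (NPC.Poly.const []))
  refine h2.congr fun a => ?_
  unfold Dof
  rw [List.filterMap_eq_flatMap_toList]
  congr 1
  funext e
  split_ifs <;> rfl

theorem poly_Uof {l k : α → ℕ} {x : α → List Bool} (hl : UPoly l) (hk : UPoly k)
    (hx : Poly x) : Poly (fun a => Uof (l a) (k a) (x a)) := by
  have h1 : Poly (fun a => entries (l a + 2) (k a - 1) (x a)) :=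
    poly_entries (Poly.add hl.toPoly (NPC.Poly.const 2)) (upoly_pred hk) hx
  have h2 := NPC.Poly.flatMap (l := fun a => entries (l a + 2) (k a - 1) (x a))
    (F := fun _ e => if e.getD 0 false = true then [] else [e.drop 2])
    h1 (by
      refine Poly.ite (Poly.decide_bool (Poly.getD (Poly.snd Poly.id) (NPC.Poly.const 0)
        (NPC.Poly.const false))) (NPC.Poly.const []) (Poly.cons (poly_drop (Poly.snd Poly.id)
        (NPC.Poly.const 2)) (NPC.Poly.const [])))
  refine h2.congr fun a => ?_
  unfold Uof
  rw [List.filterMap_eq_flatMap_toList]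
  congr 1
  funext e
  split_ifs <;> rfl

theorem poly_count {v : α → List Bool} (hv : Poly v) : Poly (fun a => (v a).count true) := by
  refine (Poly.length (Poly.filter (p := fun _ b => b) hv (Poly.snd Poly.id))).congr fun a => ?_
  rw [List.count_eq_length_filter]
  congr 2
  funext b
  cases b <;> rfl

end poly

end CDEC

open CDEC

theorem t_CDEC (hP : S_CPRE) : S_CDEC := by
  intro A β _ _ R l k r T c q hR hl hk hr hT hc hq
  -- the context of the predictions
  have f1 : Poly (fun z : (β × List Bool) × ℕ => z.1.1) := Poly.fst (Poly.fst Poly.id)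
  have hx : Poly (fun z : (β × List Bool) × ℕ =>
      part ((l z.1.1 + 2) * (k z.1.1 - 1)) z.2 (c z.1.1)) :=
    poly_part (Poly.mul (Poly.add (hl.toPoly.comp f1) (NPC.Poly.const 2))
      (Poly.sub (hk.toPoly.comp f1) (NPC.Poly.const 1))) (Poly.snd Poly.id) (hc.comp f1)
  have h1 := hP A ((β × List Bool) × ℕ) (fun p => R (p.1.1.1, p.2)) (fun z => k z.1.1)
    (fun z => r z.1.1)
    (fun z => Dof (l z.1.1) (k z.1.1) (part ((l z.1.1 + 2) * (k z.1.1 - 1)) z.2 (c z.1.1)))
    (fun z => Uof (l z.1.1) (k z.1.1) (part ((l z.1.1 + 2) * (k z.1.1 - 1)) z.2 (c z.1.1)))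
    (fun z => q z.1.1)
    (hR.comp (Poly.pair (Poly.fst (Poly.fst (Poly.fst Poly.id))) (Poly.snd Poly.id)))
    (hk.comp f1) (hr.comp f1) (poly_Dof (hl.comp f1) (hk.comp f1) hx)
    (poly_Uof (hl.comp f1) (hk.comp f1) hx) (hq.comp f1)
  have h2 : TPH A (fun z : (β × List Bool) × ℕ => z.1.2.getD z.2 false = true) :=
    TPH.of_poly (Poly.getD (Poly.snd (Poly.fst Poly.id)) (Poly.snd Poly.id)
      (NPC.Poly.const false))
  have h3 := (h2.imp h1).allLt (μ := fun p : β × List Bool => T p.1) (hT.comp (Poly.fst Poly.id))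
  have h4 : TPH A (fun p : β × List Bool => p.2.length = T p.1) :=
    TPH.of_dec (Poly.decide_eq (Poly.length (Poly.snd Poly.id))
      (hT.toPoly.comp (Poly.fst Poly.id)))
  have h5 : TPH A (fun p : β × List Bool => T p.1 < 2 * p.2.count true) :=
    TPH.of_dec (Poly.decide_lt (hT.toPoly.comp (Poly.fst Poly.id))
      (Poly.mul (NPC.Poly.const 2) (poly_count (Poly.snd Poly.id))))
  refine ((h4.and (h5.and h3)).exS hT).congr fun a => ?_
  unfold dec
  refine exists_congr fun v => ?_
  constructor
  · rintro ⟨-, h⟩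
    exact h
  · rintro ⟨h, h'⟩
    exact ⟨h.le, h, h'⟩

theorem c_vld (hD : S_CDEC) (A : Oracle) (β : Type) [TEnc β] [TDec β] (R : β × LS → Prop)
    (l k r T s : β → ℕ) (c : β → List Bool) (hR : TPH A R) (hl : UPoly l) (hk : UPoly k)
    (hr : UPoly r) (hT : UPoly T) (hs : UPoly s) (hc : Poly c) :
    TPH A (fun a => Vld (fun h => R (a, h)) (l a) (k a) (r a) (T a) (s a) (c a)) := by
  have f3 : Poly (fun z : ((β × List (List Bool)) × List Bool) × ℕ => z.1.1.1) :=
    Poly.fst (Poly.fst (Poly.fst Poly.id))
  have d1 := hD A (((β × List (List Bool)) × List Bool) × ℕ) (fun p => R (p.1.1.1.1, p.2))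
    (fun z => l z.1.1.1) (fun z => k z.1.1.1) (fun z => r z.1.1.1) (fun z => T z.1.1.1)
    (fun z => c z.1.1.1) (fun z => z.1.1.2.getD z.2 [])
    (hR.comp (Poly.pair (Poly.fst (Poly.fst (Poly.fst (Poly.fst Poly.id))))
      (Poly.snd Poly.id)))
    (hl.comp f3) (hk.comp f3) (hr.comp f3) (hT.comp f3) (hc.comp f3)
    (Poly.getD (Poly.snd (Poly.fst (Poly.fst Poly.id))) (Poly.snd Poly.id) (NPC.Poly.const []))
  have d2 : TPH A (fun z : ((β × List (List Bool)) × List Bool) × ℕ =>
      z.1.2.getD z.2 false = true) :=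
    TPH.of_poly (Poly.getD (Poly.snd (Poly.fst Poly.id)) (Poly.snd Poly.id)
      (NPC.Poly.const false))
  have d3 := (d2.iff d1).allLt (μ := fun p : (β × List (List Bool)) × List Bool => s p.1.1)
    (hs.comp (Poly.fst (Poly.fst Poly.id)))
  have d4 : TPH A (fun p : (β × List (List Bool)) × List Bool => p.2.length = s p.1.1) :=
    TPH.of_dec (Poly.decide_eq (Poly.length (Poly.snd Poly.id))
      (hs.toPoly.comp (Poly.fst (Poly.fst Poly.id))))
  have d5 : TPH A (fun p : (β × List (List Bool)) × List Bool => R (p.1.1, p.1.2.zip p.2)) :=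
    hR.comp (Poly.pair (Poly.fst (Poly.fst Poly.id))
      (Poly.zip (Poly.snd (Poly.fst Poly.id)) (Poly.snd Poly.id)))
  have d6 := (d4.and (d3.and d5)).exS (μ := fun p : β × List (List Bool) => s p.1)
    (hs.comp (Poly.fst Poly.id))
  have d7 : TPH A (fun p : β × List (List Bool) => p.2.length = s p.1) :=
    TPH.of_dec (Poly.decide_eq (Poly.length (Poly.snd Poly.id))
      (hs.toPoly.comp (Poly.fst Poly.id)))
  have d8 : TPH A (fun p : β × List (List Bool) =>
      (p.2.all fun q : List Bool => decide (q.length = l p.1)) = true) :=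
    TPH.of_poly (Poly.all (p := fun (p : β × List (List Bool)) (q : List Bool) => decide (q.length = l p.1))
        (Poly.snd Poly.id)
      (Poly.decide_eq (Poly.length (Poly.snd Poly.id))
        (hl.toPoly.comp (Poly.fst (Poly.fst Poly.id)))))
  have hμ : UPoly (fun a => s a * (4 * l a + 2) + 1) :=
    UPoly.add (UPoly.mul hs (UPoly.add (UPoly.mul (UPoly.const 4) hl) (UPoly.const 2)))
      (UPoly.const 1)
  have d9 := (d7.imp (d8.imp d6)).allT hμ
  refine d9.congr fun a => ?_
  unfold Vld
  constructor
  · intro h V hV hq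
    have hsz : sz V ≤ s a * (4 * l a + 2) + 1 := by
      have := sz_le_length_mul V (4 * l a + 1) (fun q hq' => by
        have h1 := sz_listBool_le q
        rw [hq q hq'] at h1
        exact h1)
      rw [hV] at this
      exact this
    obtain ⟨v, -, h1, h2, h3⟩ := h V hsz hV (by
      rw [List.all_eq_true]
      intro q hq'
      simpa using hq q hq')
    exact ⟨v, h1, h2, h3⟩
  · intro h V _ hV hq
    rw [List.all_eq_true] at hq
    obtain ⟨v, h1, h2, h3⟩ := h V hV (fun q hq' => by simpa using hq q hq')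
    exact ⟨v, h1.le, h1, h2, h3⟩

theorem c_agr (hD : S_CDEC) (A : Oracle) (β : Type) [TEnc β] [TDec β] (R : β × LS → Prop)
    (l k r T : β → ℕ) (H : β → LS) (c : β → List Bool) (hR : TPH A R) (hl : UPoly l)
    (hk : UPoly k) (hr : UPoly r) (hT : UPoly T) (hH : Poly H) (hc : Poly c) :
    TPH A (fun a => ∀ p ∈ H a, dec (fun h => R (a, h)) (l a) (k a) (r a) (T a) (c a) p.1 ↔
      p.2 = true) := by
  have f1 : Poly (fun z : β × (List Bool × Bool) => z.1) := Poly.fst Poly.id
  have e1 := hD A (β × (List Bool × Bool)) (fun p => R (p.1.1, p.2))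
    (fun z => l z.1) (fun z => k z.1) (fun z => r z.1) (fun z => T z.1)
    (fun z => c z.1) (fun z => z.2.1)
    (hR.comp (Poly.pair (Poly.fst (Poly.fst Poly.id)) (Poly.snd Poly.id)))
    (hl.comp f1) (hk.comp f1) (hr.comp f1) (hT.comp f1) (hc.comp f1)
    (Poly.fst (Poly.snd Poly.id))
  have e2 : TPH A (fun z : β × (List Bool × Bool) => z.2.2 = true) :=
    TPH.of_poly (Poly.snd (Poly.snd Poly.id))
  exact (e1.iff e2).allMem hH

theorem t_CVS (hD : S_CDEC) : S_CVS := by
  intro A β _ _ R l k r T s H c hR hl hk hr hT hs hH hc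
  have v1 := c_vld hD A β R l k r T s c hR hl hk hr hT hs hc
  have v2 := c_agr hD A β R l k r T H c hR hl hk hr hT hH hc
  exact (v1.and v2).congr fun _ => Iff.rfl

end Pool.Agent.Y648.HO
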