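import Pool.Agent.Y648.HO.StmC

set_option autoImplicit false

/-!
# Estimates and predictions stay in the polynomial hierarchy
-/

namespace Pool.Agent.Y648.HO

open Pool.Agent.NPC Pool.Agent.W911.IB
open Pool.Agent.H490R3.LH.EQAx
open Pool.Agent.H620R2.Gauge (Oracle)

section Fn

variable {α : Type} [TEnc α]

theorem cest_take {l : α → List Bool} {k : α → ℕ} (hl : Poly l) (hk : Poly k) :
    Poly (fun a => (l a).take (k a)) := by
  have h : Poly (fun a => (List.range (min (k a) (l a).length)).map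
      fun i => (l a).getD i false) := by
    have hu : UPoly (fun a => min (k a) (l a).length) :=
      UPoly.of_le (Poly.min hk (Poly.length hl)) (UPoly.length hl) fun _ => min_le_right _ _
    exact NPC.Poly.map (F := fun a i => (l a).getD i false) hu.range
      (Poly.getD (hl.comp (Poly.fst Poly.id)) (Poly.snd Poly.id) (NPC.Poly.const false))
  refine h.congr fun a => ?_
  apply List.ext_getElem
  · simp
  · intro i h1 h2
    simp only [List.length_map, List.length_range] at h1
    simp only [List.getElem_map, List.getElem_range, List.getElem_take]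
    rw [List.getD_eq_getElem _ _ (by omega)]

theorem cest_drop {l : α → List Bool} {k : α → ℕ} (hl : Poly l) (hk : Poly k) :
    Poly (fun a => (l a).drop (k a)) := by
  have h : Poly (fun a => (List.range ((l a).length - k a)).map
      fun i => (l a).getD (k a + i) false) := by
    have hu : UPoly (fun a => (l a).length - k a) :=
      UPoly.of_le (Poly.sub (Poly.length hl) hk) (UPoly.length hl) fun _ => Nat.sub_le _ _
    exact NPC.Poly.map (F := fun a i => (l a).getD (k a + i) false) hu.range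
      (Poly.getD (hl.comp (Poly.fst Poly.id))
        (Poly.add (hk.comp (Poly.fst Poly.id)) (Poly.snd Poly.id)) (NPC.Poly.const false))
  refine h.congr fun a => ?_
  apply List.ext_getElem
  · simp
  · intro i h1 h2
    simp only [List.length_map, List.length_range] at h1
    simp only [List.getElem_map, List.getElem_range, List.getElem_drop]
    rw [List.getD_eq_getElem _ _ (by omega)]

theorem cest_part {L i : α → ℕ} {x : α → List Bool} (hL : Poly L) (hi : Poly i) (hx : Poly x) :
    Poly (fun a => part (L a) (i a) (x a)) :=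
  cest_take (cest_drop hx (Poly.mul hi hL)) hL

theorem cest_ip {x y : α → List Bool} (hx : Poly x) (hy : Poly y) :
    Poly (fun a => ip (x a) (y a)) := by
  have h1 : Poly (fun a => ((x a).zip (y a)).map fun p => (p.1 && p.2)) :=
    NPC.Poly.map (F := fun _ (p : Bool × Bool) => (p.1 && p.2)) (Poly.zip hx hy)
      (Poly.and (Poly.fst (Poly.snd Poly.id)) (Poly.snd (Poly.snd Poly.id)))
  have h2 := Poly.foldr (F := fun _ (b s : Bool) => (b ^^ s)) (s := fun _ => false) h1
    (NPC.Poly.const false)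
    (Poly.xor (Poly.fst (Poly.snd Poly.id)) (Poly.snd (Poly.snd Poly.id))) (Polynomial.C 3)
    (fun a k _ => by
      rw [Polynomial.eval_C]
      exact sz_bool_le _)
  refine h2.congr fun a => ?_
  unfold ip
  rw [List.zip, List.map_zipWith]

theorem cest_hsh {M : α → List (List Bool)} {x : α → List Bool} (hM : Poly M) (hx : Poly x) :
    Poly (fun a => hsh (M a) (x a)) :=
  NPC.Poly.map (F := fun a (r : List Bool) => ip r (x a)) hM
    (cest_ip (Poly.snd Poly.id) (hx.comp (Poly.fst Poly.id)))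

end Fn

theorem sz_seed {n κ K : ℕ} (hK : κ ≤ K) {M : List (List (List Bool))} (h : Seed n κ M) :
    sz M ≤ K * (K * (4 * n + 2) + 2) + 1 := by
  obtain ⟨h1, h2⟩ := h
  have h3 : ∀ m ∈ M, sz m ≤ K * (4 * n + 2) + 1 := by
    intro m hm
    obtain ⟨h4, h5⟩ := h2 m hm
    have h6 := sz_le_length_mul m (4 * n + 1) fun r hr => by
      have := sz_listBool_le r
      rw [h5 r hr] at this
      exact this
    rw [h4] at h6
    have h7 : κ * (4 * n + 1 + 1) ≤ K * (4 * n + 2) := Nat.mul_le_mul_right _ hK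
    omega
  have h6 := sz_le_length_mul M _ h3
  rw [h1] at h6
  have h7 : κ * (K * (4 * n + 2) + 1 + 1) ≤ K * (K * (4 * n + 2) + 2) :=
    Nat.mul_le_mul_right _ hK
  omega

/-- the power of a property -/
theorem tph_pow {A : Oracle} {β : Type} [TEnc β] [TDec β] {P : β × List Bool → Prop}
    {L r : β → ℕ} (hP : TPH A P) (hL : UPoly L) (hr : UPoly r) :
    TPH A (fun p : β × List Bool => Pow (L p.1) (r p.1) (fun x => P (p.1, x)) p.2) := by
  have h1 : TPH A (fun t : (β × List Bool) × ℕ => P (t.1.1, part (L t.1.1) t.2 t.1.2)) :=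
    hP.comp (Poly.pair (Poly.fst (Poly.fst Poly.id))
      (cest_part (hL.toPoly.comp (Poly.fst (Poly.fst Poly.id))) (Poly.snd Poly.id)
        (Poly.snd (Poly.fst Poly.id))))
  exact h1.allLt (hr.comp (Poly.fst Poly.id))

theorem t_CEST : S_CEST := by
  intro A β _ _ P L r κ hP hL hr hκ
  have hn : UPoly (fun a : β => L a * r a) := hL.mul hr
  have hpow := tph_pow hP hL hr
  -- the data: a, κ', M, x, m, y
  have h5 : TPH A (fun t : ((((β × ℕ) × List (List (List Bool))) × List Bool) ×
      List (List Bool)) × List Bool =>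
      t.2.length = L t.1.1.1.1.1 * r t.1.1.1.1.1 →
      Pow (L t.1.1.1.1.1) (r t.1.1.1.1.1) (fun x => P (t.1.1.1.1.1, x)) t.2 →
      hsh t.1.2 t.2 = hsh t.1.2 t.1.1.2 → t.2 = t.1.1.2) := by
    refine TPH.imp ?_ (TPH.imp ?_ (TPH.imp ?_ ?_))
    · exact TPH.of_dec (Poly.decide_eq (Poly.length (Poly.snd Poly.id))
        (hn.toPoly.comp (Poly.fst (Poly.fst (Poly.fst (Poly.fst (Poly.fst Poly.id)))))))
    · exact hpow.comp (Poly.pair (Poly.fst (Poly.fst (Poly.fst (Poly.fst (Poly.fst Poly.id)))))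
        (Poly.snd Poly.id))
    · exact TPH.of_dec (Poly.decide_eq
        (cest_hsh (Poly.snd (Poly.fst Poly.id)) (Poly.snd Poly.id))
        (cest_hsh (Poly.snd (Poly.fst Poly.id)) (Poly.snd (Poly.fst (Poly.fst Poly.id)))))
    · exact TPH.of_dec (Poly.decide_eq (Poly.snd Poly.id) (Poly.snd (Poly.fst (Poly.fst Poly.id))))
  have h4 := h5.allS (μ := fun t => L t.1.1.1.1 * r t.1.1.1.1)
    (hn.comp (Poly.fst (Poly.fst (Poly.fst (Poly.fst Poly.id)))))
  have h3 := h4.exMem (l := fun t => t.1.2) (Poly.snd (Poly.fst Poly.id))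
  have h3' : TPH A (fun t : ((β × ℕ) × List (List (List Bool))) × List Bool =>
      t.2.length = L t.1.1.1 * r t.1.1.1 →
      Pow (L t.1.1.1) (r t.1.1.1) (fun x => P (t.1.1.1, x)) t.2 →
      ∃ m ∈ t.1.2, ∀ y : List Bool, y.length ≤ L t.1.1.1 * r t.1.1.1 →
        y.length = L t.1.1.1 * r t.1.1.1 →
        Pow (L t.1.1.1) (r t.1.1.1) (fun x => P (t.1.1.1, x)) y →
        hsh m y = hsh m t.2 → y = t.2) := by
    refine TPH.imp ?_ (TPH.imp ?_ h3)
    · exact TPH.of_dec (Poly.decide_eq (Poly.length (Poly.snd Poly.id))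
        (hn.toPoly.comp (Poly.fst (Poly.fst (Poly.fst Poly.id)))))
    · exact hpow.comp (Poly.pair (Poly.fst (Poly.fst (Poly.fst Poly.id))) (Poly.snd Poly.id))
  have h2 := h3'.allS (μ := fun t => L t.1.1 * r t.1.1) (hn.comp (Poly.fst (Poly.fst Poly.id)))
  -- seeds
  have hs : TPH A (fun t : (β × ℕ) × List (List (List Bool)) =>
      Seed (L t.1.1 * r t.1.1) t.1.2 t.2) := by
    refine TPH.and ?_ ?_
    · exact TPH.of_dec (Poly.decide_eq (Poly.length (Poly.snd Poly.id))
        (Poly.snd (Poly.fst Poly.id)))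
    · have g1 : TPH A (fun t : (((β × ℕ) × List (List (List Bool))) × List (List Bool)) ×
          List Bool => t.2.length = L t.1.1.1.1 * r t.1.1.1.1) :=
        TPH.of_dec (Poly.decide_eq (Poly.length (Poly.snd Poly.id))
          (hn.toPoly.comp (Poly.fst (Poly.fst (Poly.fst (Poly.fst Poly.id))))))
      have g2 := g1.allMem (l := fun t => t.2) (Poly.snd Poly.id)
      have g3 : TPH A (fun t : ((β × ℕ) × List (List (List Bool))) × List (List Bool) =>
          t.2.length = t.1.1.2 ∧ ∀ r' ∈ t.2, r'.length = L t.1.1.1 * r t.1.1.1) := by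
        refine TPH.and ?_ g2
        exact TPH.of_dec (Poly.decide_eq (Poly.length (Poly.snd Poly.id))
          (Poly.snd (Poly.fst (Poly.fst Poly.id))))
      exact g3.allMem (l := fun t => t.2) (Poly.snd Poly.id)
  have h1 := (hs.and h2).exT (μ := fun t : β × ℕ =>
      κ t.1 * (κ t.1 * (4 * (L t.1 * r t.1) + 2) + 2) + 1) (by
    have k1 : UPoly (fun t : β × ℕ => κ t.1) := hκ.comp (Poly.fst Poly.id)
    have k2 : UPoly (fun t : β × ℕ => L t.1 * r t.1) := hn.comp (Poly.fst Poly.id)
    exact UPoly.add (UPoly.mul k1 (UPoly.add (UPoly.mul k1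
      (UPoly.add (UPoly.mul (UPoly.const 4) k2) (UPoly.const 2))) (UPoly.const 2)))
      (UPoly.const 1))
  have h0 := h1.exLt (μ := fun a => κ a + 1) (UPoly.add hκ (UPoly.const 1))
  refine h0.congr fun a => ?_
  unfold Est Iso
  constructor
  · rintro ⟨κ', hκ', M, -, hS, hx⟩
    refine ⟨κ', Nat.lt_succ_iff.1 hκ', M, hS, fun x hxl hxP => ?_⟩
    obtain ⟨m, hm, hy⟩ := hx x hxl.le hxl hxP
    exact ⟨m, hm, fun y hyl hyP => hy y hyl.le hyl hyP⟩
  · rintro ⟨κ', hκ', M, hS, hx⟩
    refine ⟨κ', Nat.lt_succ_iff.2 hκ', M, sz_seed hκ' hS, hS, fun x _ hxl hxP => ?_⟩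
    obtain ⟨m, hm, hy⟩ := hx x hxl hxP
    exact ⟨m, hm, fun y _ hyl hyP => hy y hyl hyP⟩

/-- the extensions -/
theorem tph_ext {A : Oracle} {β : Type} [TEnc β] [TDec β] {R : β × LS → Prop}
    {D : β → LS} {U : β → List (List Bool)} {q : β → List Bool} (hR : TPH A R)
    (hD : Poly D) (hU : Poly U) (hq : Poly q) (b : Bool) :
    TPH A (fun p : β × List Bool => Ext (fun h => R (p.1, h)) (D p.1) (U p.1) (q p.1) b p.2) := by
  have hD' : Poly (fun p : β × List Bool => D p.1) := hD.comp (Poly.fst Poly.id)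
  have hU' : Poly (fun p : β × List Bool => U p.1) := hU.comp (Poly.fst Poly.id)
  have hq' : Poly (fun p : β × List Bool => q p.1) := hq.comp (Poly.fst Poly.id)
  have h1 : Poly (fun p : β × List Bool => (D p.1).map Prod.snd ++ [b]) :=
    Poly.append (NPC.Poly.map (F := fun _ (e : List Bool × Bool) => e.2) hD'
      (Poly.snd (Poly.snd Poly.id))) (NPC.Poly.const [b])
  have h2 : Poly (fun p : β × List Bool => (D p.1).map Prod.fst ++ q p.1 :: U p.1) :=
    Poly.append (NPC.Poly.map (F := fun _ (e : List Bool × Bool) => e.1) hD'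
      (Poly.fst (Poly.snd Poly.id))) (Poly.cons hq' hU')
  refine TPH.and ?_ ?_
  · have h3 : TPH A (fun p : β × List Bool => (D p.1).map Prod.snd ++ [b] =
        p.2.take ((D p.1).map Prod.snd ++ [b]).length) :=
      TPH.of_dec (Poly.decide_eq h1 (cest_take (Poly.snd Poly.id) (Poly.length h1)))
    exact h3.congr fun p => List.prefix_iff_eq_take.symm
  · exact hR.comp (Poly.pair (Poly.fst Poly.id) (Poly.zip h2 (Poly.snd Poly.id)))

theorem t_CPRE : S_CEST → S_CPRE := by
  intro hC A β _ _ R k r D U q hR hk hr hD hU hq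
  have hkr : UPoly (fun a : β => k a * r a + 1) := (hk.mul hr).add (UPoly.const 1)
  have hR' : TPH A (fun p : (β × ℕ) × LS => R (p.1.1, p.2)) :=
    hR.comp (Poly.pair (Poly.fst (Poly.fst Poly.id)) (Poly.snd Poly.id))
  have hE : ∀ b : Bool, TPH A (fun t : β × ℕ => Est (k t.1) (r t.1) (min t.2 (k t.1 * r t.1 + 1))
      (Ext (fun h => R (t.1, h)) (D t.1) (U t.1) (q t.1) b)) := by
    intro b
    have h1 := tph_ext (D := fun t : β × ℕ => D t.1) (U := fun t : β × ℕ => U t.1)
      (q := fun t : β × ℕ => q t.1) hR' (hD.comp (Poly.fst Poly.id)) (hU.comp (Poly.fst Poly.id))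
      (hq.comp (Poly.fst Poly.id)) b
    exact hC A (β × ℕ) _ (fun t => k t.1) (fun t => r t.1) (fun t => min t.2 (k t.1 * r t.1 + 1))
      h1 (hk.comp (Poly.fst Poly.id)) (hr.comp (Poly.fst Poly.id))
      (UPoly.of_le (Poly.min (Poly.snd Poly.id) (hkr.toPoly.comp (Poly.fst Poly.id)))
        (hkr.comp (Poly.fst Poly.id)) fun _ => min_le_right _ _)
  have h2 := ((hE true).imp (hE false)).allLt (μ := fun a => k a * r a + 1 + 1)
    (hkr.add (UPoly.const 1))
  refine h2.congr fun a => ?_
  unfold Pre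
  constructor
  · intro h κ hκ h3
    have h4 := h κ (Nat.lt_succ_iff.2 hκ)
    simp only at h4
    rw [min_eq_left hκ] at h4
    exact h4 h3
  · intro h κ hκ h3
    have hκ' : κ ≤ k a * r a + 1 := Nat.lt_succ_iff.1 hκ
    simp only at h3 ⊢
    rw [min_eq_left hκ'] at h3 ⊢
    exact h κ hκ' h3

end Pool.Agent.Y648.HO
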