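import Pool.Agent.Y648.HO.StmC

set_option autoImplicit false

/-!
# Good blocks in the polynomial hierarchy
-/

namespace Pool.Agent.Y648.HO

namespace CGOOD

open Pool.Agent.NPC
open Pool.Agent.H620R2.Gauge (Oracle)

variable {α : Type} [TEnc α]

theorem uPoly_clen {l k T : α → ℕ} (hl : UPoly l) (hk : UPoly k) (hT : UPoly T) :
    UPoly (fun a => clen (l a) (k a) (T a)) := by
  have h1 : UPoly (fun a => k a - 1) :=
    UPoly.of_le (Poly.sub hk.toPoly (NPC.Poly.const 1)) hk fun a => Nat.sub_le _ _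
  exact ((hl.add (UPoly.const 2)).mul h1).mul hT

theorem poly_items {U : α → List (List Bool)} {τ : α → List (Option Bool)} (hU : Poly U)
    (hτ : Poly τ) : Poly (fun a => items (U a) (τ a)) := by
  unfold items item
  fun_prop

theorem sz_signs (τ : List (Option Bool)) : sz τ ≤ 6 * τ.length + 1 := by
  have h := sz_le_length_mul τ 5 fun o _ => by
    rcases o with _ | b
    · simp
    · have := sz_bool_le b
      simp
      omega
  omega

end CGOOD

open CGOOD Pool.Agent.NPC
open Pool.Agent.H620R2.Gauge (Oracle)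

/-- **Good blocks.** -/
theorem t_CGOOD (hE : S_CEST) (hV : S_CVS) : S_CGOOD := by
  intro A β _ _ R E l k r T s y H U hR hEE hl hk hr hT hs hy hH hU
  -- the version space
  have key : ∀ (G : (β × List (Option Bool)) × ℕ → LS), Poly G →
      TPH A (fun a : (β × List (Option Bool)) × ℕ =>
        Est (clen (l a.1.1 + 1) (k a.1.1) (T a.1.1)) (2 * s a.1.1 * y a.1.1)
          (min a.2 (clen (l a.1.1 + 1) (k a.1.1) (T a.1.1) * (2 * s a.1.1 * y a.1.1) + 1))
          (VS (fun h => R (a.1.1, h)) (l a.1.1 + 1) (k a.1.1) (r a.1.1) (T a.1.1) (2 * s a.1.1)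
            (G a))) := by
    intro G hG
    have hf1 : Poly (fun a : (β × List (Option Bool)) × ℕ => a.1.1) := Poly.fst (Poly.fst Poly.id)
    have hf2 : Poly (fun a : ((β × List (Option Bool)) × ℕ) × List Bool => a.1.1.1) :=
      hf1.comp (Poly.fst Poly.id)
    have hf3 : Poly (fun a : (((β × List (Option Bool)) × ℕ) × List Bool) × LS => (a.1.1.1.1, a.2)) :=
      Poly.pair (hf2.comp (Poly.fst Poly.id)) (Poly.snd Poly.id)
    have h1 := hV A (((β × List (Option Bool)) × ℕ) × List Bool)
      (fun p => R (p.1.1.1.1, p.2)) (fun a => l a.1.1.1 + 1) (fun a => k a.1.1.1)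
      (fun a => r a.1.1.1) (fun a => T a.1.1.1) (fun a => 2 * s a.1.1.1) (fun a => G a.1)
      (fun a => a.2) (hR.comp hf3) ((hl.comp hf2).add (UPoly.const 1)) (hk.comp hf2)
      (hr.comp hf2) (hT.comp hf2) ((UPoly.const 2).mul (hs.comp hf2))
      (hG.comp (Poly.fst Poly.id)) (Poly.snd Poly.id)
    have hN : UPoly (fun a : (β × List (Option Bool)) × ℕ =>
        clen (l a.1.1 + 1) (k a.1.1) (T a.1.1)) :=
      uPoly_clen ((hl.comp hf1).add (UPoly.const 1)) (hk.comp hf1) (hT.comp hf1)
    have hr' : UPoly (fun a : (β × List (Option Bool)) × ℕ => 2 * s a.1.1 * y a.1.1) :=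
      ((UPoly.const 2).mul (hs.comp hf1)).mul (hy.comp hf1)
    have hK : UPoly (fun a : (β × List (Option Bool)) × ℕ =>
        clen (l a.1.1 + 1) (k a.1.1) (T a.1.1) * (2 * s a.1.1 * y a.1.1) + 1) :=
      (hN.mul hr').add (UPoly.const 1)
    have hκ : UPoly (fun a : (β × List (Option Bool)) × ℕ =>
        min a.2 (clen (l a.1.1 + 1) (k a.1.1) (T a.1.1) * (2 * s a.1.1 * y a.1.1) + 1)) :=
      UPoly.of_le (Poly.min (Poly.snd Poly.id) hK.toPoly) hK fun a => min_le_right _ _
    exact hE A ((β × List (Option Bool)) × ℕ) _ _ _ _ h1 hN hr' hκ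
  have hg1 : Poly (fun a : (β × List (Option Bool)) × ℕ => H a.1.1) :=
    hH.comp (Poly.fst (Poly.fst Poly.id))
  have hg2 : Poly (fun a : β × List (Option Bool) => H a.1 ++ items (U a.1) a.2) :=
    Poly.append (hH.comp (Poly.fst Poly.id)) (poly_items (hU.comp (Poly.fst Poly.id))
      (Poly.snd Poly.id))
  have hKb : UPoly (fun a : β × List (Option Bool) =>
      clen (l a.1 + 1) (k a.1) (T a.1) * (2 * s a.1 * y a.1) + 1 + 1) := by
    have hf : Poly (fun a : β × List (Option Bool) => a.1) := Poly.fst Poly.id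
    exact (((uPoly_clen ((hl.comp hf).add (UPoly.const 1)) (hk.comp hf) (hT.comp hf)).mul
      (((UPoly.const 2).mul (hs.comp hf)).mul (hy.comp hf))).add (UPoly.const 1)).add (UPoly.const 1)
  have h2 := (((key _ (hg2.comp (Poly.fst Poly.id))).and (key _ hg1).neg).exLt hKb)
  have h3 : TPH A (fun a : β × List (Option Bool) => E (a.1, H a.1 ++ items (U a.1) a.2)) :=
    hEE.comp (Poly.pair (Poly.fst Poly.id) hg2)
  have h4 : TPH A (fun a : β × List (Option Bool) => a.2.length = s a.1) := by
    refine TPH.of_dec ?_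
    exact Poly.decide_eq (Poly.length (Poly.snd Poly.id)) (hs.toPoly.comp (Poly.fst Poly.id))
  have hμ : UPoly (fun a => 6 * s a + 1) := ((UPoly.const 6).mul hs).add (UPoly.const 1)
  refine ((h4.imp (h3.or h2)).allT hμ).congr fun a => ?_
  unfold Good
  constructor
  · intro h τ hτ
    rcases h τ (by have := sz_signs τ; rw [hτ] at this; exact this) hτ with h5 | ⟨κ, h5, h6, h7⟩
    · exact Or.inl h5
    · have h5' := Nat.lt_succ_iff.1 h5
      refine Or.inr ⟨κ, h5', ?_, ?_⟩
      · rw [min_eq_left h5'] at h6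
        exact h6
      · rw [min_eq_left h5'] at h7
        exact h7
  · intro h τ _ hτ
    rcases h τ hτ with h5 | ⟨κ, h5, h6, h7⟩
    · exact Or.inl h5
    · refine Or.inr ⟨κ, Nat.lt_succ_iff.2 h5, ?_, ?_⟩
      · have h8 : min κ (clen (l a + 1) (k a) (T a) * (2 * s a * y a) + 1) = κ := min_eq_left h5
        show Est _ _ (min κ (clen (l a + 1) (k a) (T a) * (2 * s a * y a) + 1)) _
        rw [h8]
        exact h6
      · have h8 : min κ (clen (l a + 1) (k a) (T a) * (2 * s a * y a) + 1) = κ := min_eq_left h5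
        show ¬ Est _ _ (min κ (clen (l a + 1) (k a) (T a) * (2 * s a * y a) + 1)) _
        rw [h8]
        exact h7

end Pool.Agent.Y648.HO
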