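import Pool.Agent.Y648.HO.StmA
import Pool.Agent.ER.Dec
import Pool.Agent.NPC.Sat
import Pool.Agent.H622R2.CoNP
import Pool.Agent.H601R2.PP
import Pool.Agent.H628R2.FPTW

set_option autoImplicit false

/-!
# Collapse of the hierarchy above the existential theory of the reals

If the class of the existential theory of the reals is contained in `P` then every language in the
polynomial hierarchy relative to the existential theory of the reals is in `P`: oracle algorithms
are simulated, `NP` is contained in the class of the existential theory of the reals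
(satisfiability of propositional formulas, a propositional variable being the sign of a real one),
and the quantifiers are eliminated one after the other.
-/

namespace Pool.Agent.Y648.HO.TCOLL

open Pool.Agent.NPC Pool.Agent.NPC.ER Pool.Agent.H622R2
open Pool.Agent.H620R2.Gauge (Oracle Alg IsFP Quant IsPH)

/-! ### Satisfiability as an existential sentence -/

/-- A literal. -/
def litF (l : Lit ℕ) : Fm :=
  if l.1 = true then Fm.lt Tm.zero (Tm.var l.2) else Fm.not (Fm.lt Tm.zero (Tm.var l.2))

/-- A clause. -/
def claF (c : Lit ℕ × Lit ℕ × Lit ℕ) : Fm := Fm.or (Fm.or (litF c.1) (litF c.2.1)) (litF c.2.2)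

/-- A conjunction of clauses. -/
def cnfF (φ : List (Lit ℕ × Lit ℕ × Lit ℕ)) : Fm :=
  φ.foldl (fun a c => Fm.and a (claF c)) (Fm.eq Tm.zero Tm.zero)

/-- The symbols of a literal. -/
def litT (l : Lit ℕ) : List Tok :=
  if l.1 = true then [Tok.zero, Tok.var l.2, Tok.lt] else [Tok.zero, Tok.var l.2, Tok.lt, Tok.not]

theorem litF_toks (l : Lit ℕ) : (litF l).toks = litT l := by
  unfold litF litT
  split_ifs <;> rfl

/-- The symbols of a clause. -/
def claT (c : Lit ℕ × Lit ℕ × Lit ℕ) : List Tok :=
  (litT c.1 ++ litT c.2.1 ++ [Tok.or]) ++ litT c.2.2 ++ [Tok.or]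

theorem claF_toks (c : Lit ℕ × Lit ℕ × Lit ℕ) : (claF c).toks = claT c := by
  simp only [claF, Fm.toks, litF_toks, claT]

theorem foldl_toks (φ : List (Lit ℕ × Lit ℕ × Lit ℕ)) : ∀ a : Fm,
    (φ.foldl (fun a c => Fm.and a (claF c)) a).toks =
      a.toks ++ φ.flatMap (fun c => claT c ++ [Tok.and]) := by
  induction φ with
  | nil => intro a; simp
  | cons c φ ih =>
    intro a
    rw [List.foldl_cons, ih, Fm.toks, claF_toks, List.flatMap_cons]
    simp only [List.append_assoc]

theorem cnfF_toks (φ : List (Lit ℕ × Lit ℕ × Lit ℕ)) : (cnfF φ).toks =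
    [Tok.zero, Tok.zero, Tok.eq] ++ φ.flatMap (fun c => claT c ++ [Tok.and]) :=
  foldl_toks φ _

theorem poly_var {α : Type} [TEnc α] {i : α → ℕ} (hi : Poly i) : Poly (fun a => Tok.var (i a)) := by
  have h : Poly (fun a => ((0 : ℕ), i a)) := NPC.Poly.pair (NPC.Poly.const 0) hi
  exact h

theorem poly_litT {α : Type} [TEnc α] {l : α → Lit ℕ} (hl : Poly l) :
    Poly (fun a => litT (l a)) := by
  have h1 : Poly (fun a => [Tok.zero, Tok.var (l a).2, Tok.lt]) :=
    Poly.cons (NPC.Poly.const _) (Poly.cons (poly_var (Poly.snd hl)) (NPC.Poly.const [Tok.lt]))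
  have h2 : Poly (fun a => [Tok.zero, Tok.var (l a).2, Tok.lt, Tok.not]) :=
    Poly.cons (NPC.Poly.const _) (Poly.cons (poly_var (Poly.snd hl)) (NPC.Poly.const [Tok.lt, Tok.not]))
  have h3 : Poly (fun a => decide ((l a).1 = true)) :=
    Poly.decide_eq (Poly.fst hl) (NPC.Poly.const true)
  refine (Poly.ite h3 h1 h2).congr fun a => ?_
  by_cases h : (l a).1 = true <;> simp [litT, h]

theorem poly_cnfF {α : Type} [TEnc α] {f : α → List (Lit ℕ × Lit ℕ × Lit ℕ)} (hf : Poly f) :
    Poly (fun a => cnfF (f a)) := by
  apply poly_fm_of_toks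
  have h1 : Poly (fun c : Lit ℕ × Lit ℕ × Lit ℕ => claT c) :=
    Poly.append (Poly.append (Poly.append (Poly.append (poly_litT (Poly.fst Poly.id))
      (poly_litT (Poly.fst (Poly.snd Poly.id)))) (NPC.Poly.const _))
      (poly_litT (Poly.snd (Poly.snd Poly.id)))) (NPC.Poly.const _)
  have h2 : Poly (fun a => (f a).flatMap (fun c => claT c ++ [Tok.and])) :=
    Poly.flatMap (F := fun _ c => claT c ++ [Tok.and]) hf
      (Poly.append (h1.comp (Poly.snd Poly.id)) (NPC.Poly.const _))
  exact (Poly.append (NPC.Poly.const [Tok.zero, Tok.zero, Tok.eq]) h2).congr fun a =>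
    (cnfF_toks (f a)).symm

theorem litF_holds (x : ℕ → ℝ) (τ : ℕ → Bool) (h : ∀ v, τ v = true ↔ 0 < x v) (l : Lit ℕ) :
    (litF l).Holds x ↔ τ l.2 = l.1 := by
  obtain ⟨b, v⟩ := l
  cases b with
  | true => simpa [litF, Fm.Holds, Tm.eval] using (h v).symm
  | false =>
    have := h v
    simp only [litF, Fm.Holds, Tm.eval, Bool.false_eq_true, if_false]
    rw [← this]
    simp

theorem cnfF_holds (x : ℕ → ℝ) (τ : ℕ → Bool) (h : ∀ v, τ v = true ↔ 0 < x v)
    (φ : List (Lit ℕ × Lit ℕ × Lit ℕ)) : ∀ a : Fm,
    (φ.foldl (fun a c => Fm.and a (claF c)) a).Holds x ↔ a.Holds x ∧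
      ∀ c ∈ φ, τ c.1.2 = c.1.1 ∨ τ c.2.1.2 = c.2.1.1 ∨ τ c.2.2.2 = c.2.2.1 := by
  induction φ with
  | nil => intro a; simp
  | cons c φ ih =>
    intro a
    rw [List.foldl_cons, ih, List.forall_mem_cons]
    simp only [Fm.Holds, claF, litF_holds x τ h, or_assoc, and_assoc]

theorem etr_cnfF (φ : List (Lit ℕ × Lit ℕ × Lit ℕ)) : SAT3 φ ↔ ETR (cnfF φ) := by
  constructor
  · rintro ⟨τ, hτ⟩
    refine ⟨fun v => if τ v = true then 1 else -1, ?_⟩
    refine (cnfF_holds _ τ (fun v => ?_) φ _).2 ⟨rfl, hτ⟩
    by_cases h : τ v = true <;> simp [h]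
  · rintro ⟨x, hx⟩
    refine ⟨fun v => decide (0 < x v), ?_⟩
    exact ((cnfF_holds x (fun v => decide (0 < x v)) (fun v => by simp) φ _).1 hx).2

/-- `NP` is contained in the class of the existential theory of the reals. -/
theorem inER_of_inNP {L : Set (List Bool)} (hL : InNP L) : InER L := by
  obtain ⟨f, hf, hL⟩ := hardI_SAT3 L hL
  exact ⟨fun w => cnfF (f w), PC.toPolyTime_bits (f := fun φ => cnfF φ) (poly_cnfF Poly.id) f hf,
    fun w => (hL w).trans (etr_cnfF _)⟩

/-! ### Simulation of oracle algorithms -/

/-- one round of an algorithm -/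
def rnd (M : Alg) (A : Oracle) (x : List Bool) (s : List Bool × Option (List Bool)) :
    List Bool × Option (List Bool) :=
  match s.2 with
  | some _ => s
  | none =>
    match M.D (pairBits x s.1) with
    | [] => (s.1, some [])
    | b :: q => bif b then (s.1, some q) else (s.1 ++ [A q], none)

theorem rnd_some (M : Alg) (A : Oracle) (x a z : List Bool) (n : ℕ) :
    (rnd M A x)^[n] (a, some z) = (a, some z) := by
  induction n with
  | zero => rfl
  | succ n ih =>
    rw [Function.iterate_succ_apply]
    exact ih

theorem run_eq_rnd (M : Alg) (A : Oracle) (x : List Bool) : ∀ (n : ℕ) (a : List Bool),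
    M.run A x n a = ((rnd M A x)^[n] (a, none)).2
  | 0, _ => rfl
  | n + 1, a => by
    rw [Alg.run, Function.iterate_succ_apply]
    cases h : M.D (pairBits x a) with
    | nil =>
      have : rnd M A x (a, none) = (a, some []) := by simp [rnd, h]
      rw [this, rnd_some]
    | cons b q =>
      cases b with
      | true =>
        have : rnd M A x (a, none) = (a, some q) := by simp [rnd, h]
        rw [this, rnd_some]
      | false =>
        have : rnd M A x (a, none) = (a ++ [A q], none) := by simp [rnd, h]
        rw [this]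
        exact run_eq_rnd M A x n _

theorem foldl_replicate_unit {σ : Type} (f : σ → σ) (n : ℕ) (s : σ) :
    (List.replicate n ()).foldl (fun s _ => f s) s = f^[n] s := by
  induction n generalizing s with
  | zero => rfl
  | succ n ih => rw [List.replicate_succ, List.foldl_cons, ih, Function.iterate_succ_apply]

/-- The output with an oracle decided in polynomial time is computed in polynomial time. -/
theorem p_out (M : Alg) {A : Oracle} (hA : Poly A) {α : Type} [TEnc α] {x : α → List Bool}
    (hx : Poly x) : Poly (fun a => M.out A (x a)) := by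
  have hD := H622R2.poly_of_polyTime M.poly
  obtain ⟨q, hq⟩ := hD.sz_le
  obtain ⟨r, hr⟩ := hx.sz_le
  have hstep : Poly (fun p : α × (List Bool × Option (List Bool)) × Unit =>
      rnd M A (x p.1) p.2.1) := by
    have h0 : Poly (fun p : α × (List Bool × Option (List Bool)) × Unit => p.1) :=
      Poly.fst Poly.id
    have h1 : Poly (fun p : α × (List Bool × Option (List Bool)) × Unit => p.2.1) :=
      Poly.fst (Poly.snd Poly.id)
    have h2 : Poly (fun p : α × (List Bool × Option (List Bool)) × Unit => p.2.1.1) :=
      Poly.fst h1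
    have h3 : Poly (fun p : α × (List Bool × Option (List Bool)) × Unit =>
        M.D (pairBits (x p.1) p.2.1.1)) :=
      hD.comp (H622R2.poly_pairBits (hx.comp h0) h2)
    have h4 : Poly (fun p : (α × (List Bool × Option (List Bool)) × Unit) × Bool × List Bool =>
        bif p.2.1 then (p.1.2.1.1, some p.2.2) else (p.1.2.1.1 ++ [A p.2.2], none)) := by
      refine Poly.cond (Poly.fst (Poly.snd Poly.id)) ?_ ?_
      · exact Poly.pair (h2.comp (Poly.fst Poly.id)) (Poly.some (Poly.snd (Poly.snd Poly.id)))
      · refine Poly.pair (Poly.append (h2.comp (Poly.fst Poly.id)) (Poly.cons ?_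
          (NPC.Poly.const []))) (NPC.Poly.const none)
        have h6 : Poly (fun p : (α × (List Bool × Option (List Bool)) × Unit) × Bool ×
            List Bool => p.2.2) := Poly.snd (Poly.snd Poly.id)
        exact hA.comp h6
    have h5 := Poly.listCases (β := Bool) (g := fun p : α × (List Bool × Option (List Bool)) × Unit =>
          ((p.2.1.1, some []) : List Bool × Option (List Bool)))
        (h := fun (p : α × (List Bool × Option (List Bool)) × Unit) (b : Bool) (q : List Bool) =>
          bif b then ((p.2.1.1, some q) : List Bool × Option (List Bool)) else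
          (p.2.1.1 ++ [A q], none)) h3
        (Poly.pair h2 (NPC.Poly.const (some []))) h4
    refine (Poly.optCases (o := fun p : α × (List Bool × Option (List Bool)) × Unit => p.2.1.2)
      (h := fun p _ => p.2.1) (Poly.snd h1) h5
      (h1.comp (Poly.fst Poly.id))).congr ?_
    rintro ⟨a, ⟨s, o⟩, u⟩
    cases o with
    | none =>
      simp only [rnd]
      cases M.D (pairBits (x a) s) <;> rfl
    | some z => rfl
  have hn : UPoly (fun a => M.p.eval (x a).length) := UPoly.eval (UPoly.length hx) _
  have hfold : Poly (fun a => (List.replicate (M.p.eval (x a).length) ()).foldl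
      (fun s _ => rnd M A (x a) s) (([], none) : List Bool × Option (List Bool))) := by
    refine Poly.foldl (F := fun a s _ => rnd M A (x a) s) hn (NPC.Poly.const _) hstep
      (Polynomial.C 8 * M.p.comp r + q.comp (Polynomial.C 8 * r + Polynomial.C 8 * M.p.comp r +
        Polynomial.C 8) + Polynomial.C 8) ?_
    intro a k hk
    rw [List.length_replicate] at hk
    rw [List.take_replicate, Nat.min_eq_left hk, foldl_replicate_unit]
    have hxl : (x a).length ≤ r.eval (sz a) := (length_lt_sz (x a)).le.trans (hr a)
    have hpe : M.p.eval (x a).length ≤ M.p.eval (r.eval (sz a)) := eval_mono _ hxl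
    have key : ∀ k, ((rnd M A (x a))^[k] ([], none)).1.length ≤ k ∧
        ∀ z, ((rnd M A (x a))^[k] ([], none)).2 = some z →
          sz z ≤ q.eval (8 * (x a).length + 8 * k + 8) := by
      intro k
      induction k with
      | zero => exact ⟨le_rfl, fun z hz => by simp at hz⟩
      | succ k ih =>
        rw [Function.iterate_succ_apply']
        revert ih
        generalize (rnd M A (x a))^[k] ([], none) = st
        obtain ⟨s, o⟩ := st
        rintro ⟨ih1, ih2⟩
        dsimp only at ih1 ih2
        cases o with
        | some z =>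
          refine ⟨ih1.trans (Nat.le_succ k), fun z' hz' => ?_⟩
          exact (ih2 z' hz').trans (eval_mono _ (by omega))
        | none =>
          have e1 : sz (M.D (pairBits (x a) s)) ≤ q.eval (8 * (x a).length + 8 * (k + 1) + 8) := by
            refine (hq _).trans (eval_mono _ ?_)
            refine (sz_listBool_le _).trans ?_
            have : (pairBits (x a) s).length = 2 * (x a).length + 1 + s.length := by
              simp [pairBits, List.length_flatMap]
              omega
            omega
          cases h : M.D (pairBits (x a) s) with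
          | nil =>
            rw [h] at e1
            have : rnd M A (x a) (s, none) = (s, some []) := by simp [rnd, h]
            rw [this]
            refine ⟨ih1.trans (Nat.le_succ k), fun z hz => ?_⟩
            simp only [Option.some.injEq] at hz
            rw [← hz]; exact e1
          | cons b w =>
            rw [h] at e1
            have e2 : sz w ≤ sz (b :: w) := by simp; omega
            cases b with
            | true =>
              have : rnd M A (x a) (s, none) = (s, some w) := by simp [rnd, h]
              rw [this]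
              refine ⟨ih1.trans (Nat.le_succ k), fun z hz => ?_⟩
              simp only [Option.some.injEq] at hz
              rw [← hz]; exact e2.trans e1
            | false =>
              have : rnd M A (x a) (s, none) = (s ++ [A w], none) := by
                simp [rnd, h]
              rw [this]
              refine ⟨by simpa using ih1, fun z hz => by simp at hz⟩
    obtain ⟨k1, k2⟩ := key k
    rcases hst : (rnd M A (x a))^[k] ([], none) with ⟨s, o⟩
    rw [hst] at k1 k2
    simp only at k1 k2
    have e1 : sz s ≤ 4 * k + 1 := (sz_listBool_le s).trans (by omega)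
    have e2 : sz o ≤ q.eval (8 * (x a).length + 8 * k + 8) + 2 := by
      cases o with
      | none => simp
      | some z => rw [sz_some]; have := k2 z rfl; omega
    have e3 : q.eval (8 * (x a).length + 8 * k + 8) ≤
        q.eval (8 * r.eval (sz a) + 8 * M.p.eval (r.eval (sz a)) + 8) :=
      eval_mono _ (by omega)
    simp only [sz_pair, Polynomial.eval_add, Polynomial.eval_mul, Polynomial.eval_C,
      Polynomial.eval_comp]
    omega
  refine (Poly.snd hfold).congr fun a => ?_
  rw [foldl_replicate_unit, Alg.out, run_eq_rnd]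

/-- Functions computable relative to an oracle decided in polynomial time. -/
theorem poly_of_isFP {A : Oracle} (hA : Poly A) {V : List Bool → List Bool} (hV : IsFP A V) :
    Poly V := by
  obtain ⟨M, hM⟩ := hV
  have h1 : Poly (fun x : List Bool => M.out A x) := p_out M hA Poly.id
  refine (Poly.optCases (g := fun _ => ([] : List Bool)) (h := fun _ z => z) h1
    (NPC.Poly.const []) (Poly.snd Poly.id)).congr fun x => ?_
  rw [hM x]

/-! ### Elimination of the quantifiers -/

theorem pp_of_inP {L : Set (List Bool)} (h : InP L) : PP (fun x : List Bool => x ∈ L) := by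
  obtain ⟨V, hV, h⟩ := h
  exact (PP.eq (poly_of_polyTime hV) (NPC.Poly.const [true])).congr fun x => (h x).symm

theorem inP_of_pp {L : Set (List Bool)} (h : PP (fun x : List Bool => x ∈ L)) : InP L := by
  obtain ⟨b, hb, hb'⟩ := h
  exact ⟨fun x => [b x], polyTime_of_poly hb, fun x => by simp [← hb' x]⟩

/-- A predicate on pairs of strings. -/
theorem pp_ex (hnp : ∀ L : Set (List Bool), InNP L → InP L) (p : Polynomial ℕ)
    {R : List Bool → List Bool → Prop} (hR : PP (fun y : List Bool => R (unpair y).1 (unpair y).2))
    : PP (fun z : List Bool => ∃ w : List Bool, w.length ≤ p.eval z.length ∧ R z w) := by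
  refine pp_of_inP (L := {z | ∃ w : List Bool, w.length ≤ p.eval z.length ∧ R z w})
    (hnp _ ?_)
  obtain ⟨b, hb, hb'⟩ := hR
  refine ⟨fun y => [b y], p, polyTime_of_poly hb, fun x => ?_⟩
  refine exists_congr fun w => and_congr_right fun _ => ?_
  have := hb' (pairBits x w)
  simp only [unpair_pairBits] at this
  simp [← this]

theorem pp_quant_step (hnp : ∀ L : Set (List Bool), InNP L → InP L) (p : Polynomial ℕ)
    {R : ℕ → List Bool → Prop}
    (hR : PP (fun z : List Bool => R (p.eval (unpair z).1.length) (unpair z).2)) :
    PP (fun z : List Bool => ∃ w : List Bool, w.length ≤ p.eval (unpair z).1.length ∧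
      R (p.eval (unpair z).1.length) (pairBits w (unpair z).2)) := by
  have c1 : Poly (fun y : List Bool => (unpair (unpair y).1).1) :=
    Poly.fst (poly_unpair.comp (Poly.fst poly_unpair))
  have c2 : Poly (fun y : List Bool => (unpair (unpair y).1).2) :=
    Poly.snd (poly_unpair.comp (Poly.fst poly_unpair))
  have c3 : Poly (fun y : List Bool => (unpair y).2) := Poly.snd poly_unpair
  have t1 : PP (fun y : List Bool => (unpair y).2.length ≤
      p.eval (unpair (unpair y).1).1.length) :=
    PP.le (Poly.length c3) (UPoly.toPoly (UPoly.eval (UPoly.length c1) p))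
  have t2 : PP (fun y : List Bool => R (p.eval (unpair (unpair y).1).1.length)
      (pairBits (unpair y).2 (unpair (unpair y).1).2)) := by
    refine (PP.comp hR (f := fun y : List Bool => pairBits (unpair (unpair y).1).1
      (pairBits (unpair y).2 (unpair (unpair y).1).2)) ?_).congr fun y => ?_
    · exact poly_pairBits c1 (poly_pairBits c3 c2)
    · simp only [unpair_pairBits]
  obtain ⟨q, hq⟩ := (Poly.fst poly_unpair).sz_le
  have hle : ∀ z : List Bool, (unpair z).1.length ≤
      (q.comp (Polynomial.C 4 * Polynomial.X + Polynomial.C 1)).eval z.length := by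
    intro z
    rw [Polynomial.eval_comp]
    have h3 := length_lt_sz (unpair z).1
    refine h3.le.trans ((hq z).trans (eval_mono _ ?_))
    have h4 := sz_listBool_le z
    simpa using h4
  refine (pp_ex hnp (p.comp (q.comp (Polynomial.C 4 * Polynomial.X + Polynomial.C 1)))
    (R := fun z w => w.length ≤ p.eval (unpair z).1.length ∧
      R (p.eval (unpair z).1.length) (pairBits w (unpair z).2)) (PP.and t1 t2)).congr fun z => ?_
  refine exists_congr fun w => ⟨fun h => h.2, fun h => ⟨h.1.trans ?_, h⟩⟩
  rw [Polynomial.eval_comp]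
  exact eval_mono _ (hle z)

theorem pp_quant (hnp : ∀ L : Set (List Bool), InNP L → InP L) (p : Polynomial ℕ)
    {V : List Bool → List Bool} (hV : Poly V) : ∀ (k : ℕ) (b : Bool),
    PP (fun z : List Bool => Quant (p.eval (unpair z).1.length) V k b (unpair z).2)
  | 0, b => (PP.eq (hV.comp (Poly.snd poly_unpair)) (NPC.Poly.const [true])).congr fun z => by
      simp only [Quant]
  | k + 1, true => (pp_quant_step hnp p (R := fun m y => Quant m V k false y)
      (pp_quant hnp p hV k false)).congr fun z => by simp only [Quant]
  | k + 1, false => (PP.not (pp_quant_step hnp p (R := fun m y => ¬ Quant m V k true y)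
      (PP.not (pp_quant hnp p hV k true)))).congr fun z => by
      simp only [Quant]
      push Not
      rfl

/-- Collapse. -/
theorem inP_of_isPH (hnp : ∀ L : Set (List Bool), InNP L → InP L) {A : Oracle} (hA : Poly A)
    {L : Set (List Bool)} (hL : IsPH A L) : InP L := by
  obtain ⟨V, p, k, hV, hL⟩ := hL
  refine inP_of_pp ((PP.comp (pp_quant hnp p (poly_of_isFP hA hV) k true)
    (f := fun x : List Bool => pairBits x x) (poly_pairBits Poly.id Poly.id)).congr fun x => ?_)
  rw [unpair_pairBits]
  exact (hL x).symm

end Pool.Agent.Y648.HO.TCOLL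

namespace Pool.Agent.Y648.HO

open Pool.Agent.NPC Pool.Agent.NPC.ER

theorem t_COLL : S_COLL := by
  intro h L hL
  refine TCOLL.inP_of_isPH (fun K hK => h K (TCOLL.inER_of_inNP hK)) (A := etr) ?_ hL
  obtain ⟨b, hb, hb'⟩ := TCOLL.pp_of_inP (h _ erComplete_ETR.1)
  refine hb.congr fun w => ?_
  classical
  by_cases hw : w ∈ lang ETR
  · rw [(hb' w).2 hw]
    simp [etr, hw]
  · rw [Bool.eq_false_iff.2 fun h => hw ((hb' w).1 h)]
    simp [etr, hw]

end Pool.Agent.Y648.HO
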