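import Pool.Agent.Y648.HO.StmA
import Pool.Agent.H620R2.Gauge.A2

set_option autoImplicit false

/-!
# Realizability is in the hierarchy over the existential theory of the reals
-/

namespace Pool.Agent.Y648.HO

open Pool.Agent.NPC Pool.Agent.NPC.ER Pool.Agent.NPC.H612 Pool.Agent.H558R2 Pool.Agent.H622R3.SM
open Pool.Agent.W911.IB
open Pool.Agent.H620R2.Gauge (Oracle IsPH IsFP)

namespace TERM

/-! ### The formulas -/

/-- The label `b` for the question `e` about the sign of the term `t`. -/
def labFm (t : Tm) (e b : Bool) : Fm :=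
  if e = true then (if b = true then Fm.lt Tm.zero t else Fm.le t Tm.zero)
  else (if b = true then Fm.lt t Tm.zero else Fm.le Tm.zero t)

/-- The formula of the labelled string `p`, which has the number `q`. -/
def itemFm (m n q : ℕ) (p : List Bool × Bool) : Fm :=
  if p.1 = [] then (if p.2 = true then Fm.lt Tm.zero Tm.zero else Fm.le Tm.zero Tm.zero)
  else Fm.and (conj ((minorProg m n (p.1.tail.map some) 0).map (instrFm 0 q)))
    (labFm (regT 0 q [11]) (p.1.headD false) p.2)

/-- The formula of a list of labelled strings. -/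
def allFm (m n : ℕ) (h : LS) : Fm :=
  conj ((List.range h.length).map fun q => itemFm m n q (h.getD q ([], false)))

theorem lab_iff (x : ℕ → ℝ) (t : Tm) (e b : Bool) :
    (labFm t e b).Holds x ↔ decide (signOut (t.eval x) = some e) = b := by
  have h1 : signOut (t.eval x) = some true ↔ 0 < t.eval x := by
    unfold signOut
    split_ifs with h1 h2
    · exact ⟨fun _ => h1, fun _ => rfl⟩
    · exact ⟨fun h => by simp at h, fun h => absurd h h1⟩
    · exact ⟨fun h => by simp at h, fun h => absurd h h1⟩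
  have h2 : signOut (t.eval x) = some false ↔ t.eval x < 0 := by
    unfold signOut
    split_ifs with h1 h2
    · exact ⟨fun h => by simp at h, fun h => absurd h (not_lt.2 h1.le)⟩
    · exact ⟨fun _ => h2, fun _ => rfl⟩
    · exact ⟨fun h => by simp at h, fun h => absurd h h2⟩
  cases e <;> cases b
  · rw [decide_eq_false_iff_not, h2, not_lt]
    exact Iff.rfl
  · rw [decide_eq_true_iff, h2]
    exact Iff.rfl
  · rw [decide_eq_false_iff_not, h1, not_lt]
    exact Iff.rfl
  · rw [decide_eq_true_iff, h1]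
    exact Iff.rfl

theorem item_sound {m n : ℕ} (hm : 1 ≤ m) (q : ℕ) (p : List Bool × Bool) (x : ℕ → ℝ)
    (hx : (itemFm m n q p).Holds x) : bin m n (inst m n 0 x) p.1 = p.2 := by
  obtain ⟨s, b⟩ := p
  cases s with
  | nil =>
    unfold itemFm at hx
    rw [if_pos rfl] at hx
    cases b with
    | true =>
      rw [if_pos rfl] at hx
      exact absurd hx (lt_irrefl (0 : ℝ))
    | false => rfl
  | cons e u =>
    unfold itemFm at hx
    rw [if_neg (by simp)] at hx
    obtain ⟨h1, h2⟩ := hx
    rw [holds_conj] at h1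
    have h4 := t_UNI m n (u.map some) 0 (inst m n 0 x) (fun r => (regT 0 q r).eval x) hm
      (by intro i j hi hj; simp [regT, inst, Tm.eval]) (by intro i hi; simp [regT, inst, Tm.eval])
      (by simp [regT, Tm.eval]) (by simp [regT, Tm.eval])
      (fun I hI => TMF.instr_sound 0 q x I (h1 _ (List.mem_map.2 ⟨I, hI, rfl⟩)))
    have h3 := (lab_iff x _ _ _).1 h2
    beta_reduce at h4
    rw [h4] at h3
    exact h3

theorem sound {m n : ℕ} (hm : 1 ≤ m) (h : LS) (x : ℕ → ℝ) (hx : (allFm m n h).Holds x) :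
    ∀ p ∈ h, bin m n (inst m n 0 x) p.1 = p.2 := by
  intro p hp
  obtain ⟨q, hq, rfl⟩ := List.mem_iff_getElem.1 hp
  rw [allFm, holds_conj] at hx
  have h1 := hx _ (List.mem_map.2 ⟨q, List.mem_range.2 hq, rfl⟩)
  rw [List.getD_eq_getElem _ _ hq] at h1
  exact item_sound hm q _ x h1

/-- The values of the names. -/
noncomputable def value (m n : ℕ) (h : LS) (a : Inp m n) (u v : ℕ → ℝ) : List ℕ → ℝ
  | 0 :: _ :: r => start a.1 a.2 r
  | 1 :: _ :: q :: r => vreg m n ((h.getD q ([], false)).1.tail.map some) 0 a r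
  | [2, _, j] => u j
  | [3, _, i] => v i
  | _ => 0

theorem regT_eval {m n : ℕ} {h : LS} {a : Inp m n} {u v : ℕ → ℝ} {x : ℕ → ℝ}
    (hx : ∀ r, x (vx r) = value m n h a u v r) (q : ℕ)
    (hbase : ∀ r ∈ baseReg, vreg m n ((h.getD q ([], false)).1.tail.map some) 0 a r =
      start a.1 a.2 r) (r : Reg) :
    (regT 0 q r).eval x = vreg m n ((h.getD q ([], false)).1.tail.map some) 0 a r := by
  unfold regT
  split_ifs with h1 h2 h3
  · have h4 : r ∈ baseReg := by
      rw [h1]
      show (2 : ℕ) < 4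
      norm_num
    rw [hbase r h4, h1]
    rfl
  · have h4 : r ∈ baseReg := by
      rw [h2]
      show (3 : ℕ) < 4
      norm_num
    rw [hbase r h4, h2]
    rfl
  · have h4 : r ∈ baseReg := by
      show r.headD 0 < 4
      omega
    rw [hbase r h4]
    exact hx _
  · exact hx _

theorem complete {m n : ℕ} (hm : 1 ≤ m) (h : LS) (a : Inp m n)
    (ha : ∀ p ∈ h, bin m n a p.1 = p.2) (u v : ℕ → ℝ) :
    ∃ x : ℕ → ℝ, inst m n 0 x = a ∧ (allFm m n h).Holds x ∧
      (∀ j, x (vx (2 :: 0 :: [j])) = u j) ∧ ∀ i, x (vx (3 :: 0 :: [i])) = v i := by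
  have hx : ∀ r, (Function.extend vx (value m n h a u v) 0) (vx r) = value m n h a u v r :=
    fun r => Function.Injective.extend_apply t_VX _ _ r
  refine ⟨Function.extend vx (value m n h a u v) 0, ?_, ?_, ?_, ?_⟩
  · unfold inst
    apply Prod.ext
    · funext i j
      show (Function.extend vx (value m n h a u v) 0) (vx (0 :: 0 :: [0, (i : ℕ), (j : ℕ)])) =
        a.1 i j
      rw [hx]
      show start a.1 a.2 [0, (i : ℕ), (j : ℕ)] = a.1 i j
      show (if h : (i : ℕ) < m ∧ (j : ℕ) < n then a.1 ⟨i, h.1⟩ ⟨j, h.2⟩ else 0) = a.1 i j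
      rw [dif_pos (show (i : ℕ) < m ∧ (j : ℕ) < n from ⟨i.2, j.2⟩)]
    · funext i
      show (Function.extend vx (value m n h a u v) 0) (vx (0 :: 0 :: [1, (i : ℕ)])) = a.2 i
      rw [hx]
      show start a.1 a.2 [1, (i : ℕ)] = a.2 i
      show (if h : (i : ℕ) < m then a.2 ⟨i, h⟩ else 0) = a.2 i
      rw [dif_pos i.2]
  · rw [allFm, holds_conj]
    intro φ hφ
    rw [List.mem_map] at hφ
    obtain ⟨q, hq, rfl⟩ := hφ
    rw [List.mem_range] at hq
    obtain ⟨hbase, hprog⟩ := t_EQ m n ((h.getD q ([], false)).1.tail.map some) 0 a hm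
    have hreg := regT_eval hx q hbase
    have hlab : bin m n a (h.getD q ([], false)).1 = (h.getD q ([], false)).2 := by
      rw [List.getD_eq_getElem _ _ hq]
      exact ha _ (List.getElem_mem hq)
    generalize h.getD q ([], false) = p at hprog hreg hlab ⊢
    obtain ⟨s, b⟩ := p
    cases s with
    | nil =>
      unfold itemFm
      rw [if_pos rfl]
      cases b with
      | true => exact absurd hlab (by simp [bin])
      | false =>
        rw [if_neg (by simp)]
        exact le_refl (0 : ℝ)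
    | cons e w =>
      unfold itemFm
      rw [if_neg (by simp)]
      refine ⟨?_, ?_⟩
      · rw [holds_conj]
        intro ψ hψ
        rw [List.mem_map] at hψ
        obtain ⟨I, hI, rfl⟩ := hψ
        obtain ⟨e1, e2⟩ := hprog I hI
        exact TVAL.instr_holds _ 0 q _ hreg I e1 e2
      · rw [lab_iff, hreg]
        exact hlab
  · intro j
    rw [hx]
    rfl
  · intro i
    rw [hx]
    rfl

theorem etr_RLP {m n : ℕ} (hm : 1 ≤ m) (h : LS) : ETR (allFm m n h) ↔ RLP m n h := by
  constructor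
  · rintro ⟨x, hx⟩
    exact ⟨_, sound hm h x hx⟩
  · rintro ⟨a, ha⟩
    obtain ⟨x, -, hx, -, -⟩ := complete hm h a ha (fun _ => 0) (fun _ => 0)
    exact ⟨x, hx⟩

theorem etr_RF {m n : ℕ} (hm : 1 ≤ m) (h : LS) :
    ETR (Fm.and (allFm m n h) (feasFm m n 0)) ↔ RF m n h := by
  constructor
  · rintro ⟨x, h1, h2⟩
    exact ⟨_, sound hm h x h1, fun j => x (vx (2 :: 0 :: [(j : ℕ)])), (t_FI m n 0 x).1.1 h2⟩
  · rintro ⟨a, ha, s, hs⟩
    obtain ⟨x, hi, hx, hu, -⟩ := complete hm h a ha
      (fun j => if hj : j < n then s ⟨j, hj⟩ else 0) (fun _ => 0)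
    exact ⟨x, hx, TBOTH.feas_to t_FI 0 hi s hs (fun j => by rw [hu]; simp)⟩

theorem etr_RI {m n : ℕ} (hm : 1 ≤ m) (h : LS) :
    ETR (Fm.and (allFm m n h) (infFm m n 0)) ↔ RI m n h := by
  constructor
  · rintro ⟨x, h1, h2⟩
    exact ⟨_, sound hm h x h1, (t_FARKAS m n _).2
      ⟨fun i => x (vx (3 :: 0 :: [(i : ℕ)])), (t_FI m n 0 x).2.1 h2⟩⟩
  · rintro ⟨a, ha, hn⟩
    obtain ⟨y, hy⟩ := (t_FARKAS m n a).1 hn
    obtain ⟨x, hi, hx, -, hv⟩ := complete hm h a ha (fun _ => 0)
      (fun i => if hi : i < m then y ⟨i, hi⟩ else 0)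
    exact ⟨x, hx, TBOTH.inf_to t_FI 0 hi y hy (fun i => by rw [hv]; simp)⟩

/-! ### The formulas are computed in polynomial time -/

section

variable {α : Type} [TEnc α]

theorem poly_labFm {t : α → Tm} {e b : α → Bool} (ht : Poly t) (he : Poly e) (hb : Poly b) :
    Poly (fun a => labFm (t a) (e a) (b a)) := by
  unfold labFm
  refine NPC.Poly.ite (NPC.Poly.decide_eq he (NPC.Poly.const true))
    (NPC.Poly.ite (NPC.Poly.decide_eq hb (NPC.Poly.const true))
      (poly_flt (NPC.Poly.const Tm.zero) ht) (poly_fle ht (NPC.Poly.const Tm.zero)))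
    (NPC.Poly.ite (NPC.Poly.decide_eq hb (NPC.Poly.const true))
      (poly_flt ht (NPC.Poly.const Tm.zero)) (poly_fle (NPC.Poly.const Tm.zero) ht))

theorem poly_itemFm {U V : α → List Unit} {q : α → ℕ} {p : α → List Bool × Bool} (hU : Poly U)
    (hV : Poly V) (hq : Poly q) (hp : Poly p) :
    Poly (fun a => itemFm (U a).length (V a).length (q a) (p a)) := by
  unfold itemFm
  have h1 : Poly (fun a => (p a).1) := NPC.Poly.fst hp
  have h2 : Poly (fun a => (p a).2) := NPC.Poly.snd hp
  have h3 : Poly (fun a => ((p a).1.tail).map (fun b : Bool => (some b : Outcome))) :=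
    NPC.Poly.map (F := fun _ b => (some b : Outcome)) (NPC.Poly.tail h1)
      (NPC.Poly.some (NPC.Poly.snd NPC.Poly.id))
  have h4 : Poly (fun a => (minorProg (U a).length (V a).length ((p a).1.tail.map some) 0).map
      (instrFm 0 (q a))) :=
    NPC.Poly.map (F := fun a I => instrFm 0 (q a) I)
      (TPM.pMinorProg hU hV h3 (NPC.Poly.const 0))
      (TPF.poly_instrFm (NPC.Poly.const 0) (NPC.Poly.comp (g := q) hq (NPC.Poly.fst NPC.Poly.id))
        (NPC.Poly.snd NPC.Poly.id))
  have h5 : Poly (fun a => (p a).1.headD false) :=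
    (NPC.Poly.optGetD (NPC.Poly.head? h1) (NPC.Poly.const false)).congr fun a => by
      cases (p a).1 <;> rfl
  refine NPC.Poly.ite (NPC.Poly.decide_eq h1 (NPC.Poly.const _)) ?_ ?_
  · exact NPC.Poly.ite (NPC.Poly.decide_eq h2 (NPC.Poly.const true)) (NPC.Poly.const _)
      (NPC.Poly.const _)
  · exact poly_fand (poly_conj h4) (poly_labFm (TPF.poly_regT (NPC.Poly.const 0) hq
      (NPC.Poly.const _)) h5 h2)

end

/-- The inputs. -/
abbrev In : Type := (List Unit × List Unit) × LS

theorem poly_allFm : Poly (fun p : In => allFm p.1.1.length p.1.2.length p.2) := by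
  unfold allFm
  refine poly_conj (NPC.Poly.map (F := fun (p : In) q =>
    itemFm p.1.1.length p.1.2.length q (p.2.getD q ([], false)))
    (NPC.Poly.range_length (NPC.Poly.snd NPC.Poly.id)) ?_)
  exact poly_itemFm (U := fun z : In × ℕ => z.1.1.1) (V := fun z => z.1.1.2) (q := fun z => z.2)
    (p := fun z => z.1.2.getD z.2 ([], false))
    (NPC.Poly.fst (NPC.Poly.fst (NPC.Poly.fst NPC.Poly.id)))
    (NPC.Poly.snd (NPC.Poly.fst (NPC.Poly.fst NPC.Poly.id))) (NPC.Poly.snd NPC.Poly.id)
    (NPC.Poly.getD (NPC.Poly.snd (NPC.Poly.fst NPC.Poly.id)) (NPC.Poly.snd NPC.Poly.id)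
      (NPC.Poly.const _))

theorem poly_toHist : Poly (fun p : In => (p.1, ([] : List Outcome))) :=
  NPC.Poly.pair (NPC.Poly.fst NPC.Poly.id) (NPC.Poly.const [])

theorem poly_feas : Poly (fun p : In => feasFm p.1.1.length p.1.2.length 0) := by
  have h : Poly (fun p : In => (fun p : HistIn => feasFm p.1.1.length p.1.2.length 0)
      (p.1, ([] : List Outcome))) :=
    NPC.Poly.comp (g := fun p : HistIn => feasFm p.1.1.length p.1.2.length 0)
      (f := fun p : In => (p.1, ([] : List Outcome))) (TPF.poly_feasFm 0) poly_toHist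
  exact h

theorem poly_inf : Poly (fun p : In => infFm p.1.1.length p.1.2.length 0) := by
  have h : Poly (fun p : In => (fun p : HistIn => infFm p.1.1.length p.1.2.length 0)
      (p.1, ([] : List Outcome))) := NPC.Poly.comp (TPF.poly_infFm 0) poly_toHist
  exact h

/-! ### The oracle -/

theorem isFP_ask (A : Oracle) : IsFP A (fun y => [A y]) := by
  have hQ : Poly (fun y : List Bool => [y]) := NPC.Poly.cons NPC.Poly.id (NPC.Poly.const [])
  have hH : Poly (fun z : List Bool × List Bool => z.2) := NPC.Poly.snd NPC.Poly.id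
  exact Pool.Agent.H620R2.Gauge.IsFP.tt hQ hH

theorem tph_etr : TPH etr ETR := by
  refine ⟨fun w => etr w = true, (PHp.of_fp (isFP_ask etr)).congr fun w => by simp, fun a => ?_⟩
  classical
  exact decide_eq_true_iff.trans bits_mem_lang

theorem tph_pos : TPH etr (fun p : In => 1 ≤ p.1.1.length) :=
  TPH.of_dec (NPC.Poly.decide_le (NPC.Poly.const 1)
    (NPC.Poly.length (NPC.Poly.fst (NPC.Poly.fst NPC.Poly.id))))

end TERM

open TERM in
theorem t_ERM : S_ERM := by
  refine ⟨?_, ?_, ?_⟩
  · exact (tph_pos.and (tph_etr.comp poly_allFm)).congr fun p =>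
      and_congr_right fun hm => etr_RLP hm p.2
  · exact (tph_pos.and (tph_etr.comp (poly_fand poly_allFm poly_feas))).congr fun p =>
      and_congr_right fun hm => etr_RF hm p.2
  · exact (tph_pos.and (tph_etr.comp (poly_fand poly_allFm poly_inf))).congr fun p =>
      and_congr_right fun hm => etr_RI hm p.2

end Pool.Agent.Y648.HO
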