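import Pool.Agent.Y648.HO.Lrn

set_option autoImplicit false

/-!
# Isolation by linear hash functions
-/

namespace Pool.Agent.Y648.HO

namespace TF

/-- The strings of length `L`. -/
abbrev V (L : ℕ) := {x : List Bool // x.length = L}

noncomputable instance instFintypeV (L : ℕ) : Fintype (V L) :=
  inferInstanceAs (Fintype (List.Vector Bool L))

theorem card_V (L : ℕ) : Fintype.card (V L) = 2 ^ L := by
  have h : Fintype.card (List.Vector Bool L) = 2 ^ L := by
    rw [card_vector, Fintype.card_bool]
  exact h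

theorem ip_nil (x : List Bool) : ip [] x = false := rfl

theorem ip_cons_nil (r : List Bool) : ip r [] = false := by
  unfold ip
  rw [List.zipWith_nil_right]
  rfl

theorem ip_cons (c a : Bool) (r x : List Bool) : ip (c :: r) (a :: x) = xor (c && a) (ip r x) := rfl

theorem ip_flip : ∀ (r x : List Bool) (i : ℕ), i < r.length →
    ip (r.modify i not) x = xor (ip r x) (x.getD i false) := by
  intro r
  induction r with
  | nil => intro x i hi; exact absurd hi (Nat.not_lt_zero _)
  | cons c r ih =>
    intro x i hi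
    rcases x with _ | ⟨a, x⟩
    · rw [ip_cons_nil, ip_cons_nil]
      simp
    · rcases i with _ | i
      · have h : (c :: r).modify 0 not = (!c) :: r := by simp
        rw [h, ip_cons, ip_cons]
        simp only [List.getD_cons_zero]
        cases c <;> cases a <;> cases ip r x <;> rfl
      · have h : (c :: r).modify (i + 1) not = c :: r.modify i not := by simp
        rw [h, ip_cons, ip_cons, ih x i (Nat.lt_of_succ_lt_succ hi)]
        simp only [List.getD_cons_succ]
        cases c && a <;> cases ip r x <;> cases x.getD i false <;> rfl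

theorem exists_ne (L : ℕ) (x y : List Bool) (hx : x.length = L) (hy : y.length = L) (h : x ≠ y) :
    ∃ i < L, x.getD i false ≠ y.getD i false := by
  by_contra hc
  push Not at hc
  apply h
  refine List.ext_getElem (hx.trans hy.symm) ?_
  intro i hi hi'
  have := hc i (hx ▸ hi)
  rw [List.getD_eq_getElem _ _ hi, List.getD_eq_getElem _ _ hi'] at this
  exact this

/-- Flip of one entry. -/
def fl (L i : ℕ) (r : V L) : V L :=
  ⟨r.1.modify i not, by rw [List.length_modify]; exact r.2⟩

theorem fl_fl (L i : ℕ) (r : V L) : fl L i (fl L i r) = r := by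
  apply Subtype.ext
  show (r.1.modify i not).modify i not = r.1
  rw [List.modify_modify_eq]
  have : (not ∘ not) = id := by funext b; cases b <;> rfl
  rw [this]
  exact List.modify_id _ _

/-- The rows with equal products. -/
noncomputable def Eq2 (L : ℕ) (x y : List Bool) : Finset (V L) :=
  Finset.univ.filter fun r => ip r.1 y = ip r.1 x

theorem card_Eq2 (L : ℕ) (x y : List Bool) (hx : x.length = L) (hy : y.length = L) (h : x ≠ y) :
    2 * (Eq2 L x y).card = 2 ^ L := by
  obtain ⟨i, hi, hne⟩ := exists_ne L x y hx hy h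
  have hflip : ∀ r : V L, (ip (fl L i r).1 y = ip (fl L i r).1 x) ↔
      ¬ (ip r.1 y = ip r.1 x) := by
    intro r
    have hr : i < r.1.length := by rw [r.2]; exact hi
    show (ip (r.1.modify i not) y = ip (r.1.modify i not) x) ↔ ¬ (ip r.1 y = ip r.1 x)
    rw [ip_flip _ _ _ hr, ip_flip _ _ _ hr]
    revert hne
    generalize x.getD i false = a
    generalize y.getD i false = b
    generalize ip r.1 x = c
    generalize ip r.1 y = d
    revert a b c d
    decide
  have hc : (Eq2 L x y).card =
      (Finset.univ.filter fun r : V L => ¬ (ip r.1 y = ip r.1 x)).card := by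
    refine Finset.card_nbij' (fl L i) (fl L i) ?_ ?_ ?_ ?_
    · intro r hr
      have hr' : ip r.1 y = ip r.1 x := by simpa [Eq2] using hr
      have : ¬ (ip (fl L i r).1 y = ip (fl L i r).1 x) := by
        rw [hflip]; exact not_not.2 hr'
      simpa using this
    · intro r hr
      have hr' : ¬ (ip r.1 y = ip r.1 x) := by simpa using hr
      have : (ip (fl L i r).1 y = ip (fl L i r).1 x) := (hflip r).2 hr'
      simpa [Eq2] using this
    · intro r _
      exact fl_fl L i r
    · intro r _
      exact fl_fl L i r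
  have hs := Finset.card_filter_add_card_filter_not (s := (Finset.univ : Finset (V L)))
    (fun r => ip r.1 y = ip r.1 x)
  have hu : (Finset.univ : Finset (V L)).card = 2 ^ L := by
    rw [Finset.card_univ, card_V]
  rw [hu] at hs
  rw [two_mul]
  nth_rewrite 2 [hc]
  exact hs

/-- The matrices which do not separate `x` and `y`. -/
noncomputable def Col (L κ : ℕ) (x y : List Bool) : Finset (Fin κ → V L) :=
  Fintype.piFinset fun _ => Eq2 L x y

theorem card_Col (L κ : ℕ) (x y : List Bool) (hx : x.length = L) (hy : y.length = L) (h : x ≠ y) :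
    2 ^ κ * (Col L κ x y).card = (2 ^ L) ^ κ := by
  unfold Col
  rw [Fintype.card_piFinset_const, ← mul_pow, card_Eq2 L x y hx hy h]

open Classical in
/-- The matrices which do not isolate `x` in `S`. -/
noncomputable def Bad (L κ : ℕ) (S : Finset (V L)) (x : V L) :
    Finset (Fin κ → V L) :=
  (S.filter fun y => y ≠ x).biUnion fun y => Col L κ x.1 y.1

theorem card_Bad (L κ : ℕ) (hκ : 1 ≤ κ) (S : Finset (V L))
    (hS : S.card ≤ 2 ^ (κ - 1)) (x : V L) :
    2 * (Bad L κ S x).card ≤ (2 ^ L) ^ κ := by
  classical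
  have h1 : 2 ^ κ * (Bad L κ S x).card ≤ S.card * (2 ^ L) ^ κ := by
    calc 2 ^ κ * (Bad L κ S x).card
        ≤ 2 ^ κ * ∑ y ∈ S.filter (fun y => y ≠ x), (Col L κ x.1 y.1).card :=
          Nat.mul_le_mul_left _ Finset.card_biUnion_le
      _ = ∑ y ∈ S.filter (fun y => y ≠ x), 2 ^ κ * (Col L κ x.1 y.1).card := by
          rw [Finset.mul_sum]
      _ = ∑ y ∈ S.filter (fun y => y ≠ x), (2 ^ L) ^ κ := by
          refine Finset.sum_congr rfl ?_
          intro y hy
          have hne : y ≠ x := (Finset.mem_filter.1 hy).2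
          refine card_Col L κ x.1 y.1 x.2 y.2 ?_
          intro h
          exact hne (Subtype.ext h.symm)
      _ = (S.filter (fun y => y ≠ x)).card * (2 ^ L) ^ κ := by
          rw [Finset.sum_const, smul_eq_mul]
      _ ≤ S.card * (2 ^ L) ^ κ := Nat.mul_le_mul_right _ (Finset.card_filter_le _ _)
  have h2 : 2 ^ κ * (Bad L κ S x).card ≤ 2 ^ (κ - 1) * (2 ^ L) ^ κ :=
    h1.trans (Nat.mul_le_mul_right _ hS)
  have h3 : (2 : ℕ) ^ κ = 2 ^ (κ - 1) * 2 := by
    rw [← pow_succ]
    congr 1
    omega
  rw [h3, mul_assoc] at h2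
  exact Nat.le_of_mul_le_mul_left h2 (by positivity)

/-- The list of lists of a matrix. -/
def mx (L κ : ℕ) (F : Fin κ → V L) : List (List Bool) := List.ofFn fun i => (F i).1

theorem hsh_mx (L κ : ℕ) (F : Fin κ → V L) (x y : List Bool)
    (h : hsh (mx L κ F) y = hsh (mx L κ F) x) : F ∈ Col L κ x y := by
  unfold hsh mx at h
  rw [List.map_ofFn, List.map_ofFn] at h
  have h' := List.ofFn_injective h
  unfold Col
  rw [Fintype.mem_piFinset]
  intro i
  have := congrFun h' i
  simpa [Eq2] using this

end TF

open TF in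
theorem t_F1 : S_F1 := by
  classical
  intro L κ P hκ hP
  set S : Finset (V L) := Finset.univ.filter fun x => P x.1 with hSdef
  have hScard : S.card = cnt L P := by
    unfold cnt
    have himg : {x : List Bool | x.length = L ∧ P x} =
        ((S.image fun x : V L => x.1 : Finset (List Bool)) : Set (List Bool)) := by
      ext x
      constructor
      · rintro ⟨hx, hPx⟩
        rw [Finset.mem_coe, Finset.mem_image]
        exact ⟨⟨x, hx⟩, by simp [hSdef, hPx], rfl⟩
      · intro hx
        rw [Finset.mem_coe, Finset.mem_image] at hx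
        obtain ⟨z, hz, rfl⟩ := hx
        exact ⟨z.2, (Finset.mem_filter.1 hz).2⟩
    rw [himg, Set.ncard_coe_finset, Finset.card_image_of_injective _ Subtype.val_injective]
  have hS : S.card ≤ 2 ^ (κ - 1) := hScard ▸ hP
  set N : ℕ := (2 ^ L) ^ κ with hN
  have hNpos : 0 < N ^ κ := by positivity
  -- the bad seeds
  set BS : Finset (Fin κ → Fin κ → V L) :=
    S.biUnion fun x => Fintype.piFinset fun _ => Bad L κ S x with hBS
  have hcount : 2 ^ κ * BS.card ≤ S.card * N ^ κ := by
    calc 2 ^ κ * BS.card
        ≤ 2 ^ κ * ∑ x ∈ S, (Fintype.piFinset fun _ : Fin κ => Bad L κ S x).card :=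
          Nat.mul_le_mul_left _ Finset.card_biUnion_le
      _ = ∑ x ∈ S, (2 * (Bad L κ S x).card) ^ κ := by
          rw [Finset.mul_sum]
          refine Finset.sum_congr rfl ?_
          intro x _
          rw [Fintype.card_piFinset_const, mul_pow]
      _ ≤ ∑ x ∈ S, N ^ κ :=
          Finset.sum_le_sum fun x _ => Nat.pow_le_pow_left (card_Bad L κ hκ S hS x) κ
      _ = S.card * N ^ κ := by rw [Finset.sum_const, smul_eq_mul]
  have hlt : BS.card < N ^ κ := by
    have h1 : 2 ^ κ * BS.card ≤ 2 ^ (κ - 1) * N ^ κ := hcount.trans (Nat.mul_le_mul_right _ hS)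
    have h3 : (2 : ℕ) ^ κ = 2 ^ (κ - 1) * 2 := by
      rw [← pow_succ]
      congr 1
      omega
    rw [h3, mul_assoc] at h1
    have h4 := Nat.le_of_mul_le_mul_left h1 (by positivity)
    omega
  have huniv : (Finset.univ : Finset (Fin κ → Fin κ → V L)).card = N ^ κ := by
    rw [Finset.card_univ, Fintype.card_fun, Fintype.card_fun, Fintype.card_fin, card_V]
  obtain ⟨F, -, hF⟩ := Finset.exists_mem_notMem_of_card_lt_card
    (show BS.card < (Finset.univ : Finset (Fin κ → Fin κ → V L)).card by
      rw [huniv]; exact hlt)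
  refine ⟨List.ofFn fun j => mx L κ (F j), ⟨by simp, ?_⟩, ?_⟩
  · intro m hm
    rw [List.mem_ofFn] at hm
    obtain ⟨j, rfl⟩ := hm
    refine ⟨by simp [mx], ?_⟩
    intro r hr
    unfold mx at hr
    rw [List.mem_ofFn] at hr
    obtain ⟨i, rfl⟩ := hr
    exact (F j i).2
  · intro x hx hPx
    have hxS : (⟨x, hx⟩ : V L) ∈ S := by simp [hSdef, hPx]
    have hnot : F ∉ Fintype.piFinset fun _ : Fin κ => Bad L κ S ⟨x, hx⟩ := by
      intro hmem
      exact hF (Finset.mem_biUnion.2 ⟨⟨x, hx⟩, hxS, hmem⟩)
    rw [Fintype.mem_piFinset] at hnot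
    push Not at hnot
    obtain ⟨j, hj⟩ := hnot
    refine ⟨mx L κ (F j), ?_, ?_⟩
    · rw [List.mem_ofFn]
      exact ⟨j, rfl⟩
    · intro y hy hPy hxy
      by_contra hne
      apply hj
      unfold Bad
      rw [Finset.mem_biUnion]
      refine ⟨⟨y, hy⟩, ?_, hsh_mx L κ (F j) x y hxy⟩
      rw [Finset.mem_filter]
      refine ⟨by simp [hSdef, hPy], ?_⟩
      intro h
      exact hne (congrArg Subtype.val h)

theorem t_F2 : S_F2 := by
  classical
  rintro L κ P ⟨M, ⟨hM, hMm⟩, hiso⟩
  have hfin : {x : List Bool | x.length = L ∧ P x}.Finite :=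
    (List.finite_length_eq Bool L).subset fun _ hx => hx.1
  have hfinκ : {x : List Bool | x.length = κ}.Finite := List.finite_length_eq Bool κ
  have hcardκ : hfinκ.toFinset.card = 2 ^ κ := by
    rw [← Set.ncard_eq_toFinset_card _ hfinκ, ← Nat.card_coe_set_eq]
    have h : Nat.card (List.Vector Bool κ) = 2 ^ κ := by
      rw [Nat.card_eq_fintype_card, card_vector, Fintype.card_bool]
    exact h
  unfold cnt
  rw [Set.ncard_eq_toFinset_card _ hfin]
  set S := hfin.toFinset with hS
  set G : List (List Bool) → Finset (List Bool) := fun m =>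
    S.filter fun x => ∀ y ∈ S, hsh m y = hsh m x → y = x with hG
  have hsub : S ⊆ M.toFinset.biUnion G := by
    intro x hx
    have hx' : x.length = L ∧ P x := by simpa [hS] using hx
    obtain ⟨m, hm, hmx⟩ := hiso x hx'.1 hx'.2
    rw [Finset.mem_biUnion]
    refine ⟨m, List.mem_toFinset.2 hm, ?_⟩
    rw [hG, Finset.mem_filter]
    refine ⟨hx, ?_⟩
    intro y hy hxy
    have hy' : y.length = L ∧ P y := by simpa [hS] using hy
    exact hmx y hy'.1 hy'.2 hxy
  have hle : ∀ m ∈ M.toFinset, (G m).card ≤ 2 ^ κ := by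
    intro m hm
    have hm' := hMm m (List.mem_toFinset.1 hm)
    rw [← hcardκ]
    refine Finset.card_le_card_of_injOn (hsh m) ?_ ?_
    · intro x _
      have : (hsh m x).length = κ := by
        unfold hsh
        rw [List.length_map]
        exact hm'.1
      simpa using this
    · intro x hx y hy hxy
      have hx' := (Finset.mem_filter.1 (Finset.mem_coe.1 hx))
      have hy' := (Finset.mem_filter.1 (Finset.mem_coe.1 hy))
      exact hy'.2 x hx'.1 hxy
  calc S.card ≤ (M.toFinset.biUnion G).card := Finset.card_le_card hsub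
    _ ≤ M.toFinset.card * 2 ^ κ := Finset.card_biUnion_le_card_mul _ _ _ hle
    _ ≤ κ * 2 ^ κ := by
        refine Nat.mul_le_mul_right _ ?_
        rw [← hM]
        exact List.toFinset_card_le M

end Pool.Agent.Y648.HO
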