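import Pool.Agent.Y648.HO.Lrn

/-!
# There is always a good block of questions
-/

set_option autoImplicit false

namespace Pool.Agent.Y648.HO

/-- the codes of the version space with the label `b` at `q` -/
def sideG (R : List (List Bool × Bool) → Prop) (l k r T s : ℕ) (H : List (List Bool × Bool))
    (q : List Bool) (b : Bool) (c : List Bool) : Prop :=
  VS R l k r T s H c ∧ (dec R l k r T c q ↔ b = true)

lemma vs_side {R : List (List Bool × Bool) → Prop} {l k r T s : ℕ} {H h : List (List Bool × Bool)}
    {q : List Bool} {b : Bool} (hq : (q, b) ∈ h) {c : List Bool}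
    (hc : VS R l k r T s (H ++ h) c) : sideG R l k r T s H q b c :=
  ⟨⟨hc.1, fun p hp => hc.2 p (List.mem_append_left _ hp)⟩, hc.2 (q, b) (List.mem_append_right _ hq)⟩

lemma cnt_split (hC : S_CNT) (N : ℕ) (R : List (List Bool × Bool) → Prop) (l k r T s : ℕ)
    (H : List (List Bool × Bool)) (q : List Bool) (b : Bool) :
    cnt N (VS R l k r T s H) =
      cnt N (sideG R l k r T s H q b) + cnt N (sideG R l k r T s H q (!b)) := by
  refine (hC.2.2.2 N _ _ _ fun x _ => ?_).2 fun x _ => ?_
  · unfold sideG
    constructor
    · intro h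
      by_cases hd : dec R l k r T x q
      · cases b
        · right; exact ⟨h, by simpa using hd⟩
        · left; exact ⟨h, by simpa using hd⟩
      · cases b
        · left; exact ⟨h, by simpa using hd⟩
        · right; exact ⟨h, by simpa using hd⟩
    · rintro (h | h)
      · exact h.1
      · exact h.1
  · rintro ⟨⟨-, h1⟩, ⟨-, h2⟩⟩
    cases b
    · simp at h1 h2
      exact h1 h2
    · simp at h1 h2
      exact h2 h1

/-- the level drops -/
lemma drop_of (hC : S_CNT) (hL : S_LEV) (hD : S_DR2) {N s y : ℕ} (hs : 1 ≤ s) (hy : 1 ≤ y)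
    (h4 : 4 * (N * (2 * s * y) + 1) ≤ 2 ^ y) {P P' Q : List Bool → Prop} (hP : 1 ≤ cnt N P)
    (hPQ : ∀ x, x.length = N → P' x → Q x) (hQ : 2 * s * cnt N Q ≤ (2 * s - 1) * cnt N P) :
    ∃ κ ≤ N * (2 * s * y) + 1, Est N (2 * s * y) κ P' ∧ ¬ Est N (2 * s * y) κ P := by
  have h1 := hC.2.1 N P' Q hPQ
  have h2 := hL.2.1 N (2 * s * y) P
  have h3 := hD N s y P P' hs hy (by omega) hP ((Nat.mul_le_mul_left _ h1).trans hQ)
  refine ⟨lev N (2 * s * y) P', hL.2.1 _ _ _, (hL.1 _ _ _ _).2 le_rfl, fun h => ?_⟩
  have h5 := (hL.1 _ _ _ _).1 h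
  omega

lemma mem_items {U : List (List Bool)} {τ : List (Option Bool)} {p : List Bool × Bool} :
    p ∈ items U τ ↔ ∃ x ∈ U.zip τ, p ∈ item x.1 x.2 := by
  unfold items
  rw [List.mem_flatMap]

lemma exists_zip {α β : Type} : ∀ {U : List α} {τ : List β}, U.length = τ.length → ∀ u ∈ U,
    ∃ o, (u, o) ∈ U.zip τ
  | [], _, _, u, hu => by simp at hu
  | a :: U, [], h, u, hu => by simp at h
  | a :: U, o :: τ, h, u, hu => by
    rcases List.mem_cons.1 hu with rfl | hu
    · exact ⟨o, by simp⟩
    · obtain ⟨o', ho'⟩ := exists_zip (by simpa using h) u hu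
      exact ⟨o', by simp [ho']⟩

lemma zip_map_self {α β : Type} (f : α → β) : ∀ V : List α,
    V.zip (V.map f) = V.map fun q => (q, f q)
  | [] => rfl
  | a :: V => by rw [List.map_cons, List.zip_cons_cons, List.map_cons, zip_map_self f V]

theorem t_GOOD : S_CNT → S_LEV → S_DR2 → S_GOOD := by
  intro hC hL hD R E l k r T s y hs hy h4 hE hf H hne
  set N := clen (l + 1) k T with hN
  set W : List Bool → Prop := VS R (l + 1) k r T (2 * s) H with hW
  have hW1 : 1 ≤ cnt N W := (hC.2.2.1 N W).2 hne
  -- the drop for a block which contains a labelled string with a small side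
  have drop : ∀ (h : List (List Bool × Bool)) (q : List Bool) (b : Bool), (q, b) ∈ h →
      2 * s * cnt N (sideG R (l + 1) k r T (2 * s) H q b) ≤ (2 * s - 1) * cnt N W →
      ∃ κ ≤ N * (2 * s * y) + 1,
        Est N (2 * s * y) κ (VS R (l + 1) k r T (2 * s) (H ++ h)) ∧
        ¬ Est N (2 * s * y) κ W := fun h q b hq hle =>
    drop_of hC hL hD hs hy h4 hW1 (fun x _ hx => vs_side hq hx) hle
  by_cases hcase : ∃ q : List Bool, q.length = l + 1 ∧ ∀ b,
      2 * s * cnt N (sideG R (l + 1) k r T (2 * s) H q b) ≤ (2 * s - 1) * cnt N W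
  · obtain ⟨q, hq, hb⟩ := hcase
    obtain ⟨e, u, rfl⟩ : ∃ e u, q = e :: u := by
      cases q with
      | nil => simp at hq
      | cons e u => exact ⟨e, u, rfl⟩
    have hu : u.length = l := by simpa using hq
    refine ⟨List.replicate s u, by simp, fun v hv => by rw [List.eq_of_mem_replicate hv, hu],
      fun τ hτ => Or.inr ?_⟩
    obtain ⟨o, ho⟩ := exists_zip (U := List.replicate s u) (τ := τ) (by simp [hτ]) u
      (by rw [List.mem_replicate]; exact ⟨by omega, rfl⟩)
    refine drop _ (e :: u) (decide (o = some e)) ?_ (hb _)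
    rw [mem_items]
    refine ⟨(u, o), ho, ?_⟩
    unfold item
    cases e <;> simp
  · push Not at hcase
    choose! f hfq using hcase
    have hside : ∀ q : List Bool, q.length = l + 1 →
        2 * s * cnt N (sideG R (l + 1) k r T (2 * s) H q (!f q)) + 1 ≤ cnt N W := by
      intro q hq
      have h1 := hfq q hq
      have h2 : cnt N W = _ := cnt_split hC N R (l + 1) k r T (2 * s) H q (f q)
      have h3 : 2 * s * cnt N W = 2 * s * cnt N (sideG R (l + 1) k r T (2 * s) H q (f q)) +
          2 * s * cnt N (sideG R (l + 1) k r T (2 * s) H q (!f q)) := by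
        conv_lhs => rw [h2]
        ring
      have h4' : (2 * s - 1) * cnt N W + cnt N W = 2 * s * cnt N W := by
        obtain ⟨m, hm⟩ : ∃ m, 2 * s = m + 1 := ⟨2 * s - 1, by omega⟩
        rw [hm]
        simp only [Nat.add_sub_cancel]
        ring
      omega
    -- unions
    have hunion : ∀ V : List (List Bool), (∀ q ∈ V, q.length = l + 1) →
        2 * s * cnt N (fun c => ∃ q ∈ V, sideG R (l + 1) k r T (2 * s) H q (!f q) c) + V.length ≤
          V.length * cnt N W := by
      intro V
      induction V with
      | nil =>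
        intro _
        have h0 : cnt N (fun c => ∃ q ∈ ([] : List (List Bool)),
            sideG R (l + 1) k r T (2 * s) H q (!f q) c) = 0 := by
          by_contra hne0
          obtain ⟨x, -, q, hq, -⟩ := (hC.2.2.1 N _).1 (Nat.one_le_iff_ne_zero.2 hne0)
          simp at hq
        rw [h0]
        simp
      | cons q V ih =>
        intro hV
        have h1 := ih fun q' hq' => hV q' (List.mem_cons_of_mem _ hq')
        have h2 := hside q (hV q List.mem_cons_self)
        have h3 := (hC.2.2.2 N (fun c => ∃ q' ∈ q :: V, sideG R (l + 1) k r T (2 * s) H q' (!f q') c)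
          (sideG R (l + 1) k r T (2 * s) H q (!f q))
          (fun c => ∃ q' ∈ V, sideG R (l + 1) k r T (2 * s) H q' (!f q') c) fun x _ => by
            simp).1
        have h5 := Nat.mul_le_mul_left (2 * s) h3
        rw [mul_add] at h5
        rw [List.length_cons, add_mul, one_mul]
        omega
    have hreal : ∀ V : List (List Bool), V.length = 2 * s → (∀ q ∈ V, q.length = l + 1) →
        R (V.map fun q => (q, f q)) := by
      intro V hVl hV
      have h1 := hunion V hV
      have h2 : cnt N (fun c => ∃ q ∈ V, sideG R (l + 1) k r T (2 * s) H q (!f q) c) <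
          cnt N W := by
        rw [hVl] at h1
        by_contra hcon
        have h3 := Nat.mul_le_mul_left (2 * s) (not_lt.1 hcon)
        omega
      have h3 : ∃ c : List Bool, c.length = N ∧ W c ∧
          ¬ ∃ q ∈ V, sideG R (l + 1) k r T (2 * s) H q (!f q) c := by
        by_contra hcon
        push Not at hcon
        have := hC.2.1 N W (fun c => ∃ q ∈ V, sideG R (l + 1) k r T (2 * s) H q (!f q) c)
          fun x hx hWx => hcon x hx hWx
        omega
      obtain ⟨c, hcN, hWc, hc⟩ := h3
      obtain ⟨v, hv1, hv2, hv3⟩ := hWc.1 V hVl hV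
      have hfc : ∀ q ∈ V, (dec R (l + 1) k r T c q ↔ f q = true) := by
        intro q hq
        by_contra hcon
        apply hc
        refine ⟨q, hq, hWc, ?_⟩
        cases hfq' : f q
        · rw [hfq'] at hcon
          simp at hcon ⊢
          exact hcon
        · rw [hfq'] at hcon
          simp at hcon ⊢
          exact hcon
      have hvV : v = V.map f := by
        apply List.ext_getElem
        · rw [List.length_map, hv1, hVl]
        · intro i h1 h2
          have hi : i < 2 * s := by omega
          have hiV : i < V.length := by omega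
          have h3 := hv2 i hi
          rw [List.getD_eq_getElem _ _ h1, List.getD_eq_getElem _ _ hiV,
            hfc _ (List.getElem_mem hiV)] at h3
          rw [List.getElem_map]
          exact Bool.eq_iff_iff.2 h3
      rw [hvV] at hv3
      convert hv3 using 1
      exact (zip_map_self f V).symm
    obtain ⟨U, hU1, hU2, hU3⟩ := hf f hreal
    refine ⟨U, hU1, hU2, fun τ hτ => ?_⟩
    by_cases hall : ∀ p ∈ items U τ, p.2 = f p.1
    · left
      refine hE _ _ (fun p hp => List.mem_append_right _ ?_) hU3
      rw [List.mem_flatMap] at hp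
      obtain ⟨u, hu, hp⟩ := hp
      obtain ⟨o, ho⟩ := exists_zip (U := U) (τ := τ) (by omega) u hu
      have k1 : (true :: u, decide (o = some true)) ∈ items U τ :=
        mem_items.2 ⟨(u, o), ho, by simp [item]⟩
      have k2 : (false :: u, decide (o = some false)) ∈ items U τ :=
        mem_items.2 ⟨(u, o), ho, by simp [item]⟩
      have e1 := hall _ k1
      have e2 := hall _ k2
      simp only [List.mem_cons, List.not_mem_nil, or_false] at hp
      rcases hp with rfl | rfl
      · rw [← e1]; exact k1
      · rw [← e2]; exact k2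
    · right
      push Not at hall
      obtain ⟨⟨q, b⟩, hp, hpb⟩ := hall
      have hql : q.length = l + 1 := by
        obtain ⟨⟨u, o⟩, hx, hp'⟩ := mem_items.1 hp
        have hu : u.length = l := hU2 u (List.of_mem_zip hx).1
        simp only [item, List.mem_cons, List.not_mem_nil, or_false, Prod.mk.injEq] at hp'
        rcases hp' with ⟨rfl, -⟩ | ⟨rfl, -⟩
        · simp [hu]
        · simp [hu]
      have hb : b = !f q := by
        have hpb : b ≠ f q := hpb
        cases b <;> cases h : f q <;> simp_all
      refine drop _ q b hp ?_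
      rw [hb]
      have h1 := hside q hql
      have h2 : cnt N W ≤ (2 * s - 1) * cnt N W := Nat.le_mul_of_pos_left _ (by omega)
      omega

end Pool.Agent.Y648.HO
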