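import Pool.Agent.Y648.HO.StmA

set_option autoImplicit false

/-!
# HL: certificates
-/

namespace Pool.Agent.Y648.HO

open Pool.Agent.NPC Pool.Agent.NPC.ER Pool.Agent.H558R2 Pool.Agent.H622R3.SM
open Pool.Agent.H620R2.Gauge (Oracle IsPH)

namespace THL

theorem signOut_true (v : ℝ) : signOut v = some true ↔ SignType.sign v = 1 := by
  unfold signOut
  rw [sign_eq_one_iff]
  split_ifs with h1 h2
  · exact ⟨fun _ => h1, fun _ => rfl⟩
  · exact ⟨fun h => absurd h (by simp), fun h => absurd h h1⟩
  · exact ⟨fun h => absurd h (by simp), fun h => absurd h h1⟩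

theorem signOut_false (v : ℝ) : signOut v = some false ↔ SignType.sign v = -1 := by
  unfold signOut
  rw [sign_eq_neg_one_iff]
  split_ifs with h1 h2
  · exact ⟨fun h => absurd h (by simp), fun h => absurd h h1.not_gt⟩
  · exact ⟨fun _ => h2, fun _ => rfl⟩
  · exact ⟨fun h => absurd h (by simp), fun h => absurd h h2⟩

/-- the sign given by two labels -/
def sg (p q : Bool) : SignType := if p = true then 1 else if q = true then -1 else 0

theorem eq_sg {s : SignType} {p q : Bool} (hp : p = true ↔ s = 1) (hq : q = true ↔ s = -1) :
    s = sg p q := by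
  unfold sg
  split_ifs with h1 h2
  · exact hp.1 h1
  · exact hq.1 h2
  · rcases s.trichotomy with h | h | h
    · exact absurd (hq.2 h) h2
    · exact h
    · exact absurd (hp.2 h) h1

end THL

open THL in
open Classical in
/-- HL: certificates -/
theorem t_HL : S_HL := by
  intro m n hm f hf
  have henc := t_ENC m n
  choose u hu1 hu2 using henc
  have hu3 : ∀ β, beta m n ((u β).map some) 0 = β := by
    intro β
    have h := hu2 β [] [] 0 (by simp)
    simpa using h
  have hkey : ∀ (a : Inp m n) (β : Fin m → Option (Fin (m + (n + n)))),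
      bin m n a (true :: u β) = f (true :: u β) → bin m n a (false :: u β) = f (false :: u β) →
      pat a β = sg (f (true :: u β)) (f (false :: u β)) := by
    intro a β h1 h2
    apply eq_sg
    · rw [← h1]
      change decide (signOut (dd (wmat a.1 a.2) (beta m n ((u β).map some) 0)) = some true) = true ↔ _
      rw [hu3, decide_eq_true_eq, signOut_true]
      rfl
    · rw [← h2]
      change decide (signOut (dd (wmat a.1 a.2) (beta m n ((u β).map some) 0)) = some false) = true ↔ _
      rw [hu3, decide_eq_true_eq, signOut_false]
      rfl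
  have hloc : LocReal (pat (m := m) (n := n)) (ps m n)
      (fun β => sg (f (true :: u β)) (f (false :: u β))) := by
    intro D hD
    obtain ⟨a, ha⟩ := hf ((D.toList.flatMap fun β => [true :: u β, false :: u β]) ++
      List.replicate (2 * (ps m n - D.card)) (true :: u fun _ => none)) (by
        rw [List.length_append, List.length_replicate, List.length_flatMap]
        simp
        omega) (by
        intro q hq
        rcases List.mem_append.1 hq with h | h
        · obtain ⟨β, _, hβ⟩ := List.mem_flatMap.1 h
          simp only [List.mem_cons, List.not_mem_nil, or_false] at hβ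
          rcases hβ with rfl | rfl
          · rw [List.length_cons, hu1]
          · rw [List.length_cons, hu1]
        · rw [List.eq_of_mem_replicate h, List.length_cons, hu1])
    refine ⟨a, fun β hβ => hkey a β ?_ ?_⟩
    · refine ha (true :: u β, f (true :: u β)) (List.mem_map.2 ⟨true :: u β, ?_, rfl⟩)
      refine List.mem_append.2 (Or.inl (List.mem_flatMap.2 ⟨β, Finset.mem_toList.2 hβ, ?_⟩))
      simp
    · refine ha (false :: u β, f (false :: u β)) (List.mem_map.2 ⟨false :: u β, ?_, rfl⟩)
      refine List.mem_append.2 (Or.inl (List.mem_flatMap.2 ⟨β, Finset.mem_toList.2 hβ, ?_⟩))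
      simp
  obtain ⟨D, hD, ans, hans⟩ := exists_cert (ps m n) (by unfold ps; omega) _ hloc
  refine ⟨(D.toList.map u) ++ List.replicate (ps m n - D.card) (u fun _ => none), ?_, ?_, ?_⟩
  · rw [List.length_append, List.length_replicate, List.length_map, Finset.length_toList]
    omega
  · intro v hv
    rcases List.mem_append.1 hv with h | h
    · obtain ⟨β, _, rfl⟩ := List.mem_map.1 h
      exact hu1 β
    · rw [List.eq_of_mem_replicate h, hu1]
  · have hlab : ∀ a : Inp m n, (∀ p ∈ (((D.toList.map u) ++
        List.replicate (ps m n - D.card) (u fun _ => none)).flatMap fun u =>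
          [(true :: u, f (true :: u)), (false :: u, f (false :: u))]), bin m n a p.1 = p.2) →
        decide (Feas a) = ans := by
      intro a ha
      apply hans a
      intro β hβ
      have hmem : u β ∈ (D.toList.map u) ++
          List.replicate (ps m n - D.card) (u fun _ => none) :=
        List.mem_append.2 (Or.inl (List.mem_map.2 ⟨β, Finset.mem_toList.2 hβ, rfl⟩))
      refine hkey a β ?_ ?_
      · exact ha (true :: u β, f (true :: u β)) (List.mem_flatMap.2 ⟨u β, hmem, by simp⟩)
      · exact ha (false :: u β, f (false :: u β)) (List.mem_flatMap.2 ⟨u β, hmem, by simp⟩)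
    rintro ⟨⟨a, ha1, ha2⟩, ⟨b, hb1, hb2⟩⟩
    have h1 := hlab a ha1
    have h2 := hlab b hb1
    rw [← h2, decide_eq_decide] at h1
    exact hb2 (h1.1 ha2)

end Pool.Agent.Y648.HO
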