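import Pool.Agent.Y648.HO.Lrn

set_option autoImplicit false

/-!
# Levels (helper914)
-/

namespace Pool.Agent.Y648.HO

theorem part_len {L r i : ℕ} {x : List Bool} (hx : x.length = L * r) (hi : i < r) :
    (part L i x).length = L := by
  unfold part
  rw [List.length_take, List.length_drop, hx]
  have h1 : i * L + L ≤ L * r := by
    have h2 : (i + 1) * L ≤ r * L := Nat.mul_le_mul_right L hi
    calc i * L + L = (i + 1) * L := by ring
      _ ≤ r * L := h2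
      _ = L * r := by ring
  omega

theorem est_mono {L r κ κ' : ℕ} {P : List Bool → Prop} (h : κ ≤ κ') (hE : Est L r κ P) :
    Est L r κ' P := by
  obtain ⟨m, hm, hI⟩ := hE
  exact ⟨m, hm.trans h, hI⟩

theorem t_LEV : S_F1 → S_F2 → S_POW → S_CNT → S_LEV := by
  intro F1 F2 HP HC
  obtain ⟨c1, c2, c3, c4⟩ := HC
  have top : ∀ (L r : ℕ) (P : List Bool → Prop), Est L r (L * r + 1) P := by
    intro L r P
    refine ⟨L * r + 1, le_rfl, F1 _ _ _ (by omega) ?_⟩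
    rw [Nat.add_sub_cancel]
    exact c1 _ _
  have h1 : ∀ (L r κ : ℕ) (P : List Bool → Prop), Est L r κ P ↔ lev L r P ≤ κ := by
    intro L r κ P
    constructor
    · intro h
      exact Nat.sInf_le h
    · intro h
      have h2 : Est L r (lev L r P) P := Nat.sInf_mem (s := {κ | Est L r κ P}) ⟨_, top L r P⟩
      exact est_mono h h2
  have h4 : ∀ (L r : ℕ) (P : List Bool → Prop), cnt L P ^ r ≤ lev L r P * 2 ^ lev L r P := by
    intro L r P
    obtain ⟨m, hm, hI⟩ := (h1 L r (lev L r P) P).2 le_rfl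
    rw [← HP]
    refine (F2 _ _ _ hI).trans ?_
    exact Nat.mul_le_mul hm (Nat.pow_le_pow_right (by norm_num) hm)
  refine ⟨h1, fun L r P => (h1 _ _ _ _).1 (top L r P), ?_, h4, ?_, ?_⟩
  · intro L r κ P hκ hc
    apply (h1 _ _ _ _).1
    refine ⟨κ, le_rfl, F1 _ _ _ hκ ?_⟩
    rw [HP]
    exact hc
  · intro L r P P' h
    apply (h1 _ _ _ _).1
    obtain ⟨m, hm, M, hM, hI⟩ := (h1 L r (lev L r P') P').2 le_rfl
    refine ⟨m, hm, M, hM, fun x hx hPx => ?_⟩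
    have hup : ∀ z : List Bool, z.length = L * r → Pow L r P z → Pow L r P' z :=
      fun z hz hPz i hi => h _ (part_len hz hi) (hPz i hi)
    obtain ⟨a, ha, hy⟩ := hI x hx (hup x hx hPx)
    exact ⟨a, ha, fun y hyl hPy he => hy y hyl (hup y hyl hPy) he⟩
  · intro L r P hr
    constructor
    · intro h
      have h5 := h4 L r P
      rw [h, zero_mul] at h5
      exact pow_eq_zero_iff (by omega) |>.1 (Nat.le_zero.1 h5)
    · intro h
      have h5 : Est L r 0 P := by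
        refine ⟨0, le_rfl, [], ⟨rfl, by simp⟩, fun x hx hPx => ?_⟩
        exfalso
        have h6 := (c3 L P).2 ⟨_, part_len hx (show 0 < r by omega), hPx 0 (by omega)⟩
        omega
      exact Nat.le_zero.1 ((h1 _ _ _ _).1 h5)

theorem t_DR1 : S_LEV → S_DR1 := by
  rintro ⟨l1, l2, l3, l4, l5, l6⟩ L r P P₁ P₂ hr h4 hc hc2 hle
  by_contra hcon
  push Not at hcon
  obtain ⟨κ, hκ⟩ : ∃ κ, κ = lev L r P := ⟨_, rfl⟩
  rw [← hκ] at h4 hcon
  have hκ0 : κ ≠ 0 := by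
    intro h0
    have := (l6 L r P (by omega)).1 (by rw [← hκ, h0])
    omega
  have e4 := l4 L r P
  rw [← hκ] at e4
  rcases Nat.lt_or_ge κ 2 with hlt | hge
  · have h1 : κ = 1 := by omega
    subst h1
    have h2 : cnt L P₁ ≠ 0 := by
      intro h0
      have := (l6 L r P₁ (by omega)).2 h0
      omega
    have h3 : 2 ≤ cnt L P := by omega
    have h5 : 2 ^ r ≤ cnt L P ^ r := Nat.pow_le_pow_left h3 r
    have h6 : 2 ^ 2 ≤ 2 ^ r := Nat.pow_le_pow_right (by norm_num) hr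
    norm_num at e4 h6
    omega
  · have key : ∀ Q : List Bool → Prop, κ ≤ lev L r Q → 2 ^ (κ - 2) < cnt L Q ^ r := by
      intro Q hQ
      by_contra h0
      push Not at h0
      have := l3 L r (κ - 1) Q (by omega) (by rwa [show κ - 1 - 1 = κ - 2 by omega])
      omega
    obtain ⟨m, hm1, hm2⟩ : ∃ m, 2 ^ (κ - 2) < m ^ r ∧ 2 * m ≤ cnt L P := by
      rcases le_total (cnt L P₁) (cnt L P₂) with h | h
      · exact ⟨cnt L P₁, key P₁ (hcon.trans hle), by omega⟩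
      · exact ⟨cnt L P₂, key P₂ hcon, by omega⟩
    have h1 : (2 * m) ^ r ≤ cnt L P ^ r := Nat.pow_le_pow_left hm2 r
    rw [mul_pow] at h1
    have h2 : 2 ^ r * 2 ^ (κ - 2) < 2 ^ r * m ^ r :=
      Nat.mul_lt_mul_of_pos_left hm1 (by positivity)
    have h3 : 4 * κ * 2 ^ (κ - 2) ≤ 2 ^ r * 2 ^ (κ - 2) := Nat.mul_le_mul_right _ h4
    have h5 : 4 * κ * 2 ^ (κ - 2) = κ * 2 ^ κ := by
      obtain ⟨j, rfl⟩ := Nat.exists_eq_add_of_le hge
      rw [show 2 + j - 2 = j by omega, pow_add]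
      ring
    omega

theorem bern (m n : ℕ) : m ^ (n + 1) + (n + 1) * m ^ n ≤ (m + 1) ^ (n + 1) := by
  induction n with
  | zero => simp
  | succ n ih =>
    calc m ^ (n + 1 + 1) + (n + 1 + 1) * m ^ (n + 1)
        ≤ (m + 1) * (m ^ (n + 1) + (n + 1) * m ^ n) := by
          have e : (m + 1) * (m ^ (n + 1) + (n + 1) * m ^ n) =
            m ^ (n + 1 + 1) + (n + 1 + 1) * m ^ (n + 1) + (n + 1) * m ^ n := by ring
          rw [e]
          exact Nat.le_add_right _ _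
      _ ≤ (m + 1) * (m + 1) ^ (n + 1) := Nat.mul_le_mul_left _ ih
      _ = _ := by ring

theorem two_pow_le {s : ℕ} (hs : 1 ≤ s) : 2 * (2 * s - 1) ^ (2 * s) ≤ (2 * s) ^ (2 * s) := by
  obtain ⟨m, hm⟩ : ∃ m, 2 * s = m + 1 := ⟨2 * s - 1, by omega⟩
  rw [hm, Nat.add_sub_cancel]
  refine le_trans ?_ (bern m m)
  calc 2 * m ^ (m + 1) = m ^ (m + 1) + m * m ^ m := by ring
    _ ≤ m ^ (m + 1) + (m + 1) * m ^ m := by gcongr; omega

theorem t_DR2 : S_LEV → S_DR2 := by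
  rintro ⟨l1, l2, l3, l4, l5, l6⟩ L s y P P' hs hy h4 hc hcc
  obtain ⟨r, hr⟩ : ∃ r, r = 2 * s * y := ⟨_, rfl⟩
  rw [← hr] at h4 ⊢
  have hr1 : 1 ≤ r := by
    rw [hr]
    have : 1 * 1 ≤ 2 * s * y := Nat.mul_le_mul (by omega) hy
    omega
  obtain ⟨κ, hκ⟩ : ∃ κ, κ = lev L r P := ⟨_, rfl⟩
  rw [← hκ] at h4 ⊢
  have hκ0 : κ ≠ 0 := by
    intro h0
    have := (l6 L r P hr1).1 (by rw [← hκ, h0])
    omega
  have e4 := l4 L r P
  rw [← hκ] at e4
  have h1 : (2 * s * cnt L P') ^ r ≤ ((2 * s - 1) * cnt L P) ^ r := Nat.pow_le_pow_left hcc r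
  rw [mul_pow (2 * s) (cnt L P') r, mul_pow (2 * s - 1) (cnt L P) r] at h1
  have h2 : 2 ^ y * (2 * s - 1) ^ r ≤ (2 * s) ^ r := by
    rw [hr, pow_mul, pow_mul (2 * s) (2 * s) y, ← mul_pow]
    exact Nat.pow_le_pow_left (two_pow_le hs) y
  have h3 : 2 ^ y * cnt L P' ^ r ≤ cnt L P ^ r := by
    have hpos : 0 < (2 * s - 1) ^ r := Nat.pow_pos (by omega)
    apply Nat.le_of_mul_le_mul_left _ hpos
    calc (2 * s - 1) ^ r * (2 ^ y * cnt L P' ^ r) = 2 ^ y * (2 * s - 1) ^ r * cnt L P' ^ r := by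
          ring
      _ ≤ (2 * s) ^ r * cnt L P' ^ r := Nat.mul_le_mul_right _ h2
      _ ≤ _ := h1
  have h5 : κ * (4 * cnt L P' ^ r) ≤ κ * 2 ^ κ := by
    calc κ * (4 * cnt L P' ^ r) = 4 * κ * cnt L P' ^ r := by ring
      _ ≤ 2 ^ y * cnt L P' ^ r := Nat.mul_le_mul_right _ h4
      _ ≤ _ := h3.trans e4
  have h6 : 4 * cnt L P' ^ r ≤ 2 ^ κ := Nat.le_of_mul_le_mul_left h5 (by omega)
  rcases Nat.lt_or_ge κ 2 with hlt | hge
  · have h7 : κ = 1 := by omega
    subst h7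
    have h8 : cnt L P' ^ r = 0 := by
      norm_num at h6
      omega
    have h9 : cnt L P' = 0 := pow_eq_zero_iff (by omega) |>.1 h8
    have := (l6 L r P' hr1).2 h9
    omega
  · have h7 : cnt L P' ^ r ≤ 2 ^ (κ - 1 - 1) := by
      obtain ⟨j, rfl⟩ := Nat.exists_eq_add_of_le hge
      rw [show 2 + j - 1 - 1 = j by omega]
      rw [pow_add] at h6
      omega
    have := l3 L r (κ - 1) P' (by omega) h7
    omega

end Pool.Agent.Y648.HO
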