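import Pool.Agent.Y648.HO.Lrn

set_option autoImplicit false

/-!
# Few wrong predictions
-/

namespace Pool.Agent.Y648.HO

/-- counting the places where a sequence drops -/
theorem mis_count {k φ : ℕ} (ν : ℕ → ℕ) (W : ℕ → Prop) [DecidablePred W] (h0 : ν 0 ≤ φ)
    (hm : ∀ j < k, ν (j + 1) ≤ ν j) (hd : ∀ j < k, W j → ν (j + 1) < ν j) :
    ((Finset.range k).filter W).card ≤ φ := by
  have key : ∀ m, m ≤ k → ((Finset.range m).filter W).card + ν m ≤ ν 0 := by
    intro m
    induction m with
    | zero => intro _; simp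
    | succ m ih =>
      intro hmk
      have h1 := ih (by omega)
      have h2 := hm m (by omega)
      rw [Finset.range_add_one, Finset.filter_insert]
      split_ifs with hW
      · have h3 := hd m (by omega) hW
        have h4 : (insert m ((Finset.range m).filter W)).card ≤
            ((Finset.range m).filter W).card + 1 := Finset.card_insert_le _ _
        omega
      · omega
  have := key k le_rfl
  omega

theorem mis_lb_fst {I : Type} (χ : I → List Bool → Bool) (a : I) (X : List (List Bool)) :
    (lb χ a X).map Prod.fst = X := by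
  unfold lb
  rw [List.map_map]
  exact List.map_id X

theorem mis_lb_snd {I : Type} (χ : I → List Bool → Bool) (a : I) (X : List (List Bool)) :
    (lb χ a X).map Prod.snd = X.map (χ a) := by
  unfold lb
  rw [List.map_map]
  rfl

theorem mis_split (X : List (List Bool)) {j : ℕ} (hj : j < X.length) :
    X.take j ++ X.getD j [] :: X.drop (j + 1) = X := by
  have h1 : X.getD j [] = X[j] := by
    rw [List.getD_eq_getElem?_getD, List.getElem?_eq_getElem hj, Option.getD_some]
  rw [h1, ← List.drop_eq_getElem_cons hj, List.take_append_drop]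

theorem mis_take (X : List (List Bool)) (f : List Bool → Bool) {j : ℕ} (hj : j < X.length) :
    (X.take (j + 1)).map f = (X.take j).map f ++ [f (X.getD j [])] := by
  have h1 : X.getD j [] = X[j] := by
    rw [List.getD_eq_getElem?_getD, List.getElem?_eq_getElem hj, Option.getD_some]
  rw [h1, List.take_succ_eq_append_getElem hj, List.map_append]
  rfl

/-- the labels of a prefix, and the next label -/
theorem mis_prefix {τ A : List Bool} (h : A.length < τ.length) :
    A <+: τ ↔ (A ++ [true]) <+: τ ∨ (A ++ [false]) <+: τ := by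
  constructor
  · rintro ⟨B, rfl⟩
    rcases B with _ | ⟨b, B⟩
    · simp at h
    · rcases b with _ | _
      · right; exact ⟨B, by simp⟩
      · left; exact ⟨B, by simp⟩
  · rintro (⟨B, rfl⟩ | ⟨B, rfl⟩)
    · exact ⟨true :: B, by simp⟩
    · exact ⟨false :: B, by simp⟩

theorem mis_disj {τ A : List Bool} (h1 : (A ++ [true]) <+: τ) (h2 : (A ++ [false]) <+: τ) :
    False := by
  obtain ⟨B, hB⟩ := h1
  obtain ⟨C, hC⟩ := h2
  rw [← hC, List.append_assoc, List.append_assoc] at hB
  have := List.append_cancel_left hB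
  simp at this

theorem mis_zip (f : List Bool → Bool) (X : List (List Bool)) :
    X.zip (X.map f) = X.map fun x => (x, f x) := by
  induction X with
  | nil => rfl
  | cons x X ih => rw [List.map_cons, List.zip_cons_cons, ih, List.map_cons]

/-- the prediction compares the levels -/
theorem mis_pre (hL : S_LEV) (R : List (List Bool × Bool) → Prop) (k r : ℕ)
    (D : List (List Bool × Bool)) (U : List (List Bool)) (q : List Bool) :
    Pre R k r D U q ↔ lev k r (Ext R D U q false) ≤ lev k r (Ext R D U q true) := by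
  obtain ⟨L1, L2, -⟩ := hL
  constructor
  · intro h
    exact (L1 _ _ _ _).1 (h _ (L2 _ _ _) ((L1 _ _ _ _).2 le_rfl))
  · intro h κ _ h1
    exact (L1 _ _ _ _).2 (h.trans ((L1 _ _ _ _).1 h1))

open Classical in
/-- **Few wrong predictions.** -/
theorem t_MIS : S_CNT → S_LEV → S_DR1 → S_MIS := by
  intro hC hL hD I χ k r g hr hg X hX hcnt a
  have hL' := hL
  obtain ⟨C1, C2, C3, C4⟩ := hC
  obtain ⟨L1, L2, L3, L4, L5, L6⟩ := hL
  -- the remaining labelings
  let P : ℕ → List Bool → Prop := fun j τ => ((X.take j).map (χ a)) <+: τ ∧ Rl χ (X.zip τ)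
  have hP0 : lev k r (P 0) ≤ r * g + 1 := by
    refine L3 _ _ _ _ (by omega) ?_
    have h1 : cnt k (P 0) ≤ 2 ^ g := (C2 k _ _ fun x _ h => h.2).trans hcnt
    calc cnt k (P 0) ^ r ≤ (2 ^ g) ^ r := Nat.pow_le_pow_left h1 r
      _ = 2 ^ (r * g + 1 - 1) := by rw [← pow_mul, Nat.add_sub_cancel, mul_comm]
  have hmono : ∀ j, lev k r (P (j + 1)) ≤ lev k r (P j) := by
    intro j
    refine L5 _ _ _ _ fun τ _ h => ⟨?_, h.2⟩
    refine List.IsPrefix.trans ?_ h.1
    exact (List.IsPrefix.map (χ a) (List.take_prefix_take_left (by omega)))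
  have hle : ∀ j, lev k r (P j) ≤ r * g + 1 := by
    intro j
    induction j with
    | zero => exact hP0
    | succ j ih => exact (hmono j).trans ih
  refine mis_count (fun j => lev k r (P j)) _ hP0 (fun j _ => hmono j) ?_
  intro j hj hW
  have hjX : j < X.length := by omega
  -- the two extensions
  have hExt : ∀ (b : Bool) (τ : List Bool),
      Ext (Rl χ) (lb χ a (X.take j)) (X.drop (j + 1)) (X.getD j []) b τ ↔
      ((X.take j).map (χ a) ++ [b]) <+: τ ∧ Rl χ (X.zip τ) := by
    intro b τ
    unfold Ext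
    rw [mis_lb_fst, mis_lb_snd, mis_split X hjX]
  have hlen : ((X.take j).map (χ a)).length = j := by
    rw [List.length_map, List.length_take]
    omega
  have hsum : cnt k (P j) =
      cnt k (Ext (Rl χ) (lb χ a (X.take j)) (X.drop (j + 1)) (X.getD j []) true) +
      cnt k (Ext (Rl χ) (lb χ a (X.take j)) (X.drop (j + 1)) (X.getD j []) false) := by
    refine (C4 k _ _ _ fun τ hτ => ?_).2 fun τ hτ h => ?_
    · rw [hExt, hExt]
      show _ ∧ _ ↔ _
      rw [mis_prefix (by rw [hlen, hτ]; exact hj)]
      tauto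
    · rw [hExt, hExt] at h
      exact mis_disj h.1.1 h.2.1
  have hpos : 1 ≤ cnt k (Ext (Rl χ) (lb χ a (X.take j)) (X.drop (j + 1)) (X.getD j [])
      (χ a (X.getD j []))) := by
    refine (C3 _ _).2 ⟨X.map (χ a), by rw [List.length_map, hX], ?_⟩
    rw [hExt, ← mis_take X (χ a) hjX]
    refine ⟨List.IsPrefix.map (χ a) (List.take_prefix _ _), a, ?_⟩
    intro p hp
    rw [mis_zip, List.mem_map] at hp
    obtain ⟨x, _, rfl⟩ := hp
    rfl
  have hnext : lev k r (P (j + 1)) ≤
      lev k r (Ext (Rl χ) (lb χ a (X.take j)) (X.drop (j + 1)) (X.getD j [])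
        (χ a (X.getD j []))) := by
    refine L5 _ _ _ _ fun τ _ h => ?_
    rw [hExt, ← mis_take X (χ a) hjX]
    exact h
  have h4 : 4 * lev k r (P j) ≤ 2 ^ r := by
    have := hle j
    omega
  unfold Wr at hW
  rw [mis_pre hL'] at hW
  refine lt_of_le_of_lt hnext ?_
  rcases hb : χ a (X.getD j []) with _ | _
  · rw [hb] at hpos hW
    refine hD k r (P j)
      (Ext (Rl χ) (lb χ a (X.take j)) (X.drop (j + 1)) (X.getD j []) true)
      (Ext (Rl χ) (lb χ a (X.take j)) (X.drop (j + 1)) (X.getD j []) false) hr h4 hsum hpos ?_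
    by_contra hcon
    exact hW ⟨fun h => absurd h hcon, fun h => absurd h Bool.false_ne_true⟩
  · rw [hb] at hpos hW
    refine hD k r (P j)
      (Ext (Rl χ) (lb χ a (X.take j)) (X.drop (j + 1)) (X.getD j []) false)
      (Ext (Rl χ) (lb χ a (X.take j)) (X.drop (j + 1)) (X.getD j []) true) hr h4
      (by rw [hsum]; exact add_comm _ _) hpos ?_
    by_contra hcon
    exact hW ⟨fun _ => rfl, fun _ => (not_le.1 hcon).le⟩

end Pool.Agent.Y648.HO
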