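import Pool.Agent.Y648.HO.StmA

set_option autoImplicit false

/-!
# Tasks PAR, UP3, POL3: the parameters
-/

namespace Pool.Agent.Y648.HO

open Pool.Agent.NPC Pool.Agent.NPC.ER Pool.Agent.H558R2 Pool.Agent.H622R3.SM

namespace TPAR

theorem pow4_le (x : ℕ) (hx : 40 ≤ x) : 32 * x ^ 4 ≤ 2 ^ x := by
  induction x, hx using Nat.le_induction with
  | base => norm_num
  | succ x hx ih =>
    have h1 : 4 * x ^ 3 + 6 * x ^ 2 + 4 * x + 1 ≤ x ^ 4 := by
      have a1 : 40 * x ^ 3 ≤ x ^ 4 := by
        calc 40 * x ^ 3 ≤ x * x ^ 3 := Nat.mul_le_mul_right _ hx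
          _ = x ^ 4 := by ring
      have a2 : 40 * x ^ 2 ≤ x ^ 3 := by
        calc 40 * x ^ 2 ≤ x * x ^ 2 := Nat.mul_le_mul_right _ hx
          _ = x ^ 3 := by ring
      have a3 : 40 * x ≤ x ^ 2 := by
        calc 40 * x ≤ x * x := Nat.mul_le_mul_right _ hx
          _ = x ^ 2 := by ring
      omega
    calc 32 * (x + 1) ^ 4 = 32 * x ^ 4 + 32 * (4 * x ^ 3 + 6 * x ^ 2 + 4 * x + 1) := by ring
      _ ≤ 32 * x ^ 4 + 32 * x ^ 4 := by gcongr
      _ ≤ 2 ^ x + 2 ^ x := by gcongr
      _ = 2 ^ (x + 1) := by ring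

theorem pk_le (m n : ℕ) : pk m n ≤ 2 ^ (m + n + 40) := by
  obtain ⟨x, hx⟩ : ∃ x, x = m + n + 40 := ⟨_, rfl⟩
  have h1 : pg m n ≤ 2 * x * x ^ 2 := by
    unfold pg
    have a1 : m + n + 40 + m + 3 ≤ 2 * x := by omega
    have a2 : m * n + m ≤ x ^ 2 := by
      calc m * n + m = m * (n + 1) := by ring
        _ ≤ x * x := Nat.mul_le_mul (by omega) (by omega)
        _ = x ^ 2 := by ring
    exact Nat.mul_le_mul a1 a2
  have h2 : pr m n = x := by
    unfold pr
    exact hx.symm
  have h3 : pk m n ≤ 32 * x ^ 4 := by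
    unfold pk
    rw [h2]
    have a1 : x * pg m n ≤ 2 * x ^ 4 := by
      calc x * pg m n ≤ x * (2 * x * x ^ 2) := Nat.mul_le_mul_left _ h1
        _ = 2 * x ^ 4 := by ring
    have a2 : 1 ≤ x ^ 4 := Nat.one_le_pow _ _ (by omega)
    omega
  rw [← hx]
  exact h3.trans (pow4_le x (by omega))

theorem pN_ge (m n : ℕ) : 21 ≤ pN m n := by
  unfold pN clen
  have a1 : 7 ≤ pk m n - 1 := by
    have : 8 ≤ pk m n := by
      unfold pk
      omega
    omega
  have a2 : 3 ≤ ell m n + 1 + 2 := by omega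
  have a3 : 1 ≤ pT m n := by
    unfold pT
    omega
  calc 21 = 3 * 7 * 1 := rfl
    _ ≤ (ell m n + 1 + 2) * (pk m n - 1) * pT m n := by gcongr

end TPAR

open TPAR in
theorem t_PAR : S_PAR := by
  intro m n _
  have h1 := pk_le m n
  refine ⟨h1, ?_, ?_⟩
  · have h2 : 4 * (pr m n * pg m n + 1) ≤ pk m n := by
      unfold pk
      omega
    exact h2.trans h1
  · obtain ⟨y, hy⟩ : ∃ y, y = py m n := ⟨_, rfl⟩
    have hN := pN_ge m n
    have e : py m n = 2 * (pN m n + ps m n) + 20 := rfl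
    have hNy : pN m n ≤ y := by omega
    have hsy : ps m n ≤ y := by omega
    rw [← hy]
    refine le_trans ?_ (pow4_le y (by omega))
    have h3 : pN m n * (2 * ps m n * y) ≤ y * (2 * y * y) := by gcongr
    have h4 : y * (2 * y * y) = 2 * y ^ 3 := by ring
    have h5 : y ^ 3 ≤ y ^ 4 := Nat.pow_le_pow_right (by omega) (by omega)
    have h6 : 1 ≤ y ^ 4 := Nat.one_le_pow _ _ (by omega)
    omega

theorem t_UP3 : S_UP3 := by
  intro β _ m n um un
  have c : ∀ k : ℕ, UPoly (fun _ : β => k) := fun k => UPoly.const k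
  have uell : UPoly (fun a => ell (m a) (n a)) := by
    unfold ell
    exact UPoly.mul um (UPoly.add um (UPoly.add un un))
  have upr : UPoly (fun a => pr (m a) (n a)) := by
    unfold pr
    exact UPoly.add (UPoly.add um un) (c 40)
  have upg : UPoly (fun a => pg (m a) (n a)) := by
    unfold pg
    exact UPoly.mul (UPoly.add (UPoly.add (UPoly.add (UPoly.add um un) (c 40)) um) (c 3))
      (UPoly.add (UPoly.mul um un) um)
  have upk : UPoly (fun a => pk (m a) (n a)) := by
    unfold pk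
    exact UPoly.mul (c 8) (UPoly.add (UPoly.mul upr upg) (c 1))
  have upT : UPoly (fun a => pT (m a) (n a)) := by
    unfold pT
    exact UPoly.add (UPoly.mul (c 4) (UPoly.add uell (c 1))) (c 1)
  have ups : UPoly (fun a => ps (m a) (n a)) := by
    unfold ps
    exact UPoly.add (UPoly.add (UPoly.mul (c 2) um) (UPoly.mul (c 2) un)) (c 3)
  have upk1 : UPoly (fun a => pk (m a) (n a) - 1) :=
    UPoly.of_le (NPC.Poly.sub upk.toPoly (NPC.Poly.const 1)) upk fun _ => Nat.sub_le _ _
  have upN : UPoly (fun a => pN (m a) (n a)) := by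
    unfold pN clen
    exact UPoly.mul (UPoly.mul (UPoly.add (UPoly.add uell (c 1)) (c 2)) upk1) upT
  have upy : UPoly (fun a => py (m a) (n a)) := by
    unfold py
    exact UPoly.add (UPoly.mul (c 2) (UPoly.add upN ups)) (c 20)
  have upR : UPoly (fun a => pR (m a) (n a)) := by
    unfold pR
    exact UPoly.add (UPoly.mul upN (UPoly.mul (UPoly.mul (c 2) ups) upy)) (c 2)
  have upK : UPoly (fun a => pK (m a) (n a)) := by
    unfold pK
    exact UPoly.mul ups upR
  have utot : UPoly (fun a => tot3 (m a) (n a)) := by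
    unfold tot3
    exact UPoly.mul upK (UPoly.add uell (c 1))
  exact ⟨uell, upk, upr, upT, ups, upy, upK, utot⟩

namespace TPAR

section pol

open Polynomial

noncomputable def EX : Polynomial ℕ := X * (X + (X + X))
noncomputable def SX : Polynomial ℕ := 2 * X + 2 * X + 3
noncomputable def GX : Polynomial ℕ := (X + X + 40 + X + 3) * (X * X + X)
noncomputable def RX : Polynomial ℕ := X + X + 40
noncomputable def KX : Polynomial ℕ := 8 * (RX * GX + 1)
noncomputable def TX : Polynomial ℕ := 4 * (EX + 1) + 1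
noncomputable def NX : Polynomial ℕ := (EX + 1 + 2) * KX * TX
noncomputable def YX : Polynomial ℕ := 2 * (NX + SX) + 20
noncomputable def RRX : Polynomial ℕ := NX * (2 * SX * YX) + 2
noncomputable def KKX : Polynomial ℕ := SX * RRX
noncomputable def T3X : Polynomial ℕ := KKX * (EX + 1)

end pol

theorem tot3_le (m n x : ℕ) (hm : m ≤ x) (hn : n ≤ x) : tot3 m n ≤ T3X.eval x := by
  have hE : ell m n ≤ EX.eval x := by
    have e : EX.eval x = x * (x + (x + x)) := by simp [EX]
    rw [e]
    unfold ell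
    gcongr
  have hS : ps m n ≤ SX.eval x := by
    have e : SX.eval x = 2 * x + 2 * x + 3 := by simp [SX]
    rw [e]
    unfold ps
    gcongr
  have hG : pg m n ≤ GX.eval x := by
    have e : GX.eval x = (x + x + 40 + x + 3) * (x * x + x) := by simp [GX]
    rw [e]
    unfold pg
    gcongr
  have hR : pr m n ≤ RX.eval x := by
    have e : RX.eval x = x + x + 40 := by simp [RX]
    rw [e]
    unfold pr
    gcongr
  have hK : pk m n ≤ KX.eval x := by
    have e : KX.eval x = 8 * (RX.eval x * GX.eval x + 1) := by simp [KX]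
    rw [e]
    unfold pk
    gcongr
  have hT : pT m n ≤ TX.eval x := by
    have e : TX.eval x = 4 * (EX.eval x + 1) + 1 := by simp [TX]
    rw [e]
    unfold pT
    gcongr
  have hK1 : pk m n - 1 ≤ KX.eval x := (Nat.sub_le _ _).trans hK
  have hN : pN m n ≤ NX.eval x := by
    have e : NX.eval x = (EX.eval x + 1 + 2) * KX.eval x * TX.eval x := by simp [NX]
    rw [e]
    unfold pN clen
    gcongr
  have hY : py m n ≤ YX.eval x := by
    have e : YX.eval x = 2 * (NX.eval x + SX.eval x) + 20 := by simp [YX]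
    rw [e]
    unfold py
    gcongr
  have hRR : pR m n ≤ RRX.eval x := by
    have e : RRX.eval x = NX.eval x * (2 * SX.eval x * YX.eval x) + 2 := by simp [RRX]
    rw [e]
    unfold pR
    gcongr
  have hKK : pK m n ≤ KKX.eval x := by
    have e : KKX.eval x = SX.eval x * RRX.eval x := by simp [KKX]
    rw [e]
    unfold pK
    gcongr
  have e : T3X.eval x = KKX.eval x * (EX.eval x + 1) := by simp [T3X]
  rw [e]
  unfold tot3
  gcongr

end TPAR

theorem t_POL3 : S_POL3 := by
  refine ⟨TPAR.T3X * (12 * Polynomial.X ^ 4 + 1) + 2, ?_⟩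
  intro m n _ _
  have h := TPAR.tot3_le m n (m + n) (by omega) (by omega)
  have e : (TPAR.T3X * (12 * Polynomial.X ^ 4 + 1) + 2).eval (m + n) =
      TPAR.T3X.eval (m + n) * (12 * (m + n) ^ 4 + 1) + 2 := by
    simp
  rw [e]
  have h2 : m ^ 4 ≤ (m + n) ^ 4 := Nat.pow_le_pow_left (by omega) 4
  constructor
  · have : TPAR.T3X.eval (m + n) * 1 ≤ TPAR.T3X.eval (m + n) * (12 * (m + n) ^ 4 + 1) :=
      Nat.mul_le_mul_left _ (by omega)
    omega
  · gcongr

end Pool.Agent.Y648.HO
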