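import Pool.Agent.Y648.HO.StmA

set_option autoImplicit false

/-!
# Numbers and control of the algorithm `smale3`
-/

namespace Pool.Agent.Y648.HO

open Pool.Agent.NPC Pool.Agent.NPC.ER Pool.Agent.NPC.H612 Pool.Agent.H558R2
  Pool.Agent.H622R3.SM

open Pool.Agent.H622R3.SM.TNUMS in
theorem t_NUMS3 : S_NUMS3 := by
  intro O m n A b k ans nums steps hm hrun
  have hM := h_MINOR
  have hS := t_SMALL
  have key : ∀ (k : ℕ) (h : List Outcome) (ρ : Reg → ℝ) (ans : Bool) (nums : List ℝ) (steps : ℕ),
      (∀ r ∈ baseReg, ρ r =
        start (fun i j => ((A i j : ℚ) : ℝ)) (fun i => ((b i : ℚ) : ℝ)) r) →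
      run O (smale3 m n) k h ρ = some (ans, nums, steps) →
      ∀ v ∈ nums, ∃ q : ℚ, (q : ℝ) = v ∧ bitLength q ≤ 30 * inputLength A b ^ 2 := by
    intro k
    induction k with
    | zero =>
      intro h ρ ans nums steps _ hr
      simp [run] at hr
    | succ k ih =>
      intro h ρ ans nums steps hρ hr
      by_cases h1 : h.length < tot3 m n
      · by_cases h2 : h.length % (ell m n + 1) < ell m n
        · obtain ⟨h', s', h3⟩ := run_ask O (smale3 m n) k h ρ (question m n h)
            (by simp [smale3, h1, h2]) ans nums steps hr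
          exact ih h' ρ ans nums s' hρ h3
        · obtain ⟨ρ', hex, hb, -⟩ := hM m n h (h.length / (ell m n + 1))
            (fun i j => ((A i j : ℚ) : ℝ), fun i => ((b i : ℚ) : ℝ)) ρ hm hρ
          obtain ⟨h', n', s', h3, h4⟩ := run_sign O (smale3 m n) k h ρ ρ'
            (minorProg m n h (h.length / (ell m n + 1))) _ [11]
            (by simp [smale3, h1, h2]) hex ans nums steps hr
          intro v hv
          rw [h4, List.mem_append] at hv
          rcases hv with hv | hv
          · rw [List.mem_map] at hv
            obtain ⟨I, hI, rfl⟩ := hv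
            exact hS m n h (h.length / (ell m n + 1)) A b hm I hI
          · exact ih h' ρ' ans n' s' hb h3 v hv
      · by_cases h2 : h.length = tot3 m n
        · obtain ⟨h', s', h3⟩ := run_ask O (smale3 m n) k h ρ (question m n h)
            (by simp [smale3, h2]) ans nums steps hr
          exact ih h' ρ ans nums s' hρ h3
        · have h5 := run_answer O (smale3 m n) k h ρ _
            (by rw [smale3, if_neg h1, if_neg h2]) ans nums steps hr
          intro v hv
          rw [h5] at hv
          simp at hv
  exact key k [] _ ans nums steps (fun r _ => rfl) hrun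

open Pool.Agent.H622R3.SM.TPC in
theorem poly_smale3 (hU : S_UP3) :
    Poly (fun p : HistIn => smale3 p.1.1.length p.1.2.length p.2) := by
  have hM := h_PM
  have hl1 : UPoly (fun p : HistIn => p.1.1.length) := UPoly.length (by fun_prop)
  have hl2 : UPoly (fun p : HistIn => p.1.2.length) := UPoly.length (by fun_prop)
  obtain ⟨u1, -, -, -, -, -, -, u8⟩ := hU HistIn _ _ hl1 hl2
  have hell : Poly (fun p : HistIn => ell p.1.1.length p.1.2.length) := u1.toPoly
  have htot : Poly (fun p : HistIn => tot3 p.1.1.length p.1.2.length) := u8.toPoly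
  have hlen : Poly (fun p : HistIn => p.2.length) := by fun_prop
  have hnil : Poly (fun _ : HistIn => ([] : List Instr)) := NPC.Poly.const _
  have hmod : Poly (fun p : HistIn => p.2.length % (ell p.1.1.length p.1.2.length + 1)) :=
    Poly.mod hlen (Poly.add hell (NPC.Poly.const 1))
  have hdiv : Poly (fun p : HistIn => p.2.length / (ell p.1.1.length p.1.2.length + 1)) :=
    Poly.div hlen (Poly.add hell (NPC.Poly.const 1))
  have hq : Poly (fun p : HistIn => (([] : List Instr),
      Test.ask (question p.1.1.length p.1.2.length p.2))) :=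
    Poly.pair hnil (poly_ask poly_question)
  have hprog : Poly (fun p : HistIn => (minorProg p.1.1.length p.1.2.length p.2
      (p.2.length / (ell p.1.1.length p.1.2.length + 1)), Test.sign [11])) := by
    have h2 : Poly (fun p : HistIn => (p, p.2.length / (ell p.1.1.length p.1.2.length + 1))) :=
      NPC.Poly.pair NPC.Poly.id hdiv
    have h3 := NPC.Poly.comp hM h2
    exact NPC.Poly.pair h3 (poly_sign (NPC.Poly.const [11]))
  have hans : Poly (fun p : HistIn => (([] : List Instr),
      Test.answer (decide ((p.2.reverse.head?).getD none = some true)))) := by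
    refine Poly.pair hnil (poly_answer ?_)
    fun_prop
  unfold smale3
  refine Poly.ite (Poly.decide_lt hlen htot) ?_ (Poly.ite (Poly.decide_eq hlen htot) hq hans)
  exact Poly.ite (Poly.decide_lt hmod hell) hq hprog

theorem t_PC3 (hU : S_UP3) : S_PC3 := t_COMP _ _ _ (poly_smale3 hU)

end Pool.Agent.Y648.HO
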