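import Pool.Agent.Y648.HO.Lrn

set_option autoImplicit false

/-!
# Counting strings: powers, and facts about the counting function
-/

namespace Pool.Agent.Y648.HO

namespace TPOW

theorem fin_len (L : ℕ) : {x : List Bool | x.length = L}.Finite := List.finite_length_eq Bool L

theorem fin_cnt (L : ℕ) (P : List Bool → Prop) : {x : List Bool | x.length = L ∧ P x}.Finite :=
  (fin_len L).subset fun _ hx => hx.1

theorem ncard_len (L : ℕ) : {x : List Bool | x.length = L}.ncard = 2 ^ L := by
  rw [← Nat.card_coe_set_eq]
  have h : Nat.card (List.Vector Bool L) = 2 ^ L := by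
    rw [Nat.card_eq_fintype_card, card_vector, Fintype.card_bool]
  exact h

theorem part_zero (L : ℕ) (a b : List Bool) (ha : a.length = L) : part L 0 (a ++ b) = a := by
  unfold part
  rw [zero_mul, List.drop_zero, ← ha, List.take_left]

theorem part_succ (L i : ℕ) (a b : List Bool) (ha : a.length = L) :
    part L (i + 1) (a ++ b) = part L i b := by
  unfold part
  have h : (i + 1) * L = a.length + i * L := by rw [ha]; ring
  rw [h, List.drop_append, List.drop_eq_nil_of_le (Nat.le_add_right _ _), List.nil_append,
    Nat.add_sub_cancel_left]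

end TPOW

open TPOW in
theorem t_POW : S_POW := by
  intro L r P
  induction r with
  | zero =>
    unfold cnt Pow
    have h : {x : List Bool | x.length = L * 0 ∧ ∀ i < 0, P (part L i x)} = {[]} := by
      ext x
      simp
    rw [h, Set.ncard_singleton, pow_zero]
  | succ r ih =>
    have himg : {x : List Bool | x.length = L * (r + 1) ∧ Pow L (r + 1) P x} =
        (fun p : List Bool × List Bool => p.1 ++ p.2) ''
          ({x : List Bool | x.length = L ∧ P x} ×ˢ
            {x : List Bool | x.length = L * r ∧ Pow L r P x}) := by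
      ext x
      constructor
      · rintro ⟨hx, hP⟩
        have hx' : x.length = L + L * r := by rw [hx]; ring
        have hlen : (x.take L).length = L := by
          rw [List.length_take, hx']
          exact min_eq_left (Nat.le_add_right _ _)
        refine ⟨(x.take L, x.drop L), ⟨⟨hlen, ?_⟩, ⟨?_, ?_⟩⟩, ?_⟩
        · have h0 := hP 0 (Nat.succ_pos r)
          have h1 := part_zero L (x.take L) (x.drop L) hlen
          rw [List.take_append_drop] at h1
          rwa [h1] at h0
        · simp only [List.length_drop]
          omega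
        · intro i hi
          have h0 := hP (i + 1) (Nat.succ_lt_succ hi)
          have h1 := part_succ L i (x.take L) (x.drop L) hlen
          rw [List.take_append_drop] at h1
          rwa [h1] at h0
        · exact List.take_append_drop L x
      · rintro ⟨⟨a, b⟩, ⟨⟨ha, hPa⟩, ⟨hb, hPb⟩⟩, rfl⟩
        simp only at ha hPa hb hPb
        refine ⟨?_, ?_⟩
        · simp only [List.length_append]
          rw [ha, hb]; ring
        · intro i hi
          rcases i with _ | i
          · simp only
            rw [part_zero L a b ha]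
            exact hPa
          · simp only
            rw [part_succ L i a b ha]
            exact hPb i (Nat.lt_of_succ_lt_succ hi)
    have hcard : cnt (L * (r + 1)) (Pow L (r + 1) P) = cnt L P * cnt (L * r) (Pow L r P) := by
      unfold cnt
      rw [himg, Set.InjOn.ncard_image, Set.ncard_prod]
      rintro ⟨a, b⟩ ⟨⟨ha, -⟩, -⟩ ⟨a', b'⟩ ⟨⟨ha', -⟩, -⟩ hab
      simp only at ha ha' hab
      have h := List.append_inj hab (ha.trans ha'.symm)
      rw [h.1, h.2]
    rw [hcard, ih, pow_succ]
    ring

open TPOW in
theorem t_CNT : S_CNT := by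
  refine ⟨?_, ?_, ?_, ?_⟩
  · intro L P
    rw [← ncard_len L]
    exact Set.ncard_le_ncard (fun x hx => hx.1) (fin_len L)
  · intro L P P' h
    exact Set.ncard_le_ncard (fun x hx => ⟨hx.1, h x hx.1 hx.2⟩) (fin_cnt L P')
  · intro L P
    unfold cnt
    rw [Nat.succ_le_iff, Set.ncard_pos (fin_cnt L P)]
    rfl
  · intro L P P₁ P₂ h
    have hU : {x : List Bool | x.length = L ∧ P x} =
        {x : List Bool | x.length = L ∧ P₁ x} ∪ {x : List Bool | x.length = L ∧ P₂ x} := by
      ext x
      constructor
      · rintro ⟨hx, hP⟩
        rcases (h x hx).1 hP with h1 | h2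
        · exact Or.inl ⟨hx, h1⟩
        · exact Or.inr ⟨hx, h2⟩
      · rintro (⟨hx, h1⟩ | ⟨hx, h2⟩)
        · exact ⟨hx, (h x hx).2 (Or.inl h1)⟩
        · exact ⟨hx, (h x hx).2 (Or.inr h2)⟩
    refine ⟨?_, ?_⟩
    · unfold cnt
      rw [hU]
      exact Set.ncard_union_le _ _
    · intro hd
      unfold cnt
      rw [hU]
      refine Set.ncard_union_eq ?_ (fin_cnt L P₁) (fin_cnt L P₂)
      rw [Set.disjoint_left]
      rintro x ⟨hx, h1⟩ ⟨-, h2⟩
      exact hd x hx ⟨h1, h2⟩

end Pool.Agent.Y648.HO
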