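import Pool.Agent.Y648.HO.StmA

set_option autoImplicit false

/-!
# Questions and strings (helper941)
-/

namespace Pool.Agent.Y648.HO

open Pool.Agent.NPC Pool.Agent.NPC.ER Pool.Agent.H558R2 Pool.Agent.H622R3.SM

namespace TQB

theorem bitsAt_length (m n : ℕ) (h : List Outcome) (q : ℕ) :
    (bitsAt m n h q).length = ell m n := by
  simp [bitsAt]

theorem colOf_bits (m n : ℕ) (h : List Outcome) (q j : ℕ) (hj : j < m) :
    colOf m n h q j = colOf m n ((bitsAt m n h q).map some) 0 j := by
  unfold colOf
  congr 2
  apply List.filter_congr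
  intro k hk
  rw [List.mem_range] at hk
  have h1 : j * (m + (n + n)) + k < ell m n := by
    unfold ell
    have h2 : (j + 1) * (m + (n + n)) ≤ m * (m + (n + n)) := Nat.mul_le_mul_right _ hj
    have h3 : (j + 1) * (m + (n + n)) = j * (m + (n + n)) + (m + (n + n)) := by ring
    omega
  have h2 : ((bitsAt m n h q).map some).getD
      (0 * (ell m n + 1) + j * (m + (n + n)) + k) none =
      some (decide (h.getD (q * (ell m n + 1) + (j * (m + (n + n)) + k)) none = some true)) := by
    rw [Nat.zero_mul, Nat.zero_add, List.getD_eq_getElem?_getD]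
    unfold bitsAt
    rw [List.getElem?_map, List.getElem?_map, List.getElem?_range h1]
    rfl
  rw [h2, Nat.add_assoc]
  simp

theorem beta_bits (m n : ℕ) (h : List Outcome) (q : ℕ) :
    beta m n h q = beta m n ((bitsAt m n h q).map some) 0 := by
  funext j
  unfold beta
  simp only [colOf_bits m n h q j j.2]

theorem item_iff (m n : ℕ) (a : Inp m n) (u : List Bool) (o : Outcome) :
    (∀ p ∈ item u o, bin m n a p.1 = p.2) ↔ sgn m n a u = o := by
  have h : (∀ p ∈ item u o, bin m n a p.1 = p.2) ↔
      (decide (sgn m n a u = some true) = decide (o = some true) ∧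
        decide (sgn m n a u = some false) = decide (o = some false)) := by
    unfold item
    simp only [List.mem_cons, List.not_mem_nil, or_false, forall_eq_or_imp, forall_eq, bin]
  rw [h]
  generalize sgn m n a u = v
  rcases v with _ | _ | _ <;> rcases o with _ | _ | _ <;> simp

end TQB

theorem t_QB : S_QB := by
  intro m n h q hm
  refine ⟨?_, TQB.bitsAt_length m n h q, TQB.beta_bits m n h q, ?_⟩
  · unfold oracle3 question
    rw [bits_mem_lang]
    simp only [List.length_replicate]
    exact ⟨fun h => h.2, fun h => ⟨hm, h⟩⟩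
  · intro a u _
    exact ⟨rfl, rfl, TQB.item_iff m n a u⟩

end Pool.Agent.Y648.HO
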