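import Pool.Agent.Y648.HO.StmA

set_option autoImplicit false

/-!
# One round of the algorithm (helper941)
-/

namespace Pool.Agent.Y648.HO

open Pool.Agent.NPC Pool.Agent.NPC.ER Pool.Agent.H558R2 Pool.Agent.H622R3.SM

namespace TRND

/-! ### Stability -/

theorem bitsAt_app (m n : ℕ) (h t : List Outcome) (q : ℕ)
    (hq : q * (ell m n + 1) + ell m n ≤ h.length) :
    bitsAt m n (h ++ t) q = bitsAt m n h q := by
  unfold bitsAt
  apply List.map_congr_left
  intro i hi
  rw [List.mem_range] at hi
  rw [TSTAB.getD_app h t _ (by omega)]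

theorem recd_app (m n : ℕ) (h t : List Outcome) (q : ℕ)
    (hq : (q + 1) * (ell m n + 1) ≤ h.length) :
    recd m n (h ++ t) q = recd m n h q := (t_STAB m n h t q).2 hq

theorem le_of_succ (e q L : ℕ) (h : (q + 1) * (e + 1) ≤ L) : q * (e + 1) + e ≤ L := by
  have : (q + 1) * (e + 1) = q * (e + 1) + (e + 1) := by ring
  omega

theorem itemsOf_app (m n K : ℕ) (h t : List Outcome) (hK : K * (ell m n + 1) ≤ h.length) :
    itemsOf m n K (h ++ t) = itemsOf m n K h := by
  unfold itemsOf
  apply List.flatMap_congr
  intro q hq
  rw [List.mem_range] at hq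
  have h1 : (q + 1) * (ell m n + 1) ≤ h.length :=
    (Nat.mul_le_mul_right _ hq).trans hK
  rw [bitsAt_app m n h t q (le_of_succ _ _ _ h1), recd_app m n h t q h1]

/-! ### The bits of the present round -/

/-- The bits chosen so far, if the present round is round number `i`. -/
def preI (m n i : ℕ) (h : List Outcome) : List Bool :=
  ((List.range (h.length / (ell m n + 1) - i * ps m n)).flatMap fun j =>
      bitsAt m n h (i * ps m n + j)) ++
    (h.drop (h.length / (ell m n + 1) * (ell m n + 1))).map fun o => decide (o = some true)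

theorem div_eq (e K o L : ℕ) (h : L = K * (e + 1) + o) (ho : o ≤ e) : L / (e + 1) = K := by
  rw [h, Nat.mul_comm, Nat.mul_add_div (by omega), Nat.div_eq_of_lt (by omega), Nat.add_zero]

theorem preI_eq (m n i J o : ℕ) (g : List Outcome)
    (hg : g.length = (i * ps m n + J) * (ell m n + 1) + o) (ho : o ≤ ell m n) :
    preI m n i g = ((List.range J).flatMap fun j => bitsAt m n g (i * ps m n + j)) ++
      (g.drop ((i * ps m n + J) * (ell m n + 1))).map fun o => decide (o = some true) := by
  unfold preI
  rw [div_eq (ell m n) (i * ps m n + J) o _ hg ho, Nat.add_sub_cancel_left]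

theorem flat_length {α : Type} (l : List (List α)) (e : ℕ) (h : ∀ u ∈ l, u.length = e) :
    l.flatten.length = l.length * e := by
  induction l with
  | nil => simp
  | cons a l ih =>
    rw [List.flatten_cons, List.length_append, ih (fun u hu => h u (by simp [hu])),
      h a (by simp), List.length_cons]
    ring

theorem flatMap_length (J e : ℕ) (f : ℕ → List Bool) (h : ∀ j, (f j).length = e) :
    ((List.range J).flatMap f).length = J * e := by
  rw [List.flatMap_def, flat_length _ e (by
    intro u hu
    rw [List.mem_map] at hu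
    obtain ⟨j, _, rfl⟩ := hu
    exact h j)]
  simp

theorem bitsAt_length (m n : ℕ) (h : List Outcome) (q : ℕ) :
    (bitsAt m n h q).length = ell m n := by
  simp [bitsAt]

theorem preI_length (m n i J o : ℕ) (g : List Outcome)
    (hg : g.length = (i * ps m n + J) * (ell m n + 1) + o) (ho : o ≤ ell m n) :
    (preI m n i g).length = J * ell m n + o := by
  rw [preI_eq m n i J o g hg ho, List.length_append,
    flatMap_length J (ell m n) _ (fun j => bitsAt_length m n g _), List.length_map,
    List.length_drop, hg]
  omega

theorem range_app (m n i J : ℕ) (g t : List Outcome)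
    (hg : (i * ps m n + J) * (ell m n + 1) ≤ g.length) :
    ((List.range J).flatMap fun j => bitsAt m n (g ++ t) (i * ps m n + j)) =
      (List.range J).flatMap fun j => bitsAt m n g (i * ps m n + j) := by
  apply List.flatMap_congr
  intro j hj
  rw [List.mem_range] at hj
  apply bitsAt_app
  apply le_of_succ
  exact (Nat.mul_le_mul_right _ (by omega)).trans hg

theorem preI_bit (m n i J o : ℕ) (g : List Outcome) (x : Outcome)
    (hg : g.length = (i * ps m n + J) * (ell m n + 1) + o) (ho : o < ell m n) :
    preI m n i (g ++ [x]) = preI m n i g ++ [decide (x = some true)] := by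
  rw [preI_eq m n i J o g hg ho.le, preI_eq m n i J (o + 1) (g ++ [x])
    (by rw [List.length_append, hg]; simp; omega) ho, range_app m n i J g [x] (by omega),
    List.drop_append_of_le_length (by omega), List.map_append, List.append_assoc]
  rfl

theorem bitsAt_last (m n K : ℕ) (g : List Outcome) (x : Outcome)
    (hg : g.length = K * (ell m n + 1) + ell m n) :
    bitsAt m n (g ++ [x]) K =
      (g.drop (K * (ell m n + 1))).map fun o => decide (o = some true) := by
  rw [bitsAt_app m n g [x] K (by omega)]
  have h3 : bitsAt m n g K = (List.range (ell m n)).map fun i =>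
      decide (g.getD (K * (ell m n + 1) + i) none = some true) := rfl
  rw [h3]
  apply List.ext_getElem
  · rw [List.length_map, List.length_range, List.length_map, List.length_drop, hg]
    omega
  · intro i h1 h2
    rw [List.length_map, List.length_range] at h1
    rw [List.getElem_map, List.getElem_map, List.getElem_range, List.getElem_drop,
      List.getD_eq_getElem _ _ (by omega)]

theorem preI_sign (m n i J : ℕ) (g : List Outcome) (x : Outcome)
    (hg : g.length = (i * ps m n + J) * (ell m n + 1) + ell m n) :
    preI m n i (g ++ [x]) = preI m n i g := by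
  have hl : (g ++ [x]).length = (i * ps m n + (J + 1)) * (ell m n + 1) + 0 := by
    rw [List.length_append, hg, List.length_singleton]; ring
  rw [preI_eq m n i J (ell m n) g hg le_rfl, preI_eq m n i (J + 1) 0 (g ++ [x]) hl
    (Nat.zero_le _), List.range_succ, List.flatMap_append, range_app m n i J g [x] (by omega)]
  have h1 : (g ++ [x]).drop ((i * ps m n + (J + 1)) * (ell m n + 1)) = [] := by
    apply List.drop_eq_nil_of_le
    omega
  rw [h1, List.map_nil, List.append_nil, List.flatMap_cons, List.flatMap_nil, List.append_nil,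
    bitsAt_last m n (i * ps m n + J) g x hg]

theorem ps_pos (m n : ℕ) : 0 < ps m n := by unfold ps; omega

theorem pre_eq (m n i J o : ℕ) (g : List Outcome)
    (hg : g.length = (i * ps m n + J) * (ell m n + 1) + o) (ho : o ≤ ell m n)
    (hJ : J < ps m n) : rnd m n g = i ∧ pre m n g = preI m n i g := by
  have h1 : rnd m n g = i := by
    unfold rnd
    rw [div_eq (ell m n) (i * ps m n + J) o _ hg ho, Nat.mul_comm,
      Nat.mul_add_div (ps_pos m n), Nat.div_eq_of_lt hJ, Nat.add_zero]
  refine ⟨h1, ?_⟩
  unfold pre preI
  rw [h1]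

theorem prefix_next {α : Type} (l L : List α) (h : l <+: L) (hl : l.length < L.length) :
    ∃ c, (l ++ [c]) <+: L := by
  obtain ⟨t, rfl⟩ := h
  cases t with
  | nil => simp at hl
  | cons c t => exact ⟨c, ⟨t, by simp⟩⟩

/-! ### Invariants -/

/-- The recorded signs of the minors determined so far are those of the input `a`. -/
def PC (m n : ℕ) (g : List Outcome) (a : Inp m n) : Prop :=
  ∀ q, (q + 1) * (ell m n + 1) ≤ g.length → sgn m n a (bitsAt m n g q) = recd m n g q

/-- There is a good block which starts with the chosen bits. -/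
def GB (m n i : ℕ) (H : LS) (g : List Outcome) : Prop :=
  ∃ U : List (List Bool), U.length = ps m n ∧ (∀ u ∈ U, u.length = ell m n) ∧
    GoodLP m n H U ∧ preI m n i g <+: U.flatten

theorem tot3_eq (m n : ℕ) : tot3 m n = pR m n * (ps m n * (ell m n + 1)) := by
  unfold tot3 pK; ring

theorem coords (s e i L r : ℕ) (hL : L + (r + 1) = (i + 1) * (s * (e + 1)))
    (hi : i * (s * (e + 1)) ≤ L) :
    ∃ J o, J < s ∧ o ≤ e ∧ L = (i * s + J) * (e + 1) + o := by
  obtain ⟨t, rfl⟩ := Nat.exists_eq_add_of_le hi
  have h1 : t < s * (e + 1) := by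
    have : (i + 1) * (s * (e + 1)) = i * (s * (e + 1)) + s * (e + 1) := by ring
    omega
  refine ⟨t / (e + 1), t % (e + 1), ?_, ?_, ?_⟩
  · exact Nat.div_lt_of_lt_mul (by rwa [Nat.mul_comm])
  · exact Nat.le_of_lt_succ (Nat.mod_lt _ (Nat.succ_pos _))
  · have := Nat.div_add_mod t (e + 1)
    calc i * (s * (e + 1)) + t = i * (s * (e + 1)) + ((e + 1) * (t / (e + 1)) + t % (e + 1)) := by
          rw [this]
      _ = _ := by ring

theorem mod_eq (e K o L : ℕ) (h : L = K * (e + 1) + o) (ho : o ≤ e) : L % (e + 1) = o := by
  rw [h, Nat.mul_comm, Nat.mul_add_mod, Nat.mod_eq_of_lt (by omega)]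

theorem main (hQB : S_QB) (m n : ℕ) (a : Inp m n) (hm : 1 ≤ m) (i : ℕ) (hi : i < pR m n)
    (H : LS) : ∀ (r : ℕ) (g : List Outcome) (ρ : Reg → ℝ),
      g.length + r = (i + 1) * (ps m n * (ell m n + 1)) →
      i * (ps m n * (ell m n + 1)) ≤ g.length → itemsOf m n (i * ps m n) g = H →
      PC m n g a → GB m n i H g → (∀ x ∈ baseReg, ρ x = start a.1 a.2 x) →
      ∃ (h' : List Outcome) (ρ' : Reg → ℝ) (l : List ℝ) (st : ℕ),
        h'.length = (i + 1) * (ps m n * (ell m n + 1)) ∧ itemsOf m n (i * ps m n) h' = H ∧
        PC m n h' a ∧ GB m n i H h' ∧ (∀ x ∈ baseReg, ρ' x = start a.1 a.2 x) ∧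
        st ≤ r * (12 * m ^ 4 + 1) ∧
        ∀ (k : ℕ) (ans : Bool) (nums : List ℝ) (steps : ℕ),
          run oracle3 (smale3 m n) k h' ρ' = some (ans, nums, steps) →
          run oracle3 (smale3 m n) (r + k) g ρ = some (ans, l ++ nums, st + steps) := by
  intro r
  induction r with
  | zero =>
    intro g ρ hlen _ hH hpc hgb hρ
    refine ⟨g, ρ, [], 0, by omega, hH, hpc, hgb, hρ, by omega, ?_⟩
    intro k ans nums steps hr
    simpa using hr
  | succ r ih =>
    intro g ρ hlen hge hH hpc hgb hρ
    have hlt : g.length < tot3 m n := by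
      rw [tot3_eq]
      have : (i + 1) * (ps m n * (ell m n + 1)) ≤ pR m n * (ps m n * (ell m n + 1)) :=
        Nat.mul_le_mul_right _ hi
      omega
    obtain ⟨J, o, hJ, ho, hL⟩ := coords (ps m n) (ell m n) i g.length r hlen hge
    have hK : i * ps m n * (ell m n + 1) ≤ g.length := by
      rw [Nat.mul_assoc]; exact hge
    have hH' : ∀ x : Outcome, itemsOf m n (i * ps m n) (g ++ [x]) = H := by
      intro x
      rw [itemsOf_app m n _ g [x] hK, hH]
    have hge' : ∀ x : Outcome, i * (ps m n * (ell m n + 1)) ≤ (g ++ [x]).length := by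
      intro x
      rw [List.length_append]
      omega
    have hlen' : ∀ x : Outcome, (g ++ [x]).length + r = (i + 1) * (ps m n * (ell m n + 1)) := by
      intro x
      rw [List.length_append, List.length_singleton]
      omega
    have hmodo := mod_eq (ell m n) (i * ps m n + J) o _ hL ho
    have hdivo := div_eq (ell m n) (i * ps m n + J) o _ hL ho
    by_cases hmod : o < ell m n
    · -- a question to the oracle
      have hα : smale3 m n g = ([], Test.ask (question m n g)) := by
        unfold smale3
        rw [if_pos hlt, if_pos (by rw [hmodo]; exact hmod)]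
      classical
      obtain ⟨b, hb⟩ : ∃ b : Bool, b = decide (question m n g ∈ oracle3) := ⟨_, rfl⟩
      have hbi : b = true ↔ question m n g ∈ oracle3 := by rw [hb]; simp
      have hQ := (hQB m n g 0 hm).1
      obtain ⟨hrnd, hpre⟩ := pre_eq m n i J o g hL ho hJ
      have hpc' : PC m n (g ++ [some b]) a := by
        intro q hq
        have hq' : (q + 1) * (ell m n + 1) ≤ g.length := by
          by_contra hc
          have he : (q + 1) * (ell m n + 1) = g.length + 1 := by
            simp only [List.length_append, List.length_singleton] at hq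
            omega
          have h2 : g.length = q * (ell m n + 1) + ell m n := by
            have : (q + 1) * (ell m n + 1) = q * (ell m n + 1) + (ell m n + 1) := by ring
            omega
          have := mod_eq (ell m n) q (ell m n) _ h2 le_rfl
          omega
        rw [bitsAt_app m n g _ q (le_of_succ _ _ _ hq'), recd_app m n g _ q hq']
        exact hpc q hq'
      have hgb' : GB m n i H (g ++ [some b]) := by
        unfold GB
        rw [preI_bit m n i J o g (some b) hL hmod]
        obtain ⟨U, hU1, hU2, hU3, hU4⟩ := hgb
        by_cases hQq : Quest m n g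
        · have hbt : b = true := hbi.2 (hQ.2 hQq)
          rw [hbt]
          have hUl : (preI m n i g).length < U.flatten.length := by
            rw [preI_length m n i J o g hL ho, flat_length U (ell m n) hU2, hU1]
            have : (J + 1) * ell m n ≤ ps m n * ell m n := Nat.mul_le_mul_right _ hJ
            have h2 : (J + 1) * ell m n = J * ell m n + ell m n := by ring
            omega
          obtain ⟨c, hc⟩ := prefix_next _ _ hU4 hUl
          have hct : c = true := by
            by_contra hcf
            have hcf' : c = false := by simpa using hcf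
            rcases hQq with ⟨_, hno⟩ | ⟨hlen2, _⟩
            · apply hno
              refine ⟨U, hU1, hU2, ?_, ?_⟩
              · rw [hrnd, hH]; exact hU3
              · rw [hpre, ← hcf']; exact hc
            · omega
          refine ⟨U, hU1, hU2, hU3, ?_⟩
          rw [hct] at hc
          simpa using hc
        · have hbf : b = false := by
            by_contra hbt
            exact hQq (hQ.1 (hbi.1 (by simpa using hbt)))
          rw [hbf]
          have : ∃ U : List (List Bool), U.length = ps m n ∧
              (∀ u ∈ U, u.length = ell m n) ∧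
              GoodLP m n (itemsOf m n (rnd m n g * ps m n) g) U ∧
              (pre m n g ++ [false]) <+: U.flatten := by
            by_contra hno
            exact hQq (Or.inl ⟨hlt, hno⟩)
          obtain ⟨V, hV1, hV2, hV3, hV4⟩ := this
          rw [hrnd, hH] at hV3
          rw [hpre] at hV4
          refine ⟨V, hV1, hV2, hV3, ?_⟩
          simpa using hV4
      obtain ⟨h', ρ', l, st, e1, e2, e3, e4, e5, e6, e7⟩ :=
        ih (g ++ [some b]) ρ (hlen' _) (hge' _) (hH' _) hpc' hgb' hρ
      refine ⟨h', ρ', l, 1 + st, e1, e2, e3, e4, e5, ?_, ?_⟩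
      · have : (r + 1) * (12 * m ^ 4 + 1) = r * (12 * m ^ 4 + 1) + (12 * m ^ 4 + 1) := by ring
        omega
      · intro k ans nums steps hr
        have h1 := e7 k ans nums steps hr
        have h2 := TRUN.run_ask oracle3 (smale3 m n) (r + k) g ρ _ hα b hbi _ _ _ h1
        rw [show r + 1 + k = r + k + 1 by ring, h2, Nat.add_assoc]
    · -- the sign of a minor
      have hoe : o = ell m n := by omega
      subst hoe
      have hα : smale3 m n g =
          (minorProg m n g (i * ps m n + J), Test.sign [11]) := by
        unfold smale3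
        rw [if_pos hlt, if_neg (by rw [hmodo]; exact hmod), hdivo]
      obtain ⟨ρ₁, hex, hbase, h11⟩ := h_MINOR m n g (i * ps m n + J) a ρ hm hρ
      have hpc' : PC m n (g ++ [signOut (ρ₁ [11])]) a := by
        intro q' hq'
        simp only [List.length_append, List.length_singleton] at hq'
        have hle : q' ≤ i * ps m n + J := by
          by_contra hc
          have : (i * ps m n + J + 1 + 1) * (ell m n + 1) ≤ (q' + 1) * (ell m n + 1) :=
            Nat.mul_le_mul_right _ (by omega)
          have e : (i * ps m n + J + 1 + 1) * (ell m n + 1) =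
            (i * ps m n + J) * (ell m n + 1) + 2 * (ell m n + 1) := by ring
          omega
        rcases Nat.lt_or_eq_of_le hle with hlt' | rfl
        · have hq'' : (q' + 1) * (ell m n + 1) ≤ g.length := by
            have : (q' + 1) * (ell m n + 1) ≤ (i * ps m n + J) * (ell m n + 1) :=
              Nat.mul_le_mul_right _ hlt'
            omega
          rw [bitsAt_app m n g _ q' (le_of_succ _ _ _ hq''), recd_app m n g _ q' hq'']
          exact hpc q' hq''
        · unfold sgn
          rw [← (hQB m n (g ++ [signOut (ρ₁ [11])]) (i * ps m n + J) hm).2.2.1,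
            ((t_STAB m n g _ (i * ps m n + J)).1 (le_of_eq hL.symm)).1, ← h11]
          unfold recd
          rw [← hL]
          simp
      have hgb' : GB m n i H (g ++ [signOut (ρ₁ [11])]) := by
        unfold GB
        rw [preI_sign m n i J g _ hL]
        exact hgb
      obtain ⟨h', ρ', l, st, e1, e2, e3, e4, e5, e6, e7⟩ :=
        ih (g ++ [signOut (ρ₁ [11])]) ρ₁ (hlen' _) (hge' _) (hH' _) hpc' hgb' hbase
      refine ⟨h', ρ', ((minorProg m n g (i * ps m n + J)).map fun I =>
        vreg m n g (i * ps m n + J) a I.dst) ++ l,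
        (minorProg m n g (i * ps m n + J)).length + 1 + st, e1, e2, e3, e4, e5, ?_, ?_⟩
      · have hl := t_LEN m n g (i * ps m n + J) hm
        have : (r + 1) * (12 * m ^ 4 + 1) = r * (12 * m ^ 4 + 1) + (12 * m ^ 4 + 1) := by ring
        omega
      · intro k ans nums steps hr
        have h1 := e7 k ans nums steps hr
        have h2 := TRUN.run_sign oracle3 (smale3 m n) (r + k) g ρ ρ₁ _ _ _ hα hex _ _ _ h1
        rw [show r + 1 + k = r + k + 1 by ring, h2, List.length_map, List.append_assoc,
          Nat.add_assoc _ st steps]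

theorem flatten_inj : ∀ (U V : List (List Bool)) (e : ℕ), U.length = V.length →
    (∀ u ∈ U, u.length = e) → (∀ v ∈ V, v.length = e) → U.flatten = V.flatten → U = V := by
  intro U
  induction U with
  | nil =>
    intro V e hl _ _ _
    symm
    apply List.eq_nil_of_length_eq_zero
    rw [← hl]; rfl
  | cons u U ih =>
    intro V e hl hU hV hf
    cases V with
    | nil => simp at hl
    | cons v V =>
      rw [List.flatten_cons, List.flatten_cons] at hf
      have h1 : u.length = v.length := by
        rw [hU u (by simp), hV v (by simp)]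
      obtain ⟨h2, h3⟩ := List.append_inj hf h1
      rw [h2, ih V e (by simpa using hl) (fun x hx => hU x (by simp [hx]))
        (fun x hx => hV x (by simp [hx])) h3]

theorem itemsOf_round (m n i : ℕ) (g : List Outcome) :
    itemsOf m n ((i + 1) * ps m n) g = itemsOf m n (i * ps m n) g ++
      items ((List.range (ps m n)).map fun j => bitsAt m n g (i * ps m n + j))
        ((List.range (ps m n)).map fun j => recd m n g (i * ps m n + j)) := by
  unfold itemsOf items
  rw [show (i + 1) * ps m n = i * ps m n + ps m n by ring, List.range_add, List.flatMap_append]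
  congr 1
  rw [List.flatMap_map, List.zip_map', List.flatMap_map]

theorem mem_itemsOf (hQB : S_QB) (m n K : ℕ) (hm : 1 ≤ m) (a : Inp m n) (h : List Outcome)
    (hc : ∀ q < K, sgn m n a (bitsAt m n h q) = recd m n h q) :
    ∀ p ∈ itemsOf m n K h, p.1.length = ell m n + 1 ∧ bin m n a p.1 = p.2 := by
  intro p hp
  unfold itemsOf at hp
  rw [List.mem_flatMap] at hp
  obtain ⟨q, hq, hp⟩ := hp
  rw [List.mem_range] at hq
  constructor
  · unfold item at hp
    simp only [List.mem_cons, List.not_mem_nil, or_false] at hp
    rcases hp with rfl | rfl <;> simp [bitsAt_length]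
  · have h1 := ((hQB m n h q hm).2.2.2 a (bitsAt m n h q) (bitsAt_length m n h q)).2.2
      (recd m n h q)
    exact h1.2 (hc q hq) p hp

end TRND

open TRND in
theorem t_ROUND : S_QB → S_ALLG → S_GLP → S_ROUND := by
  intro hQB hALL hGLP m n a hm i h ρ hi hlen hc hρ
  have hK : ∀ q, (q + 1) * (ell m n + 1) ≤ h.length → q < i * ps m n := by
    intro q hq
    rw [hlen, ← Nat.mul_assoc] at hq
    have := Nat.le_of_mul_le_mul_right hq (Nat.succ_pos _)
    omega
  have hpc : PC m n h a := fun q hq => hc q (hK q hq)
  obtain ⟨_, U, hU1, hU2, hU3⟩ := hALL m n hm a (itemsOf m n (i * ps m n) h)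
    (mem_itemsOf hQB m n _ hm a h hc)
  have hL : h.length = (i * ps m n + 0) * (ell m n + 1) + 0 := by
    rw [hlen]; ring
  have hgb : GB m n i (itemsOf m n (i * ps m n) h) h := by
    refine ⟨U, hU1, hU2, hU3, ?_⟩
    have : preI m n i h = [] := by
      apply List.eq_nil_of_length_eq_zero
      rw [preI_length m n i 0 0 h hL (Nat.zero_le _)]
      simp
    rw [this]
    exact List.nil_prefix
  obtain ⟨h', ρ', l, st, e1, e2, e3, ⟨V, hV1, hV2, hV3, hV4⟩, e5, e6, e7⟩ :=
    main hQB m n a hm i hi (itemsOf m n (i * ps m n) h) (ps m n * (ell m n + 1)) h ρ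
      (by rw [hlen]; ring) (le_of_eq hlen.symm) rfl hpc hgb hρ
  have hL' : h'.length = (i * ps m n + ps m n) * (ell m n + 1) + 0 := by
    rw [e1]; ring
  have hfull : preI m n i h' = V.flatten := by
    apply hV4.eq_of_length
    rw [preI_length m n i _ 0 h' hL' (Nat.zero_le _), flat_length V _ hV2, hV1]
    rfl
  have hV : V = (List.range (ps m n)).map fun j => bitsAt m n h' (i * ps m n + j) := by
    apply flatten_inj V _ (ell m n)
    · simp [hV1]
    · exact hV2
    · intro v hv
      rw [List.mem_map] at hv
      obtain ⟨j, _, rfl⟩ := hv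
      exact bitsAt_length _ _ _ _
    · rw [← hfull, preI_eq m n i _ 0 h' hL' (Nat.zero_le _)]
      have h1 : h'.drop ((i * ps m n + ps m n) * (ell m n + 1)) = [] := by
        apply List.drop_eq_nil_of_le
        omega
      rw [h1, List.map_nil, List.append_nil, List.flatMap_def]
  have hit : itemsOf m n ((i + 1) * ps m n) h' = itemsOf m n (i * ps m n) h ++
      items V ((List.range (ps m n)).map fun j => recd m n h' (i * ps m n + j)) := by
    rw [itemsOf_round, e2, ← hV]
  refine ⟨h', ρ', l, st, e1, ?_, e5, ?_, ?_, e6, e7⟩
  · intro q hq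
    apply e3
    rw [e1, ← Nat.mul_assoc]
    exact Nat.mul_le_mul_right _ hq
  · intro p hp
    rw [hit]
    exact List.mem_append_left _ hp
  · rw [hit]
    exact (hGLP m n hm (itemsOf m n (i * ps m n) h) V).2 hV3 _ (by simp)

end Pool.Agent.Y648.HO
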