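import Pool.Agent.Y648.HO.StmA
import Pool.Agent.H622R3.SM.T_RUN

set_option autoImplicit false

/-!
# The run of the algorithm (helper664, job Y648-H17)
-/

namespace Pool.Agent.Y648.HO

open Pool.Agent.NPC Pool.Agent.NPC.ER Pool.Agent.H558R2 Pool.Agent.H622R3.SM
open Pool.Agent.H620R2.Gauge (Oracle IsPH)

namespace TRUN3

/-- A larger list of labels is decided if a smaller one is. -/
theorem dcd_mono (m n : ℕ) (H H' : LS) (hs : ∀ p ∈ H, p ∈ H') (hd : Dcd m n H) : Dcd m n H' := by
  rintro ⟨⟨a, ha, hf⟩, ⟨b, hb, hf'⟩⟩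
  exact hd ⟨⟨a, fun p hp => ha p (hs p hp), hf⟩, ⟨b, fun p hp => hb p (hs p hp), hf'⟩⟩

/-- The recorded labels are the labels of the input. -/
theorem items_right (hQ : S_QB) (m n : ℕ) (hm : 1 ≤ m) (a : Inp m n) (h : List Outcome) (K : ℕ)
    (hh : ∀ q < K, sgn m n a (bitsAt m n h q) = recd m n h q) :
    ∀ p ∈ itemsOf m n K h, bin m n a p.1 = p.2 := by
  intro p hp
  unfold itemsOf at hp
  rw [List.mem_flatMap] at hp
  obtain ⟨q, hq, hpq⟩ := hp
  obtain ⟨_, hl, _, hb⟩ := hQ m n h q hm
  exact ((hb a (bitsAt m n h q) hl).2.2 (recd m n h q)).2 (hh q (List.mem_range.1 hq)) p hpq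

/-- The first `i` rounds. -/
theorem rounds (hR : S_ROUND) (m n : ℕ) (a : Inp m n) (hm : 1 ≤ m) : ∀ i : ℕ, i ≤ pR m n →
    ∃ (h : List Outcome) (ρ : Reg → ℝ) (l : List ℝ) (st : ℕ),
      h.length = i * (ps m n * (ell m n + 1)) ∧
      (∀ q < i * ps m n, sgn m n a (bitsAt m n h q) = recd m n h q) ∧
      (∀ x ∈ baseReg, ρ x = start a.1 a.2 x) ∧
      (Dcd m n (itemsOf m n (i * ps m n) h) ∨
        levV m n (itemsOf m n (i * ps m n) h) + i ≤ levV m n (itemsOf m n (0 * ps m n) [])) ∧
      st ≤ i * (ps m n * (ell m n + 1) * (12 * m ^ 4 + 1)) ∧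
      ∀ (k : ℕ) (ans : Bool) (nums : List ℝ) (steps : ℕ),
        run oracle3 (smale3 m n) k h ρ = some (ans, nums, steps) →
        run oracle3 (smale3 m n) (i * (ps m n * (ell m n + 1)) + k) [] (start a.1 a.2) =
          some (ans, l ++ nums, st + steps) := by
  intro i
  induction i with
  | zero =>
    intro _
    refine ⟨[], start a.1 a.2, [], 0, by simp, fun q hq => ?_, fun x _ => rfl, Or.inr (by simp),
      by simp, fun k ans nums steps hr => ?_⟩
    · rw [zero_mul] at hq
      exact absurd hq (Nat.not_lt_zero q)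
    · simpa using hr
  | succ i ih =>
    intro hi
    obtain ⟨h, ρ, l, st, h1, h2, h3, h4, h5, h6⟩ := ih (by omega)
    obtain ⟨h', ρ', l', st', g1, g2, g3, g4, g5, g6, g7⟩ :=
      hR m n a hm i h ρ (by omega) h1 h2 h3
    refine ⟨h', ρ', l ++ l', st + st', g1, g2, g3, ?_, ?_, ?_⟩
    · rcases g5 with g5 | g5
      · exact Or.inl g5
      · rcases h4 with h4 | h4
        · exact Or.inl (dcd_mono m n _ _ g4 h4)
        · right
          omega
    · have : (i + 1) * (ps m n * (ell m n + 1) * (12 * m ^ 4 + 1)) =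
          i * (ps m n * (ell m n + 1) * (12 * m ^ 4 + 1)) +
            ps m n * (ell m n + 1) * (12 * m ^ 4 + 1) := by ring
      omega
    · intro k ans nums steps hr
      have e1 := g7 k ans nums steps hr
      have e2 := h6 _ _ _ _ e1
      have e3 : (i + 1) * (ps m n * (ell m n + 1)) + k =
          i * (ps m n * (ell m n + 1)) + (ps m n * (ell m n + 1) + k) := by ring
      rw [e3, e2, List.append_assoc, Nat.add_assoc]

end TRUN3

open TRUN3 in
theorem t_RUN3 : S_QB → S_ROUND → S_GLP → S_RUN3 := by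
  intro hQ hR hG m n a k hm hk
  obtain ⟨h, ρ, l, st, h1, h2, h3, h4, h5, h6⟩ := rounds hR m n a hm (pR m n) le_rfl
  have hlev := (hG m n hm (itemsOf m n (0 * ps m n) []) []).1
  have hpR : pR m n = pN m n * (2 * ps m n * py m n) + 2 := rfl
  have hdcd : Dcd m n (itemsOf m n (pR m n * ps m n) h) := by
    rcases h4 with h4 | h4
    · exact h4
    · exfalso
      omega
  have hpK : pR m n * ps m n = pK m n := Nat.mul_comm _ _
  rw [hpK] at hdcd h2
  have hlen : h.length = tot3 m n := by
    rw [h1, tot3, pK]; ring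
  have hright := items_right hQ m n hm a h (pK m n) h2
  have hα1 : smale3 m n h = ([], Test.ask (question m n h)) := by
    unfold smale3
    rw [if_neg (by omega), if_pos hlen]
  classical
  have hα2 : smale3 m n (h ++ [some (decide (question m n h ∈ oracle3))]) =
      ([], Test.answer (decide (question m n h ∈ oracle3))) := by
    unfold smale3
    rw [if_neg (by simp; omega), if_neg (by simp; omega)]
    simp
  have hrun : ∀ k' : ℕ, run oracle3 (smale3 m n) (k' + 1 + 1) h ρ =
      some (decide (question m n h ∈ oracle3), [], 1 + 0) := fun k' =>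
    TRUN.run_ask _ _ _ _ _ _ hα1 (decide (question m n h ∈ oracle3)) (by simp) _ _ _
      (TRUN.run_answer _ _ _ _ _ _ hα2)
  have hk' : k = pR m n * (ps m n * (ell m n + 1)) + ((k - tot3 m n - 2) + 1 + 1) := by
    rw [← h1, hlen]
    omega
  refine ⟨decide (question m n h ∈ oracle3), l ++ [], st + (1 + 0), ?_, ?_, ?_⟩
  · rw [hk']
    exact h6 _ _ _ _ (hrun _)
  · rw [decide_eq_true_iff, (hQ m n h 0 hm).1]
    unfold Quest
    constructor
    · rintro (⟨hlt, _⟩ | ⟨_, hrf⟩)
      · omega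
      · by_contra hf
        exact hdcd ⟨hrf, ⟨a, hright, hf⟩⟩
    · intro hf
      exact Or.inr ⟨hlen, a, hright, hf⟩
  · have : tot3 m n * (12 * m ^ 4 + 1) =
        pR m n * (ps m n * (ell m n + 1) * (12 * m ^ 4 + 1)) := by
      rw [tot3, pK]; ring
    omega

end Pool.Agent.Y648.HO
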