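import Pool.Agent.Y648.HO.StmA
import Pool.Agent.H558R2.Count

set_option autoImplicit false

/-!
# Few patterns (Warren's theorem)
-/

namespace Pool.Agent.Y648.HO

open Pool.Agent.NPC Pool.Agent.NPC.ER Pool.Agent.H558R2 Pool.Agent.H622R3.SM
open MvPolynomial

/-- The label of a string, as a function of the sign of its minor. -/
def labW (s : SignType) : List Bool → Bool
  | [] => false
  | true :: _ => decide (s = 1)
  | false :: _ => decide (s = -1)

lemma bin_eq_labW (m n : ℕ) (a : Inp m n) (x : List Bool) :
    bin m n a x =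
      labW (SignType.sign (dd (wmat a.1 a.2) (beta m n (x.tail.map some) 0))) x := by
  rcases x with _ | ⟨e, u⟩
  · rfl
  · have h0 : bin m n a (e :: u) =
        decide (signOut (dd (wmat a.1 a.2) (beta m n (u.map some) 0)) = some e) := rfl
    rw [h0, List.tail_cons]
    generalize dd (wmat a.1 a.2) (beta m n (u.map some) 0) = v
    cases e
    · show decide (signOut v = some false) = decide (SignType.sign v = -1)
      congr 1
      rw [sign_eq_neg_one_iff]
      unfold signOut
      apply propext
      split_ifs with h1 h2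
      · simp [not_lt.mpr h1.le]
      · simp [h2]
      · simp [h2]
    · show decide (signOut v = some true) = decide (SignType.sign v = 1)
      congr 1
      rw [sign_eq_one_iff]
      unfold signOut
      apply propext
      split_ifs with h1 h2
      · simp [h1]
      · simp [h1]
      · simp [h1]

theorem t_WAR : S_PAR → S_WAR := by
  classical
  intro hpar m n hm X hX hX'
  obtain ⟨hk, -, -⟩ := hpar m n hm
  set k := pk m n with hkdef
  let f : Fin k → MvPolynomial (Idx m n) ℝ := fun i =>
    polyMinor m n (beta m n (((X.getD i []).tail).map some) 0)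
  have hW := Pool.Agent.Helper448.Warren.ncard_sign_patterns_le f m
    (fun i => totalDegree_polyMinor _)
  set φ : (Idx m n → ℝ) → (Fin k → SignType) := fun x i => SignType.sign (eval x (f i)) with hφ
  let Ψ : (Fin k → SignType) → List Bool := fun s => List.ofFn fun i => labW (s i) (X.getD i [])
  have hsub : {τ : List Bool | τ.length = k ∧ Rl (bin m n) (X.zip τ)} ⊆ Ψ '' (Set.range φ) := by
    rintro τ ⟨hτ, a, ha⟩
    refine ⟨φ (val a), ⟨val a, rfl⟩, ?_⟩
    apply List.ext_getElem
    · simp [Ψ, hτ]
    · intro i h1 h2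
      have hik : i < k := by rw [← hτ]; exact h2
      have hiX : i < X.length := by rw [hX]; exact hik
      have hmem : (X[i], τ[i]) ∈ X.zip τ := by
        rw [List.mem_iff_getElem]
        refine ⟨i, by simp [List.length_zip]; exact ⟨hiX, h2⟩, by simp⟩
      have h3 := ha _ hmem
      simp only at h3
      rw [← h3, bin_eq_labW]
      simp only [Ψ, List.getElem_ofFn, φ, f, eval_polyMinor]
      rw [List.getD_eq_getElem _ _ hiX]
  have h1 : cnt k (fun τ => Rl (bin m n) (X.zip τ)) ≤ (Set.range φ).ncard := by
    unfold cnt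
    exact (Set.ncard_le_ncard hsub ((Set.toFinite _).image _)).trans
      (Set.ncard_image_le (Set.toFinite _))
  refine h1.trans (hW.trans ?_)
  have hI : Fintype.card (Idx m n) = m * n + m := by
    simp
  rw [hI, Fintype.card_fin]
  unfold pg
  rw [pow_mul]
  apply Nat.pow_le_pow_left
  have e2 : m + 1 ≤ 2 ^ m := Nat.lt_two_pow_self
  have e3 : 1 ≤ 2 ^ (m + n + 40) := Nat.one_le_pow _ _ (by norm_num)
  calc 4 * k * m + 2 ≤ 4 * 2 ^ (m + n + 40) * m + 4 * 2 ^ (m + n + 40) := by
        have : 4 * k * m ≤ 4 * 2 ^ (m + n + 40) * m := by gcongr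
        omega
    _ = 4 * 2 ^ (m + n + 40) * (m + 1) := by ring
    _ ≤ 4 * 2 ^ (m + n + 40) * 2 ^ m := Nat.mul_le_mul_left _ e2
    _ ≤ 8 * 2 ^ (m + n + 40) * 2 ^ m := by
        apply Nat.mul_le_mul_right
        omega
    _ = 2 ^ (m + n + 40 + m + 3) := by
        rw [pow_add 2 (m + n + 40 + m) 3, pow_add 2 (m + n + 40) m]
        ring

end Pool.Agent.Y648.HO
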