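import Mathlib

set_option autoImplicit false

/-!
# Counting by hashing, and learning of sign patterns: statements

`Iso L κ P` (for a property `P` of bit strings of length `L`): there are `κ` linear hash functions
to `κ` bits such that for every `x` with `P x` one of them separates `x` from all other `y` with
`P y` (Sipser). It holds if the number `cnt L P` of these strings is at most `2 ^ (κ - 1)`, and it
implies `cnt L P ≤ κ * 2 ^ κ`. `Est L r κ P`: the same for the `r`-th power of `P`, and some
`κ' ≤ κ`; `lev L r P` is the least such `κ`. Hence `lev / r` is a very good estimate of the binary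
logarithm of `cnt L P`.

`R h` (for a list `h` of strings with labels) always means: `h` is realizable. The prediction
`Pre R k r D U q` of the label of `q`, given a labelled sample `D` and an unlabelled sample `U`,
`k = |D| + 1 + |U|`: the label for which (by the estimate) there are more realizable labelings of
`D, q, U`. A code is a bit string describing `T` pairs `(D, U)`, and the function `dec` described
by the code is the majority vote of the `T` predictions.
-/

namespace Pool.Agent.Y648.HO

/-! ### Hashing -/

/-- Parity of the bitwise product. -/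
def ip (x y : List Bool) : Bool := (List.zipWith (fun a b => a && b) x y).foldr xor false

/-- The linear hash function of a matrix, given by the list of its rows. -/
def hsh (M : List (List Bool)) (x : List Bool) : List Bool := M.map fun r => ip r x

/-- A list of `κ` matrices with `κ` rows of length `L`. -/
def Seed (L κ : ℕ) (M : List (List (List Bool))) : Prop :=
  M.length = κ ∧ ∀ m ∈ M, m.length = κ ∧ ∀ r ∈ m, r.length = L

/-- The number of strings of length `L` with the property `P`. -/
noncomputable def cnt (L : ℕ) (P : List Bool → Prop) : ℕ :=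
  {x : List Bool | x.length = L ∧ P x}.ncard

/-- Isolation. -/
def Iso (L κ : ℕ) (P : List Bool → Prop) : Prop :=
  ∃ M : List (List (List Bool)), Seed L κ M ∧ ∀ x : List Bool, x.length = L → P x →
    ∃ m ∈ M, ∀ y : List Bool, y.length = L → P y → hsh m y = hsh m x → y = x

/-- Part number `i` of length `L`. -/
def part (L i : ℕ) (x : List Bool) : List Bool := (x.drop (i * L)).take L

/-- The power of a property. -/
def Pow (L r : ℕ) (P : List Bool → Prop) (x : List Bool) : Prop := ∀ i < r, P (part L i x)

/-- The estimate. -/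
def Est (L r κ : ℕ) (P : List Bool → Prop) : Prop := ∃ κ' ≤ κ, Iso (L * r) κ' (Pow L r P)

/-- The level: the least `κ` with `Est L r κ P`. -/
noncomputable def lev (L r : ℕ) (P : List Bool → Prop) : ℕ := sInf {κ | Est L r κ P}

/-- Sipser's lemma, first part. -/
def S_F1 : Prop := ∀ (L κ : ℕ) (P : List Bool → Prop), 1 ≤ κ → cnt L P ≤ 2 ^ (κ - 1) → Iso L κ P

/-- Sipser's lemma, second part. -/
def S_F2 : Prop := ∀ (L κ : ℕ) (P : List Bool → Prop), Iso L κ P → cnt L P ≤ κ * 2 ^ κ

/-- Counting in powers. -/
def S_POW : Prop := ∀ (L r : ℕ) (P : List Bool → Prop),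
  cnt (L * r) (Pow L r P) = cnt L P ^ r

/-- Facts about the counting function. -/
def S_CNT : Prop :=
  (∀ (L : ℕ) (P : List Bool → Prop), cnt L P ≤ 2 ^ L) ∧
  (∀ (L : ℕ) (P P' : List Bool → Prop), (∀ x, x.length = L → P x → P' x) → cnt L P ≤ cnt L P') ∧
  (∀ (L : ℕ) (P : List Bool → Prop), 1 ≤ cnt L P ↔ ∃ x, x.length = L ∧ P x) ∧
  ∀ (L : ℕ) (P P₁ P₂ : List Bool → Prop), (∀ x, x.length = L → (P x ↔ P₁ x ∨ P₂ x)) →
    cnt L P ≤ cnt L P₁ + cnt L P₂ ∧
    ((∀ x, x.length = L → ¬ (P₁ x ∧ P₂ x)) → cnt L P = cnt L P₁ + cnt L P₂)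

/-- Facts about the level. -/
def S_LEV : Prop :=
  (∀ (L r κ : ℕ) (P : List Bool → Prop), Est L r κ P ↔ lev L r P ≤ κ) ∧
  (∀ (L r : ℕ) (P : List Bool → Prop), lev L r P ≤ L * r + 1) ∧
  (∀ (L r κ : ℕ) (P : List Bool → Prop), 1 ≤ κ → cnt L P ^ r ≤ 2 ^ (κ - 1) → lev L r P ≤ κ) ∧
  (∀ (L r : ℕ) (P : List Bool → Prop), cnt L P ^ r ≤ lev L r P * 2 ^ lev L r P) ∧
  (∀ (L r : ℕ) (P P' : List Bool → Prop), (∀ x, x.length = L → P x → P' x) →
    lev L r P ≤ lev L r P') ∧
  ∀ (L r : ℕ) (P : List Bool → Prop), 1 ≤ r → (lev L r P = 0 ↔ cnt L P = 0)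

/-- The level drops for the smaller part. -/
def S_DR1 : Prop := ∀ (L r : ℕ) (P P₁ P₂ : List Bool → Prop), 2 ≤ r → 4 * lev L r P ≤ 2 ^ r →
  cnt L P = cnt L P₁ + cnt L P₂ → 1 ≤ cnt L P₂ → lev L r P₂ ≤ lev L r P₁ →
  lev L r P₂ < lev L r P

/-- The level drops for a part of relative size at most `1 - 1 / (2 s)`. -/
def S_DR2 : Prop := ∀ (L s y : ℕ) (P P' : List Bool → Prop), 1 ≤ s → 1 ≤ y →
  4 * lev L (2 * s * y) P ≤ 2 ^ y → 1 ≤ cnt L P → 2 * s * cnt L P' ≤ (2 * s - 1) * cnt L P →
  lev L (2 * s * y) P' < lev L (2 * s * y) P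

/-! ### Predictions -/

/-- The labelings `τ` of `D, q, U` which extend the labels of `D` and the label `b` of `q`, and
are realizable. -/
def Ext (R : List (List Bool × Bool) → Prop) (D : List (List Bool × Bool)) (U : List (List Bool))
    (q : List Bool) (b : Bool) (τ : List Bool) : Prop :=
  (D.map Prod.snd ++ [b]) <+: τ ∧ R ((D.map Prod.fst ++ q :: U).zip τ)

/-- The prediction: is the label of `q` true? -/
def Pre (R : List (List Bool × Bool) → Prop) (k r : ℕ) (D : List (List Bool × Bool))
    (U : List (List Bool)) (q : List Bool) : Prop :=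
  ∀ κ ≤ k * r + 1, Est k r κ (Ext R D U q true) → Est k r κ (Ext R D U q false)

/-- Realizability for the patterns `χ a`. -/
def Rl {I : Type} (χ : I → List Bool → Bool) (h : List (List Bool × Bool)) : Prop :=
  ∃ a, ∀ p ∈ h, χ a p.1 = p.2

/-- The labelled sample `D` (the strings in `X` with their labels for `a`). -/
def lb {I : Type} (χ : I → List Bool → Bool) (a : I) (X : List (List Bool)) :
    List (List Bool × Bool) := X.map fun x => (x, χ a x)

/-- The prediction of the label of `q` for the pattern of `a` is wrong. -/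
def Wr {I : Type} (χ : I → List Bool → Bool) (k r : ℕ) (a : I) (D U : List (List Bool))
    (q : List Bool) : Prop := ¬ (Pre (Rl χ) k r (lb χ a D) U q ↔ χ a q = true)

open Classical in
/-- In every sequence there are few wrong predictions. -/
def S_MIS : Prop := ∀ (I : Type) (χ : I → List Bool → Bool) (k r g : ℕ), 2 ≤ r →
  4 * (r * g + 1) ≤ 2 ^ r → ∀ X : List (List Bool), X.length = k →
  cnt k (fun τ => Rl χ (X.zip τ)) ≤ 2 ^ g → ∀ a : I,
    ((Finset.range k).filter fun j => Wr χ k r a (X.take j) (X.drop (j + 1)) (X.getD j [])).card ≤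
      r * g + 1

open Classical in
/-- Averaging: from few wrong predictions in every sequence to a good sample for given
weights. -/
def S_AVG : Prop := ∀ (α : Type) (S : Finset α) (d : α) (w : α → ℝ) (wr : List α → List α → α → Prop)
  (k φ : ℕ), (∀ x ∈ S, 0 < w x) → S.Nonempty → 1 ≤ k → 8 * φ ≤ k →
  (∀ X : List α, X.length = k → (∀ x ∈ X, x ∈ S) →
    ((Finset.range k).filter fun j => wr (X.take j) (X.drop (j + 1)) (X.getD j d)).card ≤ φ) →
  ∃ D U : List α, D.length + 1 + U.length = k ∧ (∀ x ∈ D, x ∈ S) ∧ (∀ x ∈ U, x ∈ S) ∧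
    8 * ∑ q ∈ S.filter (fun q => wr D U q), w q ≤ ∑ q ∈ S, w q

open Classical in
/-- Boosting: from good samples for all weights to a good majority vote. -/
def S_BST : Prop := ∀ (α β : Type) (S : Finset α) (B : Set β) (wr : β → α → Prop) (T : ℕ),
  (∀ w : α → ℝ, (∀ x ∈ S, 0 < w x) → ∃ b ∈ B,
    8 * ∑ q ∈ S.filter (fun q => wr b q), w q ≤ ∑ q ∈ S, w q) → S.card ^ 4 < 2 ^ T →
  ∃ f : ℕ → β, (∀ t < T, f t ∈ B) ∧ ∀ q ∈ S, 2 * ((Finset.range T).filter fun t => wr (f t) q).card < T

/-! ### Codes -/

/-- The entries of the block `x`: `n` strings of length `w`. -/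
def entries (w n : ℕ) (x : List Bool) : List (List Bool) := (List.range n).map fun i => part w i x

/-- The labelled sample described by the block `x`: entries `true, label, string`. -/
def Dof (l k : ℕ) (x : List Bool) : List (List Bool × Bool) :=
  (entries (l + 2) (k - 1) x).filterMap fun e =>
    if e.getD 0 false = true then some (e.drop 2, e.getD 1 false) else none

/-- The unlabelled sample described by the block `x`: entries `false, _, string`. -/
def Uof (l k : ℕ) (x : List Bool) : List (List Bool) :=
  (entries (l + 2) (k - 1) x).filterMap fun e =>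
    if e.getD 0 false = true then none else some (e.drop 2)

/-- The length of a code. -/
def clen (l k T : ℕ) : ℕ := (l + 2) * (k - 1) * T

/-- The function described by the code `c`, at the string `q`: the majority vote of the `T`
predictions. -/
def dec (R : List (List Bool × Bool) → Prop) (l k r T : ℕ) (c q : List Bool) : Prop :=
  ∃ v : List Bool, v.length = T ∧ T < 2 * v.count true ∧ ∀ t < T, v.getD t false = true →
    Pre R k r (Dof l k (part ((l + 2) * (k - 1)) t c)) (Uof l k (part ((l + 2) * (k - 1)) t c)) q

/-- **All patterns have codes.** -/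
def S_COD : Prop := ∀ (I : Type) (χ : I → List Bool → Bool) (l k r g T : ℕ), 2 ≤ r →
  4 * (r * g + 1) ≤ 2 ^ r → 8 * (r * g + 1) ≤ k → 4 * l < T →
  (∀ X : List (List Bool), X.length = k → (∀ x ∈ X, x.length = l) →
    cnt k (fun τ => Rl χ (X.zip τ)) ≤ 2 ^ g) →
  ∀ a : I, ∃ c : List Bool, c.length = clen l k T ∧
    ∀ q : List Bool, q.length = l → (dec (Rl χ) l k r T c q ↔ χ a q = true)

/-! ### The version space and the choice of the next questions -/

/-- The code `c` is valid: the function described by it is realizable on every list of `s`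
strings. -/
def Vld (R : List (List Bool × Bool) → Prop) (l k r T s : ℕ) (c : List Bool) : Prop :=
  ∀ V : List (List Bool), V.length = s → (∀ q ∈ V, q.length = l) →
    ∃ v : List Bool, v.length = s ∧ (∀ i < s, v.getD i false = true ↔
      dec R l k r T c (V.getD i [])) ∧ R (V.zip v)

/-- The version space: the valid codes which agree with the labels in `H`. -/
def VS (R : List (List Bool × Bool) → Prop) (l k r T s : ℕ) (H : List (List Bool × Bool))
    (c : List Bool) : Prop :=
  Vld R l k r T s c ∧ ∀ p ∈ H, dec R l k r T c p.1 ↔ p.2 = true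

/-- Two labelled strings for one string `u` with a sign. -/
def item (u : List Bool) (o : Option Bool) : List (List Bool × Bool) :=
  [(true :: u, decide (o = some true)), (false :: u, decide (o = some false))]

/-- The labelled strings for a list of strings and a list of signs. -/
def items (U : List (List Bool)) (τ : List (Option Bool)) : List (List Bool × Bool) :=
  (U.zip τ).flatMap fun p => item p.1 p.2

/-- The block `U` of `s` strings of length `l` is good: whatever the signs are, either the
answer is decided (`E`) or the level of the version space drops (the strings of the codes have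
length `l + 1`). -/
def Good (R E : List (List Bool × Bool) → Prop) (l k r T s y : ℕ) (H : List (List Bool × Bool))
    (U : List (List Bool)) : Prop :=
  ∀ τ : List (Option Bool), τ.length = s → E (H ++ items U τ) ∨
    ∃ κ ≤ clen (l + 1) k T * (2 * s * y) + 1,
      Est (clen (l + 1) k T) (2 * s * y) κ (VS R (l + 1) k r T (2 * s) (H ++ items U τ)) ∧
      ¬ Est (clen (l + 1) k T) (2 * s * y) κ (VS R (l + 1) k r T (2 * s) H)

/-- **There is always a good block.** Here `E` is monotone, and for every labeling `f` which is
realizable on all lists of `2 s` strings there are `s` strings which decide the answer if their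
labels are given by `f`. -/
def S_GOOD : Prop := ∀ (R E : List (List Bool × Bool) → Prop) (l k r T s y : ℕ), 1 ≤ s → 1 ≤ y →
  4 * (clen (l + 1) k T * (2 * s * y) + 1) ≤ 2 ^ y →
  (∀ h h' : List (List Bool × Bool), (∀ p ∈ h, p ∈ h') → E h → E h') →
  (∀ f : List Bool → Bool, (∀ V : List (List Bool), V.length = 2 * s →
      (∀ q ∈ V, q.length = l + 1) → R (V.map fun q => (q, f q))) →
    ∃ U : List (List Bool), U.length = s ∧ (∀ u ∈ U, u.length = l) ∧
      E (U.flatMap fun u => [(true :: u, f (true :: u)), (false :: u, f (false :: u))])) →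
  ∀ H : List (List Bool × Bool),
    (∃ c : List Bool, c.length = clen (l + 1) k T ∧ VS R (l + 1) k r T (2 * s) H c) →
    ∃ U : List (List Bool), U.length = s ∧ (∀ u ∈ U, u.length = l) ∧ Good R E l k r T s y H U

end Pool.Agent.Y648.HO
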