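import Pool.Agent.Y648.HO.T_MAIN
import Pool.Agent.Y648.HO.T_ALLG
import Pool.Agent.Y648.HO.T_AVG
import Pool.Agent.Y648.HO.T_CDEC
import Pool.Agent.Y648.HO.T_CEST
import Pool.Agent.Y648.HO.T_CGOOD
import Pool.Agent.Y648.HO.T_COLL
import Pool.Agent.Y648.HO.T_ERM
import Pool.Agent.Y648.HO.T_F
import Pool.Agent.Y648.HO.T_GOOD
import Pool.Agent.Y648.HO.T_HL
import Pool.Agent.Y648.HO.T_LEV
import Pool.Agent.Y648.HO.T_MIS
import Pool.Agent.Y648.HO.T_ORC3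
import Pool.Agent.Y648.HO.T_PAR
import Pool.Agent.Y648.HO.T_PC3
import Pool.Agent.Y648.HO.T_POW
import Pool.Agent.Y648.HO.T_QB
import Pool.Agent.Y648.HO.T_ROUND
import Pool.Agent.Y648.HO.T_RUN3
import Pool.Agent.Y648.HO.T_WAR
import Pool.Agent.Y79.HO.T_BST
import Pool.Agent.Y350.HO.T_COD

set_option autoImplicit false

namespace Pool.Agent.Y648.HO

theorem h_LEV : S_LEV := t_LEV t_F1 t_F2 t_POW t_CNT
theorem h_MIS : S_MIS := t_MIS t_CNT h_LEV (t_DR1 h_LEV)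
theorem h_COD : S_COD := t_COD h_MIS t_AVG t_BST
theorem h_GOOD : S_GOOD := t_GOOD t_CNT h_LEV (t_DR2 h_LEV)
theorem h_ALLG : S_ALLG := t_ALLG t_PAR (t_WAR t_PAR) t_HL h_COD h_GOOD
theorem h_GLP : S_GLP := t_GLP h_LEV
theorem h_ROUND : S_ROUND := t_ROUND t_QB h_ALLG h_GLP
theorem h_RUN3 : S_RUN3 := t_RUN3 t_QB h_ROUND h_GLP
theorem h_CGOOD : S_CGOOD := t_CGOOD t_CEST (t_CVS (t_CDEC (t_CPRE t_CEST)))
theorem h_ORC3 : S_ORC3 := t_ORC3 h_CGOOD t_ERM t_UP3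
theorem h_MAIN3 : S_MAIN3 := t_MAIN3 h_RUN3 t_NUMS3 t_POL3 (t_PC3 t_UP3) h_ORC3 t_COLL

end Pool.Agent.Y648.HO
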