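import Pool.Agent.W911.IB.Clo
import Pool.Agent.NPC.Dec
import Pool.Agent.H671R2.PolyAuto

set_option autoImplicit false

/-!
# Predicates on encodable data in the polynomial hierarchy relative to an oracle
-/

namespace Pool.Agent.Y648.HO

open Pool.Agent.NPC Pool.Agent.W911.IB
open Pool.Agent.H490R3.LH.EQAx
open Pool.Agent.H620R2.Gauge (Oracle Quant IsFP IsPH)

/-- The predicate `R` on encodable data is in the polynomial hierarchy relative to `A`. -/
def TPH (A : Oracle) {β : Type} [TEnc β] (R : β → Prop) : Prop :=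
  ∃ R' : List Bool → Prop, PHp A R' ∧ ∀ a, R' (bits a) ↔ R a

namespace TPH

variable {A : Oracle} {β γ : Type} [TEnc β] [TEnc γ]

theorem congr {R R' : β → Prop} (h : TPH A R) (hR : ∀ a, R a ↔ R' a) : TPH A R' := by
  obtain ⟨Q, h1, h2⟩ := h
  exact ⟨Q, h1, fun a => (h2 a).trans (hR a)⟩

theorem neg {R : β → Prop} (h : TPH A R) : TPH A (fun a => ¬ R a) := by
  obtain ⟨Q, h1, h2⟩ := h
  exact ⟨_, h1.neg, fun a => not_congr (h2 a)⟩

theorem and {R S : β → Prop} (h : TPH A R) (h' : TPH A S) : TPH A (fun a => R a ∧ S a) := by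
  obtain ⟨Q, h1, h2⟩ := h
  obtain ⟨Q', h1', h2'⟩ := h'
  exact ⟨_, h1.and h1', fun a => and_congr (h2 a) (h2' a)⟩

theorem or {R S : β → Prop} (h : TPH A R) (h' : TPH A S) : TPH A (fun a => R a ∨ S a) := by
  obtain ⟨Q, h1, h2⟩ := h
  obtain ⟨Q', h1', h2'⟩ := h'
  exact ⟨_, h1.or h1', fun a => or_congr (h2 a) (h2' a)⟩

theorem imp {R S : β → Prop} (h : TPH A R) (h' : TPH A S) : TPH A (fun a => R a → S a) := by
  obtain ⟨Q, h1, h2⟩ := h
  obtain ⟨Q', h1', h2'⟩ := h'
  exact ⟨_, h1.imp h1', fun a => imp_congr (h2 a) (h2' a)⟩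

theorem iff {R S : β → Prop} (h : TPH A R) (h' : TPH A S) : TPH A (fun a => R a ↔ S a) := by
  obtain ⟨Q, h1, h2⟩ := h
  obtain ⟨Q', h1', h2'⟩ := h'
  exact ⟨_, h1.iff h1', fun a => iff_congr (h2 a) (h2' a)⟩

/-- polynomial-time tests -/
theorem of_poly [TDec β] {c : β → Bool} (hc : Poly c) : TPH A (fun a => c a = true) := by
  refine ⟨fun w => (match unbits β w with | none => false | some a => c a) = true,
    PHp.of_poly (Poly.optCases (g := fun _ => false) (h := fun _ a => c a) poly_unbits
      (NPC.Poly.const false) (hc.comp (Poly.snd Poly.id))), fun a => ?_⟩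
  simp only [unbits_bits]

/-- polynomial-time tests -/
theorem of_dec [TDec β] {R : β → Prop} [DecidablePred R] (hc : Poly (fun a => decide (R a))) :
    TPH A R := (of_poly hc).congr fun a => by simp

/-- substitution of polynomial-time functions -/
theorem comp [TDec β] {R : γ → Prop} (h : TPH A R) {f : β → γ} (hf : Poly f) :
    TPH A (fun a => R (f a)) := by
  obtain ⟨Q, h1, h2⟩ := h
  have hg : Poly (fun w : List Bool => match unbits β w with | none => [] | some a => bits (f a)) :=
    Poly.optCases (g := fun _ => ([] : List Bool)) (h := fun _ a => bits (f a)) poly_unbits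
      (NPC.Poly.const []) ((PC.comp (g := fun x => x) (f := fun p : List Bool × β => bits (f p.2))
        PC.rawIn (show PC _ _ _ from (hf.comp (Poly.snd Poly.id)))))
  refine ⟨_, h1.red hg, fun a => ?_⟩
  simp only [unbits_bits]
  exact h2 (f a)

/-- substitution into a raw predicate -/
theorem of_raw [TDec β] {Q : List Bool → Prop} (h : PHp A Q) {f : β → List Bool} (hf : Poly f) :
    TPH A (fun a => Q (f a)) := by
  have hg : Poly (fun w : List Bool => match unbits β w with | none => [] | some a => f a) :=
    Poly.optCases (g := fun _ => ([] : List Bool)) (h := fun _ a => f a) poly_unbits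
      (NPC.Poly.const []) (hf.comp (Poly.snd Poly.id))
  refine ⟨_, h.red hg, fun a => ?_⟩
  simp only [unbits_bits]

/-- the code of a value, as a bit string -/
theorem poly_bits {f : β → γ} (hf : Poly f) : Poly (fun a => bits (f a)) :=
  PC.comp (g := fun x => x) (f := fun a : β => bits (f a)) PC.rawIn (show PC _ _ _ from hf)

/-- existential quantification over strings -/
theorem exS [TDec β] {R : β × List Bool → Prop} (h : TPH A R) {μ : β → ℕ} (hμ : UPoly μ) :
    TPH A (fun a => ∃ w : List Bool, w.length ≤ μ a ∧ R (a, w)) := by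
  obtain ⟨Q, h1, h2⟩ := h
  have hg : Poly (fun y : List Bool => match unbits β (unpair y).2 with
      | none => [] | some a => bits (a, (unpair y).1)) :=
    Poly.optCases (o := fun y : List Bool => unbits β (unpair y).2)
      (g := fun _ => ([] : List Bool)) (h := fun y a => bits (a, (unpair y).1))
      (poly_unbits.comp (Poly.snd poly_unpair)) (NPC.Poly.const [])
      (poly_bits (Poly.pair (Poly.snd Poly.id) (Poly.fst (poly_unpair.comp (Poly.fst Poly.id)))))
  have hm : UPoly (fun y : List Bool => match unbits β y with | none => 0 | some a => μ a) := by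
    have := Poly.optCases (g := fun _ => ([] : List Unit))
      (h := fun _ a => List.replicate (μ a) ()) (poly_unbits (α := β))
      (NPC.Poly.const []) (hμ.comp (Poly.snd Poly.id) :
        Poly (fun p : List Bool × β => List.replicate (μ p.2) ()))
    refine this.congr fun y => ?_
    beta_reduce
    cases unbits β y <;> rfl
  refine ⟨_, (h1.red hg).ex hm, fun a => ?_⟩
  simp only [unbits_bits, unpair_pairBits]
  exact exists_congr fun w => and_congr_right fun _ => h2 (a, w)

/-- universal quantification over strings -/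
theorem allS [TDec β] {R : β × List Bool → Prop} (h : TPH A R) {μ : β → ℕ} (hμ : UPoly μ) :
    TPH A (fun a => ∀ w : List Bool, w.length ≤ μ a → R (a, w)) :=
  (h.neg.exS hμ).neg.congr fun a => by
    simp only [not_exists, not_and, not_not]

/-- existential quantification over data of bounded size -/
theorem exT [TDec β] [TDec γ] {R : β × γ → Prop} (h : TPH A R) {μ : β → ℕ} (hμ : UPoly μ) :
    TPH A (fun a => ∃ g : γ, sz g ≤ μ a ∧ R (a, g)) := by
  obtain ⟨Q, h1, h2⟩ := h
  have hF : Poly (fun p : β × List Bool => match unbits γ p.2 with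
      | none => [] | some g => bits (p.1, g)) :=
    Poly.optCases (o := fun p : β × List Bool => unbits γ p.2)
      (g := fun _ => ([] : List Bool)) (h := fun p g => bits (p.1, g))
      (poly_unbits.comp (Poly.snd Poly.id)) (NPC.Poly.const [])
      (poly_bits (Poly.pair (Poly.fst (Poly.fst Poly.id)) (Poly.snd Poly.id)))
  have hS : Poly (fun p : β × List Bool => (unbits γ p.2).isSome) :=
    Poly.isSome (poly_unbits.comp (Poly.snd Poly.id))
  refine (((of_poly hS).and (of_raw h1 hF)).exS hμ).congr fun a => ?_
  constructor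
  · rintro ⟨w, hw, h3, h4⟩
    obtain ⟨g, hg⟩ := Option.isSome_iff_exists.1 h3
    simp only [hg] at h4
    refine ⟨g, ?_, (h2 (a, g)).1 h4⟩
    rw [← bits_length, bits_of_unbits hg]
    exact hw
  · rintro ⟨g, hg, h3⟩
    refine ⟨bits g, by rw [bits_length]; exact hg, by simp [unbits_bits], ?_⟩
    simp only [unbits_bits]
    exact (h2 (a, g)).2 h3

/-- universal quantification over data of bounded size -/
theorem allT [TDec β] [TDec γ] {R : β × γ → Prop} (h : TPH A R) {μ : β → ℕ} (hμ : UPoly μ) :
    TPH A (fun a => ∀ g : γ, sz g ≤ μ a → R (a, g)) :=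
  (h.neg.exT hμ).neg.congr fun a => by
    simp only [not_exists, not_and, not_not]

/-- existential quantification over the elements of a list -/
theorem exMem [TDec β] [TDec γ] {R : β × γ → Prop} (h : TPH A R) {l : β → List γ}
    (hl : Poly l) : TPH A (fun a => ∃ g ∈ l a, R (a, g)) := by
  classical
  have hsz : UPoly (fun a : β => sz (l a)) := by
    have := UPoly.length (poly_bits hl)
    simp only [bits_length] at this
    exact this
  have hd : TPH A (fun p : β × γ => p.2 ∈ l p.1) := by
    have h1 : Poly (fun p : β × γ => (l p.1).any fun g => decide (toT g = toT p.2)) :=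
      Poly.any (hl.comp (Poly.fst Poly.id)) (Poly.decide_eq ((Poly.snd Poly.id).toT')
        ((Poly.snd (Poly.fst Poly.id)).toT'))
    refine (of_poly h1).congr fun p => ?_
    simp only [List.any_eq_true, decide_eq_true_eq]
    constructor
    · rintro ⟨g, hg, he⟩
      rw [← TEnc.inj he]
      exact hg
    · exact fun hg => ⟨_, hg, rfl⟩
  refine ((hd.and h).exT hsz).congr fun a => ?_
  constructor
  · rintro ⟨g, -, h1, h2⟩
    exact ⟨g, h1, h2⟩
  · rintro ⟨g, h1, h2⟩
    exact ⟨g, (sz_le_of_mem h1).le, h1, h2⟩

/-- universal quantification over the elements of a list -/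
theorem allMem [TDec β] [TDec γ] {R : β × γ → Prop} (h : TPH A R) {l : β → List γ}
    (hl : Poly l) : TPH A (fun a => ∀ g ∈ l a, R (a, g)) :=
  (h.neg.exMem hl).neg.congr fun a => by
    simp only [not_exists, not_and, not_not]

/-- existential quantification over small numbers -/
theorem exLt [TDec β] {R : β × ℕ → Prop} (h : TPH A R) {μ : β → ℕ} (hμ : UPoly μ) :
    TPH A (fun a => ∃ i < μ a, R (a, i)) :=
  (h.exMem hμ.range).congr fun a => by simp only [List.mem_range]

/-- universal quantification over small numbers -/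
theorem allLt [TDec β] {R : β × ℕ → Prop} (h : TPH A R) {μ : β → ℕ} (hμ : UPoly μ) :
    TPH A (fun a => ∀ i < μ a, R (a, i)) :=
  (h.allMem hμ.range).congr fun a => by simp only [List.mem_range]

/-- languages -/
theorem isPH [TDec β] {R : β → Prop} (h : TPH A R) : IsPH A (lang R) := by
  obtain ⟨Q, h1, h2⟩ := h
  have hS : Poly (fun w : List Bool => (unbits β w).isSome) := Poly.isSome poly_unbits
  refine isPH_iff.2 (((PHp.of_poly hS).and h1).congr fun w => ?_)
  constructor
  · rintro ⟨h3, h4⟩
    obtain ⟨a, ha⟩ := Option.isSome_iff_exists.1 h3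
    have hb := bits_of_unbits ha
    refine ⟨a, hb, (h2 a).1 ?_⟩
    rw [hb]
    exact h4
  · rintro ⟨a, rfl, ha⟩
    exact ⟨by simp [unbits_bits], (h2 a).2 ha⟩

end TPH

end Pool.Agent.Y648.HO
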