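import Pool.Agent.Y648.HO.All

set_option autoImplicit false

/-!
# Linear programming relative to the polynomial hierarchy over the reals

The machine model (`Alg`, `run`, `start`, `PolyControl`, `OracleFree`, `StronglyPolynomial`) is
the one of the starting result `UniformAlgorithm`: `Pool/Agent/H622R3/SM/Model.lean`. `IsPH A L`
(`Pool/Agent/H620R2/Gauge/Defs.lean`): the language `L` is in the polynomial hierarchy relative to
the oracle `A`. `etr`: the existential theory of the reals. `InER` : `L` is reducible in polynomial
time to the existential theory of the reals. `InP`: `L` is in `P`.

* Linear feasibility over the reals is decided in strongly polynomial time by an algorithm whose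
  control is computed in polynomial time by a Turing machine, with a discrete oracle in the
  polynomial hierarchy relative to the existential theory of the reals.
* If the existential theory of the reals is in `P`, then there is such an algorithm without oracle:
  Smale's question has a positive answer.
-/

namespace Pool.Agent.Y648.HO.Res

open Pool.Agent.NPC Pool.Agent.NPC.ER Pool.Agent.H622R3.SM Pool.Agent.Y648.HO
open Pool.Agent.H620R2.Gauge (IsPH)

theorem result :
    (∃ (α : Alg) (O : Set (List Bool)), PolyControl α ∧ IsPH etr O ∧ StronglyPolynomial O α) ∧
    ((∀ L : Set (List Bool), InER L → InP L) →
      ∃ α : Alg, PolyControl α ∧ OracleFree α ∧ StronglyPolynomial ∅ α) := h_MAIN3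

end Pool.Agent.Y648.HO.Res
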