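import Pool.Agent.Y648.HO.StmC
import Pool.Agent.H622R3.SM.All

set_option autoImplicit false

/-!
# Linear feasibility relative to the polynomial hierarchy over the reals: statements
-/

namespace Pool.Agent.Y648.HO

open Pool.Agent.NPC Pool.Agent.NPC.ER Pool.Agent.H558R2 Pool.Agent.H622R3.SM
open Pool.Agent.H620R2.Gauge (Oracle IsPH)

/-! ### Signs of minors, as labels of strings -/

/-- The sign of the minor described by the bits `u`. -/
noncomputable def sgn (m n : ℕ) (a : Inp m n) (u : List Bool) : Outcome :=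
  signOut (dd (wmat a.1 a.2) (beta m n (u.map some) 0))

/-- The labels of the input `a`: `true :: u` asks whether the minor `u` is positive, `false :: u`
whether it is negative. -/
noncomputable def bin (m n : ℕ) (a : Inp m n) : List Bool → Bool
  | [] => false
  | e :: u => decide (sgn m n a u = some e)

/-- The labels are realizable. -/
def RLP (m n : ℕ) (h : LS) : Prop := Rl (bin m n) h

/-- The labels are realizable by a feasible input. -/
def RF (m n : ℕ) (h : LS) : Prop := ∃ a : Inp m n, (∀ p ∈ h, bin m n a p.1 = p.2) ∧ Feas a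

/-- The labels are realizable by an infeasible input. -/
def RI (m n : ℕ) (h : LS) : Prop := ∃ a : Inp m n, (∀ p ∈ h, bin m n a p.1 = p.2) ∧ ¬ Feas a

/-- The labels decide the answer. -/
def Dcd (m n : ℕ) (h : LS) : Prop := ¬ (RF m n h ∧ RI m n h)

/-! ### Parameters -/

/-- size of certificates -/
def ps (m n : ℕ) : ℕ := 2 * m + 2 * n + 3
/-- binary logarithm of the number of patterns -/
def pg (m n : ℕ) : ℕ := (m + n + 40 + m + 3) * (m * n + m)
/-- exponent of the powers -/
def pr (m n : ℕ) : ℕ := m + n + 40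
/-- size of the samples -/
def pk (m n : ℕ) : ℕ := 8 * (pr m n * pg m n + 1)
/-- number of the samples -/
def pT (m n : ℕ) : ℕ := 4 * (ell m n + 1) + 1
/-- length of the codes -/
def pN (m n : ℕ) : ℕ := clen (ell m n + 1) (pk m n) (pT m n)
/-- exponent of the powers, second level -/
def py (m n : ℕ) : ℕ := 2 * (pN m n + ps m n) + 20
/-- number of rounds -/
def pR (m n : ℕ) : ℕ := pN m n * (2 * ps m n * py m n) + 2
/-- number of minors -/
def pK (m n : ℕ) : ℕ := ps m n * pR m n
/-- length of a complete history -/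
def tot3 (m n : ℕ) : ℕ := pK m n * (ell m n + 1)

/-- The inequalities between the parameters. -/
def S_PAR : Prop := ∀ m n : ℕ, 1 ≤ m →
  pk m n ≤ 2 ^ (m + n + 40) ∧ 4 * (pr m n * pg m n + 1) ≤ 2 ^ pr m n ∧
  4 * (pN m n * (2 * ps m n * py m n) + 1) ≤ 2 ^ py m n

/-- Few patterns (Warren's theorem). -/
def S_WAR : Prop := ∀ m n : ℕ, 1 ≤ m → ∀ X : List (List Bool), X.length = pk m n →
  (∀ x ∈ X, x.length = ell m n + 1) →
  cnt (pk m n) (fun τ => Rl (bin m n) (X.zip τ)) ≤ 2 ^ pg m n

/-- Certificates. -/
def S_HL : Prop := ∀ m n : ℕ, 1 ≤ m → ∀ f : List Bool → Bool,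
  (∀ V : List (List Bool), V.length = 2 * ps m n → (∀ q ∈ V, q.length = ell m n + 1) →
    RLP m n (V.map fun q => (q, f q))) →
  ∃ U : List (List Bool), U.length = ps m n ∧ (∀ u ∈ U, u.length = ell m n) ∧
    Dcd m n (U.flatMap fun u => [(true :: u, f (true :: u)), (false :: u, f (false :: u))])

/-- The block `U` is good. -/
def GoodLP (m n : ℕ) (H : LS) (U : List (List Bool)) : Prop :=
  Good (RLP m n) (Dcd m n) (ell m n) (pk m n) (pr m n) (pT m n) (ps m n) (py m n) H U

/-- There is a good block after every history of a genuine input. -/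
def S_ALLG : Prop := ∀ m n : ℕ, 1 ≤ m → ∀ (a : Inp m n) (H : LS),
  (∀ p ∈ H, p.1.length = ell m n + 1 ∧ bin m n a p.1 = p.2) →
  (∃ c : List Bool, c.length = pN m n ∧
    VS (RLP m n) (ell m n + 1) (pk m n) (pr m n) (pT m n) (2 * ps m n) H c) ∧
  ∃ U : List (List Bool), U.length = ps m n ∧ (∀ u ∈ U, u.length = ell m n) ∧ GoodLP m n H U

/-- The level of the version space. -/
noncomputable def levV (m n : ℕ) (H : LS) : ℕ := lev (pN m n) (2 * ps m n * py m n)
  (VS (RLP m n) (ell m n + 1) (pk m n) (pr m n) (pT m n) (2 * ps m n) H)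

/-- Meaning of good blocks. -/
def S_GLP : Prop := ∀ m n : ℕ, 1 ≤ m → ∀ (H : LS) (U : List (List Bool)),
  levV m n H ≤ pN m n * (2 * ps m n * py m n) + 1 ∧
  (GoodLP m n H U → ∀ τ : List Outcome, τ.length = ps m n → Dcd m n (H ++ items U τ) ∨
    levV m n (H ++ items U τ) < levV m n H)

/-! ### The algorithm and its oracle -/

/-- The bits of minor number `q` in the history `h`. -/
def bitsAt (m n : ℕ) (h : List Outcome) (q : ℕ) : List Bool :=
  (List.range (ell m n)).map fun i => decide (h.getD (q * (ell m n + 1) + i) none = some true)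

/-- The labelled strings given by the first `K` minors of the history. -/
def itemsOf (m n K : ℕ) (h : List Outcome) : LS :=
  (List.range K).flatMap fun q => item (bitsAt m n h q) (recd m n h q)

/-- The round of the history `h`. -/
def rnd (m n : ℕ) (h : List Outcome) : ℕ := h.length / (ell m n + 1) / ps m n

/-- The bits chosen so far in the present round. -/
def pre (m n : ℕ) (h : List Outcome) : List Bool :=
  ((List.range (h.length / (ell m n + 1) - rnd m n h * ps m n)).flatMap fun j =>
      bitsAt m n h (rnd m n h * ps m n + j)) ++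
    (h.drop (h.length / (ell m n + 1) * (ell m n + 1))).map fun o => decide (o = some true)

/-- The answers of the oracle: in every round the bits of the first good block of `s` minors (in
the lexicographic order), and finally the answer. -/
def Quest (m n : ℕ) (h : List Outcome) : Prop :=
  (h.length < tot3 m n ∧ ¬ ∃ U : List (List Bool), U.length = ps m n ∧
    (∀ u ∈ U, u.length = ell m n) ∧ GoodLP m n (itemsOf m n (rnd m n h * ps m n) h) U ∧
    (pre m n h ++ [false]) <+: U.flatten) ∨
  (h.length = tot3 m n ∧ RF m n (itemsOf m n (pK m n) h))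

/-- The oracle. -/
def oracle3 : Set (List Bool) :=
  lang fun p : HistIn => 1 ≤ p.1.1.length ∧ Quest p.1.1.length p.1.2.length p.2

/-- The algorithm: `pK m n` times the oracle tells the `ell m n` bits of a minor, and the sign of
this minor is determined; finally the oracle is asked for the answer. -/
def smale3 : Alg := fun m n h =>
  if h.length < tot3 m n then
    (if h.length % (ell m n + 1) < ell m n then ([], Test.ask (question m n h))
      else (minorProg m n h (h.length / (ell m n + 1)), Test.sign [11]))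
  else if h.length = tot3 m n then ([], Test.ask (question m n h))
  else ([], Test.answer (decide ((h.reverse.head?).getD none = some true)))

/-- Questions and strings. -/
def S_QB : Prop := ∀ (m n : ℕ) (h : List Outcome) (q : ℕ), 1 ≤ m →
  (question m n h ∈ oracle3 ↔ Quest m n h) ∧ (bitsAt m n h q).length = ell m n ∧
  beta m n h q = beta m n ((bitsAt m n h q).map some) 0 ∧
  ∀ (a : Inp m n) (u : List Bool), u.length = ell m n →
    bin m n a (true :: u) = decide (sgn m n a u = some true) ∧
    bin m n a (false :: u) = decide (sgn m n a u = some false) ∧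
    ∀ o : Outcome, (∀ p ∈ item u o, bin m n a p.1 = p.2) ↔ sgn m n a u = o

/-- One round of the algorithm: from a history `h` of `i` complete rounds of the input `a`, the
algorithm arrives after `s (l + 1)` steps at a history `h'` of `i + 1` rounds of `a`, and either
the answer is decided or the level has dropped. -/
def S_ROUND : Prop := ∀ (m n : ℕ) (a : Inp m n), 1 ≤ m → ∀ (i : ℕ) (h : List Outcome)
  (ρ : Reg → ℝ), i < pR m n → h.length = i * (ps m n * (ell m n + 1)) →
  (∀ q < i * ps m n, sgn m n a (bitsAt m n h q) = recd m n h q) →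
  (∀ x ∈ baseReg, ρ x = start a.1 a.2 x) →
  ∃ (h' : List Outcome) (ρ' : Reg → ℝ) (l : List ℝ) (st : ℕ),
    h'.length = (i + 1) * (ps m n * (ell m n + 1)) ∧
    (∀ q < (i + 1) * ps m n, sgn m n a (bitsAt m n h' q) = recd m n h' q) ∧
    (∀ x ∈ baseReg, ρ' x = start a.1 a.2 x) ∧
    (∀ p ∈ itemsOf m n (i * ps m n) h, p ∈ itemsOf m n ((i + 1) * ps m n) h') ∧
    (Dcd m n (itemsOf m n ((i + 1) * ps m n) h') ∨
      levV m n (itemsOf m n ((i + 1) * ps m n) h') < levV m n (itemsOf m n (i * ps m n) h)) ∧
    st ≤ ps m n * (ell m n + 1) * (12 * m ^ 4 + 1) ∧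
    ∀ (k : ℕ) (ans : Bool) (nums : List ℝ) (steps : ℕ),
      run oracle3 (smale3 m n) k h' ρ' = some (ans, nums, steps) →
      run oracle3 (smale3 m n) (ps m n * (ell m n + 1) + k) h ρ = some (ans, l ++ nums, st + steps)

/-- The run of the algorithm. -/
def S_RUN3 : Prop := ∀ (m n : ℕ) (a : Inp m n) (k : ℕ), 1 ≤ m → tot3 m n + 2 ≤ k →
  ∃ ans nums steps, run oracle3 (smale3 m n) k [] (start a.1 a.2) = some (ans, nums, steps) ∧
    (ans = true ↔ Feas a) ∧ steps ≤ tot3 m n * (12 * m ^ 4 + 1) + 2

/-- All numbers computed are small on rational inputs. -/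
def S_NUMS3 : Prop := ∀ (O : Set (List Bool)) (m n : ℕ) (A : Matrix (Fin m) (Fin n) ℚ)
  (b : Fin m → ℚ) (k : ℕ) (ans : Bool) (nums : List ℝ) (steps : ℕ), 1 ≤ m →
  run O (smale3 m n) k [] (start (fun i j => ((A i j : ℚ) : ℝ)) (fun i => ((b i : ℚ) : ℝ))) =
    some (ans, nums, steps) →
  ∀ v ∈ nums, ∃ q : ℚ, (q : ℝ) = v ∧ bitLength q ≤ 30 * inputLength A b ^ 2

/-- Polynomial bound for the number of steps. -/
def S_POL3 : Prop := ∃ p : Polynomial ℕ, ∀ m n : ℕ, 1 ≤ m → 1 ≤ n →
  tot3 m n + 2 ≤ p.eval (m + n) ∧ tot3 m n * (12 * m ^ 4 + 1) + 2 ≤ p.eval (m + n)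

/-- The parameters are computed in polynomial time (in unary). -/
def S_UP3 : Prop := ∀ (β : Type) [TEnc β] (m n : β → ℕ), UPoly m → UPoly n →
  UPoly (fun a => ell (m a) (n a)) ∧ UPoly (fun a => pk (m a) (n a)) ∧
  UPoly (fun a => pr (m a) (n a)) ∧ UPoly (fun a => pT (m a) (n a)) ∧
  UPoly (fun a => ps (m a) (n a)) ∧ UPoly (fun a => py (m a) (n a)) ∧
  UPoly (fun a => pK (m a) (n a)) ∧ UPoly (fun a => tot3 (m a) (n a))

/-- The algorithm is computed in polynomial time. -/
def S_PC3 : Prop := PolyControl smale3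

/-! ### Complexity of the oracle -/

open Classical in
/-- The existential theory of the reals, as an oracle. -/
noncomputable def etr : Oracle := fun w => decide (w ∈ lang ETR)

/-- Realizability in the hierarchy. -/
def S_ERM : Prop :=
  TPH etr (fun p : (List Unit × List Unit) × LS => 1 ≤ p.1.1.length ∧
    RLP p.1.1.length p.1.2.length p.2) ∧
  TPH etr (fun p : (List Unit × List Unit) × LS => 1 ≤ p.1.1.length ∧
    RF p.1.1.length p.1.2.length p.2) ∧
  TPH etr (fun p : (List Unit × List Unit) × LS => 1 ≤ p.1.1.length ∧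
    RI p.1.1.length p.1.2.length p.2)

/-- The oracle is in the hierarchy. -/
def S_ORC3 : Prop := IsPH etr oracle3

/-- If the existential theory of the reals is in `P` then so is the hierarchy above it. -/
def S_COLL : Prop := (∀ L : Set (List Bool), InER L → InP L) → ∀ L : Set (List Bool),
  IsPH etr L → InP L

/-- **The main theorem.** -/
def S_MAIN3 : Prop :=
  (∃ (α : Alg) (O : Set (List Bool)), PolyControl α ∧ IsPH etr O ∧ StronglyPolynomial O α) ∧
  ((∀ L : Set (List Bool), InER L → InP L) →
    ∃ α : Alg, PolyControl α ∧ OracleFree α ∧ StronglyPolynomial ∅ α)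

end Pool.Agent.Y648.HO
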