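import Pool.Agent.Y648.HO.Cpx
import Pool.Agent.Y648.HO.Lrn

set_option autoImplicit false

/-!
# The notions of `Lrn.lean` stay in the polynomial hierarchy: statements
-/

namespace Pool.Agent.Y648.HO

open Pool.Agent.NPC
open Pool.Agent.H620R2.Gauge (Oracle)

/-- Lists of labelled strings. -/
abbrev LS : Type := List (List Bool × Bool)

/-- Estimates. -/
def S_CEST : Prop := ∀ (A : Oracle) (β : Type) [TEnc β] [TDec β] (P : β × List Bool → Prop)
  (L r κ : β → ℕ), TPH A P → UPoly L → UPoly r → UPoly κ →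
  TPH A (fun a => Est (L a) (r a) (κ a) (fun x => P (a, x)))

/-- Predictions. -/
def S_CPRE : Prop := ∀ (A : Oracle) (β : Type) [TEnc β] [TDec β] (R : β × LS → Prop)
  (k r : β → ℕ) (D : β → LS) (U : β → List (List Bool)) (q : β → List Bool), TPH A R →
  UPoly k → UPoly r → Poly D → Poly U → Poly q →
  TPH A (fun a => Pre (fun h => R (a, h)) (k a) (r a) (D a) (U a) (q a))

/-- The functions described by codes. -/
def S_CDEC : Prop := ∀ (A : Oracle) (β : Type) [TEnc β] [TDec β] (R : β × LS → Prop)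
  (l k r T : β → ℕ) (c q : β → List Bool), TPH A R →
  UPoly l → UPoly k → UPoly r → UPoly T → Poly c → Poly q →
  TPH A (fun a => dec (fun h => R (a, h)) (l a) (k a) (r a) (T a) (c a) (q a))

/-- The version space. -/
def S_CVS : Prop := ∀ (A : Oracle) (β : Type) [TEnc β] [TDec β] (R : β × LS → Prop)
  (l k r T s : β → ℕ) (H : β → LS) (c : β → List Bool), TPH A R →
  UPoly l → UPoly k → UPoly r → UPoly T → UPoly s → Poly H → Poly c →
  TPH A (fun a => VS (fun h => R (a, h)) (l a) (k a) (r a) (T a) (s a) (H a) (c a))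

/-- Good blocks. -/
def S_CGOOD : Prop := ∀ (A : Oracle) (β : Type) [TEnc β] [TDec β] (R E : β × LS → Prop)
  (l k r T s y : β → ℕ) (H : β → LS) (U : β → List (List Bool)), TPH A R → TPH A E →
  UPoly l → UPoly k → UPoly r → UPoly T → UPoly s → UPoly y → Poly H → Poly U →
  TPH A (fun a => Good (fun h => R (a, h)) (fun h => E (a, h)) (l a) (k a) (r a) (T a) (s a)
    (y a) (H a) (U a))

end Pool.Agent.Y648.HO
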