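import Pool.Agent.Y648.HO.StmA

set_option autoImplicit false

namespace Pool.Agent.Y648.HO

open Pool.Agent.NPC Pool.Agent.NPC.ER Pool.Agent.H558R2 Pool.Agent.H622R3.SM
open Pool.Agent.H620R2.Gauge (Oracle IsPH)

theorem t_STRONG3 (hR : S_RUN3) (hN : S_NUMS3) (hP : S_POL3) :
    StronglyPolynomial oracle3 smale3 := by
  obtain ⟨p, hp⟩ := hP
  refine ⟨p, fun m n hm hn => ⟨fun A b => ?_, fun A b k ans nums steps h => ?_⟩⟩
  · obtain ⟨h1, h2⟩ := hp m n hm hn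
    obtain ⟨ans, nums, steps, h3, h4, h5⟩ := hR m n (A, b) (p.eval (m + n)) hm h1
    exact ⟨ans, nums, steps, h3, h4.trans (feas_iff A b), h5.trans h2⟩
  · exact hN oracle3 m n A b k ans nums steps hm h

theorem t_MAIN3 (hR : S_RUN3) (hN : S_NUMS3) (hP : S_POL3) (hC : S_PC3) (hO : S_ORC3)
    (hL : S_COLL) : S_MAIN3 := by
  have h1 := t_STRONG3 hR hN hP
  refine ⟨⟨smale3, oracle3, hC, hO, h1⟩, fun her => ?_⟩
  exact t_ELIM t_COMP t_COMP2 smale3 oracle3 hC (hL her oracle3 hO) h1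

end Pool.Agent.Y648.HO
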