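import Pool.Agent.Y648.HO.StmA

set_option autoImplicit false

/-!
# The oracle of the algorithm is in the polynomial hierarchy over the existential theory of the
reals
-/

namespace Pool.Agent.Y648.HO

open Pool.Agent.NPC Pool.Agent.NPC.ER Pool.Agent.H558R2 Pool.Agent.H622R3.SM
open Pool.Agent.H620R2.Gauge (Oracle IsPH)

namespace ORC3

section poly

variable {α β : Type} [TEnc α] [TEnc β]

omit [TEnc β] in
theorem drop_aux : ∀ (l : List β) (k j : ℕ),
    ((l.zipIdx j).filter (fun q => decide (j + k ≤ q.2))).map Prod.fst = l.drop k := by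
  intro l
  induction l with
  | nil => simp
  | cons a l ih =>
    intro k j
    rw [List.zipIdx_cons]
    cases k with
    | zero =>
      have h : ((a, j) :: l.zipIdx (j + 1)).filter (fun q => decide (j + 0 ≤ q.2)) =
          (a, j) :: l.zipIdx (j + 1) := by
        rw [List.filter_eq_self]
        intro q hq
        rcases List.mem_cons.1 hq with h | h
        · rw [h]; simp
        · have := List.le_snd_of_mem_zipIdx h
          simp only [decide_eq_true_eq]
          omega
      rw [h, List.drop_zero, List.map_cons, List.zipIdx_map_fst]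
    | succ k =>
      rw [List.filter_cons_of_neg (by simp), List.drop_succ_cons]
      have e : j + (k + 1) = j + 1 + k := by omega
      rw [e, ih k (j + 1)]

omit [TEnc β] in
theorem take_aux : ∀ (l : List β) (k j : ℕ),
    ((l.zipIdx j).filter (fun q => decide (q.2 < j + k))).map Prod.fst = l.take k := by
  intro l
  induction l with
  | nil => simp
  | cons a l ih =>
    intro k j
    rw [List.zipIdx_cons]
    cases k with
    | zero =>
      have h : ((a, j) :: l.zipIdx (j + 1)).filter (fun q => decide (q.2 < j + 0)) = [] := by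
        rw [List.filter_eq_nil_iff]
        intro q hq
        rcases List.mem_cons.1 hq with h | h
        · rw [h]; simp
        · have := List.le_snd_of_mem_zipIdx h
          simp only [decide_eq_true_eq]
          omega
      rw [h]; simp
    | succ k =>
      rw [List.filter_cons_of_pos (by simp), List.map_cons, List.take_succ_cons]
      have e : j + (k + 1) = j + 1 + k := by omega
      rw [e, ih k (j + 1)]

theorem poly_drop {l : α → List β} {k : α → ℕ} (hl : Poly l) (hk : Poly k) :
    Poly (fun a => (l a).drop (k a)) := by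
  have h : Poly (fun a => ((l a).zipIdx.filter (fun q => decide (k a ≤ q.2))).map Prod.fst) := by
    fun_prop
  refine h.congr fun a => ?_
  have := drop_aux (l a) (k a) 0
  simpa using this

theorem poly_take {l : α → List β} {k : α → ℕ} (hl : Poly l) (hk : Poly k) :
    Poly (fun a => (l a).take (k a)) := by
  have h : Poly (fun a => ((l a).zipIdx.filter (fun q => decide (q.2 < k a))).map Prod.fst) := by
    fun_prop
  refine h.congr fun a => ?_
  have := take_aux (l a) (k a) 0
  simpa using this

/-- the test for initial segments -/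
theorem poly_ini {l l' : α → List Bool} (hl : Poly l) (hl' : Poly l')
    [inst : ∀ a, Decidable (l a <+: l' a)] : Poly (fun a => @decide (l a <+: l' a) (inst a)) := by
  have h : Poly (fun a => decide (l a = (l' a).take (l a).length)) :=
    Poly.decide_eq hl (poly_take hl' (Poly.length hl))
  refine h.congr fun a => ?_
  exact decide_eq_decide.2 List.prefix_iff_eq_take.symm

theorem poly_bitsAt {m n q : α → ℕ} {h : α → List Outcome} (hell : UPoly fun a => ell (m a) (n a))
    (hq : Poly q) (hh : Poly h) : Poly (fun a => bitsAt (m a) (n a) (h a) (q a)) := by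
  unfold bitsAt
  have h1 : Poly (fun p : α × ℕ => ell (m p.1) (n p.1)) := hell.toPoly.comp (Poly.fst Poly.id)
  refine NPC.Poly.map (F := fun a i =>
    decide ((h a).getD (q a * (ell (m a) (n a) + 1) + i) none = some true)) hell.range ?_
  exact Poly.decide_eq (Poly.getD (hh.comp (Poly.fst Poly.id)) (Poly.add (Poly.mul
    (hq.comp (Poly.fst Poly.id)) (Poly.add h1 (NPC.Poly.const 1))) (Poly.snd Poly.id))
    (NPC.Poly.const none)) (NPC.Poly.const (some true))

theorem poly_recd {m n q : α → ℕ} {h : α → List Outcome} (hell : Poly fun a => ell (m a) (n a))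
    (hq : Poly q) (hh : Poly h) : Poly (fun a => recd (m a) (n a) (h a) (q a)) := by
  unfold recd
  exact Poly.getD hh (Poly.add (Poly.mul hq (Poly.add hell (NPC.Poly.const 1))) hell)
    (NPC.Poly.const none)

theorem poly_item {u : α → List Bool} {o : α → Option Bool} (hu : Poly u) (ho : Poly o) :
    Poly (fun a => item (u a) (o a)) := by
  unfold item
  exact Poly.cons (Poly.pair (Poly.cons (NPC.Poly.const true) hu)
    (Poly.decide_eq ho (NPC.Poly.const (some true))))
    (Poly.cons (Poly.pair (Poly.cons (NPC.Poly.const false) hu)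
    (Poly.decide_eq ho (NPC.Poly.const (some false)))) (NPC.Poly.const []))

theorem poly_itemsOf {m n K : α → ℕ} {h : α → List Outcome}
    (hell : UPoly fun a => ell (m a) (n a)) (hK : UPoly K) (hh : Poly h) :
    Poly (fun a => itemsOf (m a) (n a) (K a) (h a)) := by
  unfold itemsOf
  refine NPC.Poly.flatMap (F := fun a q =>
    item (bitsAt (m a) (n a) (h a) q) (recd (m a) (n a) (h a) q)) hK.range ?_
  have hell' : UPoly fun p : α × ℕ => ell (m p.1) (n p.1) := hell.comp (Poly.fst Poly.id)
  exact poly_item (poly_bitsAt (m := fun p : α × ℕ => m p.1) (n := fun p => n p.1)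
      (q := fun p => p.2) (h := fun p => h p.1) hell' (Poly.snd Poly.id)
      (hh.comp (Poly.fst Poly.id)))
    (poly_recd (m := fun p : α × ℕ => m p.1) (n := fun p => n p.1)
      (q := fun p => p.2) (h := fun p => h p.1) hell'.toPoly (Poly.snd Poly.id)
      (hh.comp (Poly.fst Poly.id)))

theorem poly_rnd {m n : α → ℕ} {h : α → List Outcome} (hell : Poly fun a => ell (m a) (n a))
    (hps : Poly fun a => ps (m a) (n a)) (hh : Poly h) :
    Poly (fun a => rnd (m a) (n a) (h a)) := by
  unfold rnd
  exact Poly.div (Poly.div (Poly.length hh) (Poly.add hell (NPC.Poly.const 1))) hps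

omit [TEnc α] [TEnc β] in
theorem rnd_le (m n : ℕ) (h : List Outcome) :
    rnd m n h * ps m n ≤ h.length / (ell m n + 1) ∧ h.length / (ell m n + 1) ≤ h.length :=
  ⟨Nat.div_mul_le_self _ _, Nat.div_le_self _ _⟩

theorem upoly_rnd {m n : α → ℕ} {h : α → List Outcome} (hell : Poly fun a => ell (m a) (n a))
    (hps : Poly fun a => ps (m a) (n a)) (hh : Poly h) :
    UPoly (fun a => rnd (m a) (n a) (h a) * ps (m a) (n a)) :=
  UPoly.of_le (Poly.mul (poly_rnd hell hps hh) hps) (UPoly.length hh) fun a =>
    (rnd_le _ _ _).1.trans (rnd_le _ _ _).2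

theorem poly_pre {m n : α → ℕ} {h : α → List Outcome} (hell : UPoly fun a => ell (m a) (n a))
    (hps : Poly fun a => ps (m a) (n a)) (hh : Poly h) :
    Poly (fun a => pre (m a) (n a) (h a)) := by
  unfold pre
  have hd : Poly (fun a => (h a).length / (ell (m a) (n a) + 1)) :=
    Poly.div (Poly.length hh) (Poly.add hell.toPoly (NPC.Poly.const 1))
  have hr := poly_rnd hell.toPoly hps hh
  have h1 : UPoly (fun a => (h a).length / (ell (m a) (n a) + 1) -
      rnd (m a) (n a) (h a) * ps (m a) (n a)) :=
    UPoly.of_le (Poly.sub hd (Poly.mul hr hps)) (UPoly.length hh) fun _ =>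
      (Nat.sub_le _ _).trans (rnd_le _ _ _).2
  refine Poly.append ?_ ?_
  · refine NPC.Poly.flatMap (F := fun a j =>
      bitsAt (m a) (n a) (h a) (rnd (m a) (n a) (h a) * ps (m a) (n a) + j)) h1.range ?_
    exact poly_bitsAt (m := fun p : α × ℕ => m p.1) (n := fun p => n p.1)
      (q := fun p => rnd (m p.1) (n p.1) (h p.1) * ps (m p.1) (n p.1) + p.2)
      (h := fun p => h p.1) (hell.comp (Poly.fst Poly.id))
      (Poly.add ((Poly.mul hr hps).comp (Poly.fst Poly.id)) (Poly.snd Poly.id))
      (hh.comp (Poly.fst Poly.id))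
  · refine NPC.Poly.map (F := fun _ (o : Outcome) => decide (o = some true))
      (poly_drop hh (Poly.mul hd (Poly.add hell.toPoly (NPC.Poly.const 1)))) ?_
    exact Poly.decide_eq (Poly.snd Poly.id) (NPC.Poly.const (some true))

end poly

/-- the size of a block -/
theorem sz_block {U : List (List Bool)} {s l : ℕ} (hU : U.length = s)
    (hu : ∀ u ∈ U, u.length = l) : sz U ≤ s * (4 * l + 2) + 1 := by
  have h := sz_le_length_mul U (4 * l + 1) (fun u hu' => by
    have := sz_listBool_le u
    rwa [hu u hu'] at this)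
  rw [hU] at h
  exact h

end ORC3

open ORC3

theorem t_ORC3 (hG : S_CGOOD) (hE : S_ERM) (hU : S_UP3) : S_ORC3 := by
  classical
  obtain ⟨hR, hF, hI⟩ := hE
  -- the parameters
  have um : UPoly (fun p : HistIn => p.1.1.length) := UPoly.length (Poly.fst (Poly.fst Poly.id))
  have un : UPoly (fun p : HistIn => p.1.2.length) := UPoly.length (Poly.snd (Poly.fst Poly.id))
  have hh : Poly (fun p : HistIn => p.2) := Poly.snd Poly.id
  obtain ⟨uell, -, -, -, ups, -, upK, utot⟩ := hU HistIn _ _ um un
  have hell := uell.toPoly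
  have hps := ups.toPoly
  have htot := utot.toPoly
  -- good blocks
  have hgood : TPH etr (fun a : HistIn × List (List Bool) =>
      Good (fun h => 1 ≤ a.1.1.1.length ∧ RLP a.1.1.1.length a.1.1.2.length h)
        (fun h => ¬ ((1 ≤ a.1.1.1.length ∧ RF a.1.1.1.length a.1.1.2.length h) ∧
          (1 ≤ a.1.1.1.length ∧ RI a.1.1.1.length a.1.1.2.length h)))
        (ell a.1.1.1.length a.1.1.2.length) (pk a.1.1.1.length a.1.1.2.length)
        (pr a.1.1.1.length a.1.1.2.length) (pT a.1.1.1.length a.1.1.2.length)
        (ps a.1.1.1.length a.1.1.2.length) (py a.1.1.1.length a.1.1.2.length)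
        (itemsOf a.1.1.1.length a.1.1.2.length
          (rnd a.1.1.1.length a.1.1.2.length a.1.2 * ps a.1.1.1.length a.1.1.2.length) a.1.2)
        a.2) := by
    have vm : UPoly (fun a : HistIn × List (List Bool) => a.1.1.1.length) :=
      um.comp (Poly.fst Poly.id)
    have vn : UPoly (fun a : HistIn × List (List Bool) => a.1.1.2.length) :=
      un.comp (Poly.fst Poly.id)
    obtain ⟨v1, v2, v3, v4, v5, v6, -, -⟩ := hU (HistIn × List (List Bool)) _ _ vm vn
    have hf : Poly (fun q : (HistIn × List (List Bool)) × LS => (q.1.1.1, q.2)) :=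
      Poly.pair (Poly.fst (Poly.fst (Poly.fst Poly.id))) (Poly.snd Poly.id)
    exact hG etr (HistIn × List (List Bool))
      (fun q => 1 ≤ q.1.1.1.1.length ∧ RLP q.1.1.1.1.length q.1.1.1.2.length q.2)
      (fun q => ¬ ((1 ≤ q.1.1.1.1.length ∧ RF q.1.1.1.1.length q.1.1.1.2.length q.2) ∧
          (1 ≤ q.1.1.1.1.length ∧ RI q.1.1.1.1.length q.1.1.1.2.length q.2)))
      _ _ _ _ _ _ _ (fun a => a.2) (hR.comp hf) ((hF.comp hf).and (hI.comp hf)).neg
      v1 v2 v3 v4 v5 v6
      (poly_itemsOf (m := fun a : HistIn × List (List Bool) => a.1.1.1.length)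
        (n := fun a => a.1.1.2.length) (h := fun a => a.1.2) v1
        (upoly_rnd v1.toPoly v5.toPoly (hh.comp (Poly.fst Poly.id)))
        (hh.comp (Poly.fst Poly.id)))
      (Poly.snd Poly.id)
  -- the block quantifier
  have hlen : TPH etr (fun a : HistIn × List (List Bool) =>
      a.2.length = ps a.1.1.1.length a.1.1.2.length) :=
    TPH.of_dec (Poly.decide_eq (Poly.length (Poly.snd Poly.id)) (hps.comp (Poly.fst Poly.id)))
  have hall : TPH etr (fun a : HistIn × List (List Bool) =>
      ∀ u ∈ a.2, u.length = ell a.1.1.1.length a.1.1.2.length) :=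
    TPH.allMem (R := fun q : (HistIn × List (List Bool)) × List Bool =>
      q.2.length = ell q.1.1.1.1.length q.1.1.1.2.length)
      (TPH.of_dec (Poly.decide_eq (Poly.length (Poly.snd Poly.id))
        (hell.comp (Poly.fst (Poly.fst Poly.id))))) (Poly.snd Poly.id)
  have hpre : TPH etr (fun a : HistIn × List (List Bool) =>
      (pre a.1.1.1.length a.1.1.2.length a.1.2 ++ [false]) <+: a.2.flatten) :=
    TPH.of_dec (poly_ini (Poly.append ((poly_pre uell hps hh).comp (Poly.fst Poly.id))
      (NPC.Poly.const [false])) (Poly.flatten (Poly.snd Poly.id)))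
  have hex := ((hlen.and (hall.and (hgood.and hpre))).exT
    (UPoly.add (UPoly.mul ups (UPoly.add (UPoly.mul (UPoly.const 4) uell) (UPoly.const 2)))
      (UPoly.const 1))).neg
  have hlt : TPH etr (fun p : HistIn => p.2.length < tot3 p.1.1.length p.1.2.length) :=
    TPH.of_dec (Poly.decide_lt (Poly.length hh) htot)
  have heq : TPH etr (fun p : HistIn => p.2.length = tot3 p.1.1.length p.1.2.length) :=
    TPH.of_dec (Poly.decide_eq (Poly.length hh) htot)
  have h1 : TPH etr (fun p : HistIn => 1 ≤ p.1.1.length) :=
    TPH.of_dec (Poly.decide_le (NPC.Poly.const 1) (Poly.length (Poly.fst (Poly.fst Poly.id))))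
  have hRF : TPH etr (fun p : HistIn => 1 ≤ p.1.1.length ∧ RF p.1.1.length p.1.2.length
      (itemsOf p.1.1.length p.1.2.length (pK p.1.1.length p.1.2.length) p.2)) :=
    hF.comp (f := fun p : HistIn => (p.1,
      itemsOf p.1.1.length p.1.2.length (pK p.1.1.length p.1.2.length) p.2))
      (Poly.pair (Poly.fst Poly.id) (poly_itemsOf uell upK hh))
  refine TPH.isPH ((h1.and ((hlt.and hex).or (heq.and hRF))).congr fun p => ?_)
  refine and_congr_right fun hm => ?_
  unfold Quest
  refine or_congr (and_congr_right fun _ => not_congr (exists_congr fun U => ?_))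
    (and_congr_right fun _ => and_iff_right hm)
  have e1 : (fun h => 1 ≤ p.1.1.length ∧ RLP p.1.1.length p.1.2.length h) =
      RLP p.1.1.length p.1.2.length := by
    funext h
    exact propext (and_iff_right hm)
  have e2 : (fun h => ¬ ((1 ≤ p.1.1.length ∧ RF p.1.1.length p.1.2.length h) ∧
      (1 ≤ p.1.1.length ∧ RI p.1.1.length p.1.2.length h))) =
      Dcd p.1.1.length p.1.2.length := by
    funext h
    exact propext (not_congr (and_congr (and_iff_right hm) (and_iff_right hm)))
  constructor
  · rintro ⟨-, g1, g2, g3, g4⟩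
    refine ⟨g1, g2, ?_, g4⟩
    have g5 := g3
    dsimp only at g5
    rw [e1, e2] at g5
    exact g5
  · rintro ⟨g1, g2, g3, g4⟩
    refine ⟨sz_block g1 g2, g1, g2, ?_, g4⟩
    dsimp only
    rw [e1, e2]
    exact g3

end Pool.Agent.Y648.HO
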